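import Mathlib

/-!
Definitions for the transformation property (problem MP_b7a9b7_lc).

Everything is literally coded in Mathlib's model `ZFSet` of ZFC: `H(θ)`, its countable elementary
submodels, forcing notions as sets, nice names as sets, the recursive action of an automorphism on
names, and the quotient algebras `Baire / meager` and `Baire / null` of `2^κ`.
-/

universe u

open Cardinal Ordinal FirstOrder

namespace Pool.Agent.TransProp

/-! ### `H(θ)` and its countable elementary submodels -/

/-- Relation symbols of the language with membership and one more binary relation. -/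
inductive SetRel : ℕ → Type
  | mem : SetRel 2
  | wo : SetRel 2

/-- The first-order language with two binary relation symbols (membership and a well-order). -/
def LSet : FirstOrder.Language.{0, 0} := ⟨fun _ => Empty, SetRel⟩

/-- `H(θ)`: the class of sets that are hereditarily of cardinality `< θ`. -/
def HSet (θ : Cardinal.{u}) : Set ZFSet.{u} := {x | x.Hereditarily fun y => y.card < θ}

/-- The underlying type of the structure `(H(θ), ∈, W)`, where `W` is a binary relation. -/
def HModel (θ : Cardinal.{u}) (_W : HSet θ → HSet θ → Prop) : Type (u + 1) := HSet θ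

/-- The structure `(H(θ), ∈, W)`. -/
instance instStructureHModel (θ : Cardinal.{u}) (W : HSet θ → HSet θ → Prop) :
    LSet.Structure (HModel θ W) where
  funMap := fun f => Empty.elim f
  RelMap := fun {_} r => match r with
    | .mem => fun v => (v 0).1 ∈ (v 1).1
    | .wo => fun v => W (v 0) (v 1)

/-- `Sub(θ)`: the countable elementary submodels of `(H(θ), ∈, W)`. -/
def SubH (θ : Cardinal.{u}) (W : HSet θ → HSet θ → Prop) : Type (u + 1) :=
  {M : LSet.ElementarySubstructure (HModel θ W) // (M : Set (HModel θ W)).Countable}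

/-- The set of elements of a member of `Sub(θ)`. -/
def SubH.carrier {θ : Cardinal.{u}} {W : HSet θ → HSet θ → Prop} (M : SubH θ W) :
    Set ZFSet.{u} :=
  {x | ∃ y : HModel θ W, y ∈ M.1 ∧ y.1 = x}

/-- The height `δ_M = M ∩ ω₁` of a member of `Sub(θ)`, as a set of von Neumann ordinals. -/
def SubH.height {θ : Cardinal.{u}} {W : HSet θ → HSet θ → Prop} (M : SubH θ W) :
    Set ZFSet.{u} :=
  {x | x ∈ M.carrier ∧ x ∈ (Ordinal.omega 1).toZFSet}

/-! ### Forcing notions, nice names and automorphisms -/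

/-- `(D, R)` is a partial order (a set `D` of conditions with an order relation `R ⊆ D × D`)
with largest element `o`. -/
structure IsForcing (D R o : ZFSet.{u}) : Prop where
  rel_sub : ∀ z ∈ R, ∃ p ∈ D, ∃ q ∈ D, z = ZFSet.pair p q
  refl : ∀ p ∈ D, ZFSet.pair p p ∈ R
  antisymm : ∀ p ∈ D, ∀ q ∈ D, ZFSet.pair p q ∈ R → ZFSet.pair q p ∈ R → p = q
  trans : ∀ p ∈ D, ∀ q ∈ D, ∀ r ∈ D, ZFSet.pair p q ∈ R → ZFSet.pair q r ∈ R →
    ZFSet.pair p r ∈ R
  one_mem : o ∈ D
  le_one : ∀ p ∈ D, ZFSet.pair p o ∈ R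

/-- The canonical name `{(m̌, 1) : m < n}` of the natural number `n`. -/
noncomputable def check (o : ZFSet.{u}) : ℕ → ZFSet.{u}
  | 0 => ∅
  | n + 1 => insert (ZFSet.pair (check o n) o) (check o n)

/-- Two conditions are incompatible: no condition is below both. -/
def Incompatible (D R p q : ZFSet.{u}) : Prop :=
  ∀ r ∈ D, ¬ (ZFSet.pair r p ∈ R ∧ ZFSet.pair r q ∈ R)

/-- `a` is a nice name for a subset of `ω`: `a = ⋃ₙ {ň} × Aₙ` with every `Aₙ` an antichain. -/
structure IsNiceName (D R o a : ZFSet.{u}) : Prop where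
  elems : ∀ z ∈ a, ∃ n : ℕ, ∃ p ∈ D, z = ZFSet.pair (check o n) p
  anti : ∀ (n : ℕ) (p q : ZFSet.{u}), ZFSet.pair (check o n) p ∈ a →
    ZFSet.pair (check o n) q ∈ a → p ≠ q → Incompatible D R p q

/-- `h` restricts to an automorphism of the partial order `(D, R)`. -/
structure IsAut (D R : ZFSet.{u}) (h : ZFSet.{u} → ZFSet.{u}) : Prop where
  bij : Set.BijOn h {p | p ∈ D} {p | p ∈ D}
  rel : ∀ p ∈ D, ∀ q ∈ D, (ZFSet.pair (h p) (h q) ∈ R ↔ ZFSet.pair p q ∈ R)

instance small_pairs (a : ZFSet.{u}) :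
    Small.{u} {z : ZFSet.{u} × ZFSet.{u} // ZFSet.pair z.1 z.2 ∈ a} :=
  small_of_injective (β := a) (f := fun z => ⟨ZFSet.pair z.1.1 z.1.2, z.2⟩) (by
    rintro ⟨⟨x, y⟩, h⟩ ⟨⟨x', y'⟩, h'⟩ e
    have := ZFSet.pair_inj.1 (congrArg Subtype.val e)
    simp only [Subtype.mk.injEq, Prod.mk.injEq]
    exact this)

theorem rank_lt_of_pair_mem {b p a : ZFSet.{u}} (h : ZFSet.pair b p ∈ a) :
    b.rank < a.rank := by
  have h1 : b ∈ ({b} : ZFSet.{u}) := by simp
  have h2 : ({b} : ZFSet.{u}) ∈ ZFSet.pair b p := by simp [ZFSet.pair]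
  exact (ZFSet.rank_lt_of_mem h1).trans ((ZFSet.rank_lt_of_mem h2).trans (ZFSet.rank_lt_of_mem h))

/-- The recursive action of `h` on names: `h(a) = {(h(b), h(p)) : (b, p) ∈ a}`. -/
noncomputable def act (h : ZFSet.{u} → ZFSet.{u}) (a : ZFSet.{u}) : ZFSet.{u} :=
  ZFSet.range fun z : {z : ZFSet.{u} × ZFSet.{u} // ZFSet.pair z.1 z.2 ∈ a} =>
    ZFSet.pair (act h z.1.1) (h z.1.2)
termination_by a.rank
decreasing_by exact rank_lt_of_pair_mem z.2

/-- The transformation property of the forcing notion `P = (D, R)` (with largest element `o`)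
for the cardinal `θ` and the well-ordering `W` of `H(θ)`. -/
def TPAt (θ : Cardinal.{u}) (W : HSet θ → HSet θ → Prop) (D R o : ZFSet.{u}) : Prop :=
  ∀ (n : ℕ) (M : Fin (n + 1) → SubH θ W) (a : Fin (n + 1) → ZFSet.{u}),
    (∀ i, ZFSet.pair D R ∈ (M i).carrier) →
    (∀ i : Fin n, (M i.castSucc).height ⊆ (M i.succ).height) →
    (∀ i, IsNiceName D R o (a i) ∧ a i ∈ (M i).carrier) →
    ∃ h : ZFSet.{u} → ZFSet.{u}, IsAut D R h ∧ (∀ i, act h (a i) ∈ (M (Fin.last n)).carrier) ∧
      act h (a (Fin.last n)) = a (Fin.last n)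

/-! ### The Cohen and random algebras `C(κ)` and `B(κ)` -/

/-- The index set `κ` (its elements are the ordinals below `κ`). -/
abbrev Idx (κ : Cardinal.{u}) : Type u := κ.ord.ToType

/-- Baire subsets of `2^I`: the smallest `σ`-algebra containing the clopen sets. -/
def IsBaire {ι : Type u} (B : Set (ι → Bool)) : Prop :=
  MeasurableSpace.GenerateMeasurable {C : Set (ι → Bool) | IsClopen C} B

/-- The fair coin measure on `{0, 1}`. -/
noncomputable def coin : MeasureTheory.Measure Bool := (PMF.uniformOfFintype Bool).toMeasure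

/-- The product measure on `2^I`. -/
noncomputable def prodMeasure (ι : Type u) : MeasureTheory.Measure (ι → Bool) :=
  MeasureTheory.Measure.infinitePi fun _ => coin

/-- The null ideal of the product measure. -/
def IsNull {ι : Type u} (B : Set (ι → Bool)) : Prop := prodMeasure ι B = 0

/-- The function `x : κ → 2` as a set of ordered pairs. -/
noncomputable def codeFun {κ : Cardinal.{u}} (x : Idx κ → Bool) : ZFSet.{u} :=
  ZFSet.range fun i : Idx κ =>
    ZFSet.pair (Ordinal.ToType.toOrd i).1.toZFSet (if x i = true then {∅} else ∅)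

/-- A subset of `2^κ` as a set. -/
noncomputable def codeSet {κ : Cardinal.{u}} (B : Set (Idx κ → Bool)) : ZFSet.{u} :=
  ZFSet.range fun x : B => codeFun x.1

/-- The equivalence class of `B` modulo the ideal `N`, as a set of subsets of `2^κ`. -/
noncomputable def cls {κ : Cardinal.{u}} (N : Set (Idx κ → Bool) → Prop)
    (B : Set (Idx κ → Bool)) : ZFSet.{u} :=
  ZFSet.range fun B' : {B' : Set (Idx κ → Bool) // IsBaire B' ∧ N (symmDiff B B')} => codeSet B'.1

/-- The conditions of the quotient algebra `Baire / N`: the nonzero classes. -/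
noncomputable def quotD {κ : Cardinal.{u}} (N : Set (Idx κ → Bool) → Prop) : ZFSet.{u} :=
  ZFSet.range fun B : {B : Set (Idx κ → Bool) // IsBaire B ∧ ¬ N B} => cls N B.1

/-- The order of the quotient algebra `Baire / N`. -/
noncomputable def quotR {κ : Cardinal.{u}} (N : Set (Idx κ → Bool) → Prop) : ZFSet.{u} :=
  ZFSet.range fun B : {B : Set (Idx κ → Bool) × Set (Idx κ → Bool) //
      IsBaire B.1 ∧ ¬ N B.1 ∧ IsBaire B.2 ∧ ¬ N B.2 ∧ N (B.1 \ B.2)} =>
    ZFSet.pair (cls N B.1.1) (cls N B.1.2)

/-- The largest element of the quotient algebra `Baire / N`. -/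
noncomputable def quotO {κ : Cardinal.{u}} (N : Set (Idx κ → Bool) → Prop) : ZFSet.{u} :=
  cls N Set.univ

/-- The transformation property of Cohen forcing `C(κ)` at `θ` and `W`. -/
def CohenTPAt (κ θ : Cardinal.{u}) (W : HSet θ → HSet θ → Prop) : Prop :=
  TPAt θ W (quotD (κ := κ) IsMeagre) (quotR (κ := κ) IsMeagre) (quotO (κ := κ) IsMeagre)

/-- The transformation property of random forcing `B(κ)` at `θ` and `W`. -/
def RandomTPAt (κ θ : Cardinal.{u}) (W : HSet θ → HSet θ → Prop) : Prop :=
  TPAt θ W (quotD (κ := κ) IsNull) (quotR (κ := κ) IsNull) (quotO (κ := κ) IsNull)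

/-- The transformation property of Cohen forcing `C(κ)`: for every sufficiently large regular `θ`
and every well-ordering of `H(θ)`. -/
def CohenTP (κ : Cardinal.{u}) : Prop :=
  ∃ θ₀ : Cardinal.{u}, ∀ θ ≥ θ₀, θ.IsRegular → ∀ W : HSet θ → HSet θ → Prop,
    IsWellOrder (HSet θ) W → CohenTPAt κ θ W

/-- The transformation property of random forcing `B(κ)`: for every sufficiently large regular `θ`
and every well-ordering of `H(θ)`. -/
def RandomTP (κ : Cardinal.{u}) : Prop :=
  ∃ θ₀ : Cardinal.{u}, ∀ θ ≥ θ₀, θ.IsRegular → ∀ W : HSet θ → HSet θ → Prop,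
    IsWellOrder (HSet θ) W → RandomTPAt κ θ W

/-! ### The combinatorial principle -/

/-- The trace principle for the type `α`: the countable subsets of `α` are exhausted by an
increasing `ω₁`-chain of families each of which has only countably many traces on every countable
subset of `α`. -/
def TracePrinciple (α : Type u) : Prop :=
  ∃ F : Ordinal.{u} → Set (Set α),
    (∀ ξ η, ξ ≤ η → F ξ ⊆ F η) ∧
    (∀ B : Set α, B.Countable → ∃ ξ < Ordinal.omega 1, B ∈ F ξ) ∧
    (∀ ξ < Ordinal.omega 1, ∀ A : Set α, A.Countable → {C | ∃ B ∈ F ξ, C = B ∩ A}.Countable)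

/-- Chang's conjecture `(κ₁, κ₀) ↠ (ℵ₁, ℵ₀)`: every structure of size `κ₁` in a countable language,
with a distinguished subset `U` of size `κ₀`, has an elementary substructure `S` of size `ℵ₁` with
`S ∩ U` of size `ℵ₀`. -/
def Chang (κ₁ κ₀ : Cardinal.{u}) : Prop :=
  ∀ (L : FirstOrder.Language.{0, 0}) [Countable L.Symbols] (X : Type u) [L.Structure X] (U : Set X),
    #X = κ₁ → #U = κ₀ →
    ∃ S : L.ElementarySubstructure X, #S = Cardinal.aleph 1 ∧ #(↑((S : Set X) ∩ U)) = ℵ₀

end Pool.Agent.TransProp
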