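import Mathlib
import Pool.Agent.Work.MP_b7a9b7_lc.Defs

/-!
A small calculus of first-order definability over `(H(θ), ∈, W)`.
-/

universe u

open Cardinal Ordinal FirstOrder

namespace Pool.Agent.TransProp

variable {θ : Cardinal.{u}} {W : HSet θ → HSet θ → Prop}

/-! ### Basic closure of `H(θ)` -/

theorem HSet.mem {x y : ZFSet.{u}} (h : x ∈ HSet θ) (hy : y ∈ x) : y ∈ HSet θ :=
  ZFSet.Hereditarily.mem h hy

theorem HSet.card_lt {x : ZFSet.{u}} (h : x ∈ HSet θ) : x.card < θ :=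
  ZFSet.Hereditarily.self h

theorem HSet.intro {x : ZFSet.{u}} (h : x.card < θ) (h' : ∀ y ∈ x, y ∈ HSet θ) : x ∈ HSet θ := by
  unfold HSet
  rw [Set.mem_ofPred_eq, ZFSet.hereditarily_iff]
  exact ⟨h, h'⟩

theorem HSet.subset {x y : ZFSet.{u}} (h : x ∈ HSet θ) (hy : y ⊆ x) : y ∈ HSet θ :=
  HSet.intro ((ZFSet.card_mono hy).trans_lt (HSet.card_lt h)) fun _ hz => HSet.mem h (hy hz)

theorem exists_forall_mem_HSet (x : ZFSet.{u}) : ∃ θ₀ : Cardinal.{u}, ∀ θ ≥ θ₀, x ∈ HSet θ := by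
  induction x using ZFSet.inductionOn with
  | _ x ih =>
    choose! c hc using ih
    have hs : Small.{u} x := inferInstance
    refine ⟨max (⨆ y : Shrink.{u} x, c ((equivShrink x).symm y).1) (Order.succ x.card),
      fun θ hθ => ?_⟩
    refine HSet.intro ?_ ?_
    · exact (Order.lt_succ x.card).trans_le ((le_max_right _ _).trans hθ)
    · intro y hy
      refine hc y hy θ (le_trans ?_ ((le_max_left _ _).trans hθ))
      have := le_ciSup (f := fun y : Shrink.{u} x => c ((equivShrink x).symm y).1)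
        Cardinal.bddAbove_of_small (equivShrink x ⟨y, hy⟩)
      simpa using this

/-! ### Definable relations -/

/-- A relation on `H(θ)` is definable without parameters. -/
def DefH (θ : Cardinal.{u}) (W : HSet θ → HSet θ → Prop) {n : ℕ}
    (R : (Fin n → HModel θ W) → Prop) : Prop :=
  ∃ φ : LSet.Formula (Fin n), ∀ v : Fin n → HModel θ W, φ.Realize v ↔ R v

/-- A relation on sets is definable without parameters over `H(θ)`. -/
def DefRel (θ : Cardinal.{u}) (W : HSet θ → HSet θ → Prop) {n : ℕ}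
    (R : (Fin n → ZFSet.{u}) → Prop) : Prop :=
  DefH θ W fun v => R fun i => (v i).1

theorem DefH.congr {n : ℕ} {R S : (Fin n → HModel θ W) → Prop} (h : DefH θ W R)
    (e : ∀ v, R v ↔ S v) : DefH θ W S := by
  obtain ⟨φ, hφ⟩ := h
  exact ⟨φ, fun v => (hφ v).trans (e v)⟩

theorem DefRel.congr {n : ℕ} {R S : (Fin n → ZFSet.{u}) → Prop} (h : DefRel θ W R)
    (e : ∀ v, (∀ i, v i ∈ HSet θ) → (R v ↔ S v)) : DefRel θ W S :=
  DefH.congr h fun v => e _ fun i => (v i).2

theorem DefH.not {n : ℕ} {R : (Fin n → HModel θ W) → Prop} (h : DefH θ W R) :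
    DefH θ W fun v => ¬ R v := by
  obtain ⟨φ, hφ⟩ := h
  exact ⟨φ.not, fun v => by rw [FirstOrder.Language.Formula.realize_not, hφ v]⟩

theorem DefH.and {n : ℕ} {R S : (Fin n → HModel θ W) → Prop} (h : DefH θ W R)
    (h' : DefH θ W S) : DefH θ W fun v => R v ∧ S v := by
  obtain ⟨φ, hφ⟩ := h
  obtain ⟨ψ, hψ⟩ := h'
  exact ⟨φ ⊓ ψ, fun v => by rw [FirstOrder.Language.Formula.realize_inf, hφ v, hψ v]⟩

theorem DefH.exists {n : ℕ} {R : (Fin n → HModel θ W) → HModel θ W → Prop}
    (h : DefH θ W fun w : Fin (n + 1) → HModel θ W => R (fun i => w i.succ) (w 0)) :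
    DefH θ W fun v => ∃ x, R v x := by
  obtain ⟨φ, hφ⟩ := h
  refine ⟨FirstOrder.Language.Formula.iExs (Fin 1) (FirstOrder.Language.Formula.relabel
    (Fin.cons (Sum.inr 0) (fun i => Sum.inl i) : Fin (n + 1) → Fin n ⊕ Fin 1) φ), fun v => ?_⟩
  rw [FirstOrder.Language.Formula.realize_iExs]
  constructor
  · rintro ⟨i, hi⟩
    rw [FirstOrder.Language.Formula.realize_relabel, hφ] at hi
    exact ⟨i 0, hi⟩
  · rintro ⟨x, hx⟩
    refine ⟨fun _ => x, ?_⟩
    rw [FirstOrder.Language.Formula.realize_relabel, hφ]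
    exact hx

/-- The membership symbol. -/
def memSym : LSet.Relations 2 := SetRel.mem

/-- The well-order symbol. -/
def woSym : LSet.Relations 2 := SetRel.wo

theorem DefH.mem {n : ℕ} (i j : Fin n) :
    DefH θ W fun v : Fin n → HModel θ W => (v i).1 ∈ (v j).1 := by
  refine ⟨FirstOrder.Language.Relations.formula₂ (L := LSet) memSym
    (FirstOrder.Language.Term.var i) (FirstOrder.Language.Term.var j), fun v => ?_⟩
  rw [FirstOrder.Language.Formula.realize_rel₂]
  exact Iff.rfl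

theorem DefH.wo {n : ℕ} (i j : Fin n) :
    DefH θ W fun v : Fin n → HModel θ W => W (v i) (v j) := by
  refine ⟨FirstOrder.Language.Relations.formula₂ (L := LSet) woSym
    (FirstOrder.Language.Term.var i) (FirstOrder.Language.Term.var j), fun v => ?_⟩
  rw [FirstOrder.Language.Formula.realize_rel₂]
  exact Iff.rfl

theorem DefH.eq {n : ℕ} (i j : Fin n) :
    DefH θ W fun v : Fin n → HModel θ W => v i = v j := by
  refine ⟨FirstOrder.Language.Term.equal (L := LSet) (FirstOrder.Language.Term.var i)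
    (FirstOrder.Language.Term.var j), fun v => ?_⟩
  rw [FirstOrder.Language.Formula.realize_equal]
  exact Iff.rfl

theorem DefH.relabel {n m : ℕ} {R : (Fin n → HModel θ W) → Prop} (h : DefH θ W R)
    (g : Fin n → Fin m) : DefH θ W fun v : Fin m → HModel θ W => R fun i => v (g i) := by
  obtain ⟨φ, hφ⟩ := h
  exact ⟨φ.relabel g, fun v => by
    rw [FirstOrder.Language.Formula.realize_relabel, hφ]; exact Iff.rfl⟩

/-! ### The `ZFSet`-level calculus -/

namespace DefRel

theorem mem {n : ℕ} (i j : Fin n) : DefRel θ W fun v => v i ∈ v j := DefH.mem i j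

theorem eq {n : ℕ} (i j : Fin n) : DefRel θ W fun v => v i = v j :=
  (DefH.eq i j).congr fun _ => Subtype.ext_iff

theorem not {n : ℕ} {R : (Fin n → ZFSet.{u}) → Prop} (h : DefRel θ W R) :
    DefRel θ W fun v => ¬ R v := DefH.not h

theorem ne {n : ℕ} (i j : Fin n) : DefRel θ W fun v => v i ≠ v j := not (eq i j)

theorem and {n : ℕ} {R S : (Fin n → ZFSet.{u}) → Prop} (h : DefRel θ W R)
    (h' : DefRel θ W S) : DefRel θ W fun v => R v ∧ S v := DefH.and h h'

theorem or {n : ℕ} {R S : (Fin n → ZFSet.{u}) → Prop} (h : DefRel θ W R)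
    (h' : DefRel θ W S) : DefRel θ W fun v => R v ∨ S v :=
  (not (and (not h) (not h'))).congr fun v _ => by tauto

theorem imp {n : ℕ} {R S : (Fin n → ZFSet.{u}) → Prop} (h : DefRel θ W R)
    (h' : DefRel θ W S) : DefRel θ W fun v => R v → S v :=
  (not (and h (not h'))).congr fun v _ => by tauto

theorem iff {n : ℕ} {R S : (Fin n → ZFSet.{u}) → Prop} (h : DefRel θ W R)
    (h' : DefRel θ W S) : DefRel θ W fun v => R v ↔ S v :=
  (and (imp h h') (imp h' h)).congr fun v _ => by tauto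

/-- Unbounded existential quantification over `H(θ)`. -/
theorem exH {n : ℕ} {R : (Fin n → ZFSet.{u}) → ZFSet.{u} → Prop}
    (h : DefRel θ W fun w : Fin (n + 1) → ZFSet.{u} => R (fun i => w i.succ) (w 0)) :
    DefRel θ W fun v => ∃ x ∈ HSet θ, R v x := by
  have := DefH.exists (R := fun (v : Fin n → HModel θ W) (x : HModel θ W) =>
    R (fun i => (v i).1) x.1) h
  refine this.congr fun v => ?_
  constructor
  · rintro ⟨x, hx⟩; exact ⟨x.1, x.2, hx⟩
  · rintro ⟨x, hx, hx'⟩; exact ⟨⟨x, hx⟩, hx'⟩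

/-- Unbounded universal quantification over `H(θ)`. -/
theorem allH {n : ℕ} {R : (Fin n → ZFSet.{u}) → ZFSet.{u} → Prop}
    (h : DefRel θ W fun w : Fin (n + 1) → ZFSet.{u} => R (fun i => w i.succ) (w 0)) :
    DefRel θ W fun v => ∀ x ∈ HSet θ, R v x :=
  (not (exH (R := fun v x => ¬ R v x) (not h))).congr fun v _ => by simp

/-- Bounded existential quantification. -/
theorem bex {n : ℕ} {i : Fin n} {R : (Fin n → ZFSet.{u}) → ZFSet.{u} → Prop}
    (h : DefRel θ W fun w : Fin (n + 1) → ZFSet.{u} => R (fun i => w i.succ) (w 0)) :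
    DefRel θ W fun v => ∃ x ∈ v i, R v x := by
  refine (exH (R := fun v x => x ∈ v i ∧ R v x) (and (mem 0 i.succ) h)).congr fun v hv => ?_
  constructor
  · rintro ⟨x, _, hx⟩; exact ⟨x, hx⟩
  · rintro ⟨x, hx, hx'⟩; exact ⟨x, HSet.mem (hv i) hx, hx, hx'⟩

/-- Bounded universal quantification. -/
theorem ball {n : ℕ} {i : Fin n} {R : (Fin n → ZFSet.{u}) → ZFSet.{u} → Prop}
    (h : DefRel θ W fun w : Fin (n + 1) → ZFSet.{u} => R (fun i => w i.succ) (w 0)) :
    DefRel θ W fun v => ∀ x ∈ v i, R v x :=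
  (not (bex (i := i) (R := fun v x => ¬ R v x) (not h))).congr fun v _ => by simp

theorem subset {n : ℕ} (i j : Fin n) : DefRel θ W fun v => v i ⊆ v j :=
  (ball (i := i) (R := fun v x => x ∈ v j) (mem _ _)).congr fun _ _ => Iff.rfl

theorem eqSingleton {n : ℕ} (i j : Fin n) : DefRel θ W fun v => v i = {v j} := by
  refine (and (mem j i) (ball (i := i) (R := fun v x => x = v j) (eq _ _))).congr fun v _ => ?_
  constructor
  · rintro ⟨h1, h2⟩; ext z; rw [ZFSet.mem_singleton]
    exact ⟨fun hz => h2 z hz, fun hz => hz ▸ h1⟩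
  · intro h; rw [h]; simp

theorem eqUPair {n : ℕ} (i j k : Fin n) : DefRel θ W fun v => v i = {v j, v k} := by
  refine (and (mem j i) (and (mem k i)
    (ball (i := i) (R := fun v x => x = v j ∨ x = v k) (or (eq _ _) (eq _ _))))).congr
    fun v _ => ?_
  constructor
  · rintro ⟨h1, h2, h3⟩; ext z; rw [ZFSet.mem_pair]
    refine ⟨fun hz => h3 z hz, ?_⟩
    rintro (hz | hz) <;> rw [hz] <;> assumption
  · intro h; rw [h]; simp

theorem eqPair {n : ℕ} (i j k : Fin n) : DefRel θ W fun v => v i = ZFSet.pair (v j) (v k) := by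
  refine (and (bex (i := i) (R := fun v x => x = {v j}) (eqSingleton _ _))
    (and (bex (i := i) (R := fun v x => x = {v j, v k}) (eqUPair _ _ _))
    (ball (i := i) (R := fun v x => x = {v j} ∨ x = {v j, v k})
      (or (eqSingleton _ _) (eqUPair _ _ _))))).congr fun v _ => ?_
  unfold ZFSet.pair
  constructor
  · rintro ⟨⟨x, hx, hx'⟩, ⟨y, hy, hy'⟩, h3⟩; ext z; rw [ZFSet.mem_pair]
    refine ⟨fun hz => h3 z hz, ?_⟩
    rintro (hz | hz)
    · rw [hz, ← hx']; exact hx
    · rw [hz, ← hy']; exact hy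
  · intro h; rw [h]; simp

theorem pairMem {n : ℕ} (i j k : Fin n) : DefRel θ W fun v => ZFSet.pair (v i) (v j) ∈ v k := by
  refine (bex (i := k) (R := fun v x => x = ZFSet.pair (v i) (v j)) (eqPair _ _ _)).congr
    fun v _ => ?_
  simp

theorem isEmpty {n : ℕ} (i : Fin n) : DefRel θ W fun v => v i = ∅ := by
  refine (ball (i := i) (R := fun v x => x ≠ x) (ne _ _)).congr fun v _ => ?_
  rw [ZFSet.eq_empty]; simp

theorem relabel {n m : ℕ} {R : (Fin n → ZFSet.{u}) → Prop} (h : DefRel θ W R)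
    (g : Fin n → Fin m) : DefRel θ W fun v : Fin m → ZFSet.{u} => R fun i => v (g i) :=
  DefH.relabel h g

end DefRel

/-! ### Elementarity -/

theorem SubH.mem_HSet (M : SubH θ W) {x : ZFSet.{u}} (h : x ∈ M.carrier) : x ∈ HSet θ := by
  obtain ⟨y, _, rfl⟩ := h
  exact y.2

theorem SubH.countable (M : SubH θ W) : M.carrier.Countable := by
  have : M.carrier = (fun y : HModel θ W => y.1) '' (M.1 : Set (HModel θ W)) := by
    ext x; rfl
  rw [this]
  exact M.2.image _

theorem SubH.exists_mem_of_defH (M : SubH θ W) {n : ℕ}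
    {R : (Fin n → HModel θ W) → HModel θ W → Prop}
    (h : DefH θ W fun w : Fin (n + 1) → HModel θ W => R (fun i => w i.succ) (w 0))
    (a : Fin n → HModel θ W) (ha : ∀ i, a i ∈ M.1) (hex : ∃ x, R a x) : ∃ x ∈ M.1, R a x := by
  obtain ⟨φ, hφ⟩ := h
  set g : Fin (n + 1) → Fin n ⊕ Fin 1 := Fin.cons (Sum.inr 0) (fun i => Sum.inl i) with hg
  set ψ : LSet.Formula (Fin n) := FirstOrder.Language.Formula.iExs (Fin 1)
    (FirstOrder.Language.Formula.relabel g φ) with hψ
  let a' : Fin n → M.1 := fun i => ⟨a i, ha i⟩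
  have e1 : ψ.Realize ((M.1.subtype : M.1 → HModel θ W) ∘ a') ↔ ψ.Realize a' :=
    M.1.subtype.map_formula ψ a'
  have e2 : ψ.Realize a := by
    rw [hψ, FirstOrder.Language.Formula.realize_iExs]
    obtain ⟨x, hx⟩ := hex
    refine ⟨fun _ => x, ?_⟩
    rw [FirstOrder.Language.Formula.realize_relabel, hφ]
    exact hx
  have e3 : ψ.Realize a' := e1.1 e2
  rw [hψ, FirstOrder.Language.Formula.realize_iExs] at e3
  obtain ⟨i, hi⟩ := e3
  rw [FirstOrder.Language.Formula.realize_relabel, ← M.1.subtype.map_formula φ, hφ] at hi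
  exact ⟨(i 0).1, (i 0).2, hi⟩

theorem SubH.exists_mem (M : SubH θ W) {n : ℕ}
    {R : (Fin n → ZFSet.{u}) → ZFSet.{u} → Prop}
    (h : DefRel θ W fun w : Fin (n + 1) → ZFSet.{u} => R (fun i => w i.succ) (w 0))
    (a : Fin n → ZFSet.{u}) (ha : ∀ i, a i ∈ M.carrier) (hex : ∃ x ∈ HSet θ, R a x) :
    ∃ x ∈ M.carrier, R a x := by
  choose b hb hb' using ha
  obtain ⟨x, hx, hx'⟩ := hex
  have hab : a = fun i => (b i).1 := funext fun i => (hb' i).symm
  obtain ⟨y, hy, hy'⟩ := M.exists_mem_of_defH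
    (R := fun (v : Fin n → HModel θ W) (x : HModel θ W) => R (fun i => (v i).1) x.1) h b hb
    ⟨⟨x, hx⟩, by rw [hab] at hx'; exact hx'⟩
  exact ⟨y.1, ⟨y, hy, rfl⟩, by rw [hab]; exact hy'⟩

/-- The least element of a definable nonempty class belongs to every elementary submodel. -/
theorem SubH.exists_least [IsWellOrder (HSet θ) W] {n : ℕ}
    {R : (Fin n → ZFSet.{u}) → ZFSet.{u} → Prop}
    (h : DefRel θ W fun w : Fin (n + 1) → ZFSet.{u} => R (fun i => w i.succ) (w 0))
    (a : Fin n → ZFSet.{u}) (hex : ∃ x ∈ HSet θ, R a x) :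
    ∃ x ∈ HSet θ, R a x ∧ ∀ M : SubH θ W, (∀ i, a i ∈ M.carrier) → x ∈ M.carrier := by
  obtain ⟨x₀, hx₀, hx₀'⟩ := hex
  have wf : WellFounded W := IsWellFounded.wf
  set S : Set (HSet θ) := {x | R a x.1} with hS
  have hne : S.Nonempty := ⟨⟨x₀, hx₀⟩, hx₀'⟩
  set m := wf.min S hne with hm
  have hmS : m ∈ S := wf.min_mem S hne
  have hmin : ∀ y ∈ S, ¬ W y m := fun y hy => wf.not_lt_min S hy
  refine ⟨m.1, m.2, hmS, fun M hM => ?_⟩
  choose b hb hb' using hM
  have hab : a = fun i => (b i).1 := funext fun i => (hb' i).symm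
  have hdef : DefH θ W fun w : Fin (n + 1) → HModel θ W =>
      R (fun i => (w i.succ).1) (w 0).1 ∧ ¬ ∃ y : HModel θ W, W y (w 0) ∧
        R (fun i => (w i.succ).1) y.1 := by
    refine DefH.and h (DefH.not ?_)
    refine DefH.exists (R := fun (w : Fin (n + 1) → HModel θ W) (y : HModel θ W) =>
      W y (w 0) ∧ R (fun i => (w i.succ).1) y.1) ?_
    refine DefH.and (DefH.wo 0 _) ?_
    have := DefH.relabel h (Fin.cons 0 (fun i => i.succ.succ) : Fin (n + 1) → Fin (n + 1 + 1))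
    refine this.congr fun v => ?_
    rfl
  obtain ⟨y, hy, hy1, hy2⟩ := M.exists_mem_of_defH
    (R := fun (v : Fin n → HModel θ W) (x : HModel θ W) => R (fun i => (v i).1) x.1 ∧
      ¬ ∃ y : HModel θ W, W y x ∧ R (fun i => (v i).1) y.1) hdef b hb
    ⟨m, by rw [← hab]; exact hmS, by
      rintro ⟨y, hy, hy'⟩
      rw [← hab] at hy'
      exact hmin y hy' hy⟩
  have e : y = m := by
    rw [← hab] at hy1 hy2
    by_contra hne'
    rcases trichotomous_of W y m with h1 | h1 | h1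
    · exact hmin y hy1 h1
    · exact hne' h1
    · exact hy2 ⟨m, h1, hmS⟩
  exact ⟨y, hy, by rw [e]⟩

end Pool.Agent.TransProp
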