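import Mathlib
import Pool.Agent.Work.MP_b7a9b7_lc.FO

/-!
Names: the action of automorphisms, simple names, existence of models.
-/

universe u v

open Cardinal Ordinal FirstOrder

namespace Pool.Agent.TransProp

variable {θ : Cardinal.{u}} {W : HSet θ → HSet θ → Prop}

theorem mem_act {h : ZFSet.{u} → ZFSet.{u}} {a z : ZFSet.{u}} :
    z ∈ act h a ↔ ∃ b p, ZFSet.pair b p ∈ a ∧ z = ZFSet.pair (act h b) (h p) := by
  rw [act, ZFSet.mem_range]
  constructor
  · rintro ⟨⟨⟨b, p⟩, hbp⟩, rfl⟩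
    exact ⟨b, p, hbp, rfl⟩
  · rintro ⟨b, p, hbp, rfl⟩
    exact ⟨⟨⟨b, p⟩, hbp⟩, rfl⟩

variable {D R o : ZFSet.{u}}

theorem IsAut.one (hP : IsForcing D R o) {h : ZFSet.{u} → ZFSet.{u}} (hh : IsAut D R h) :
    h o = o := by
  obtain ⟨p, hp, hp'⟩ := hh.bij.surjOn hP.one_mem
  have ho : h o ∈ D := hh.bij.mapsTo hP.one_mem
  refine hP.antisymm _ ho _ hP.one_mem (hP.le_one _ ho) ?_
  have := (hh.rel p hp o hP.one_mem).2 (hP.le_one p hp)
  rwa [hp'] at this

theorem mem_check {n : ℕ} {z : ZFSet.{u}} :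
    z ∈ check o n ↔ ∃ m < n, z = ZFSet.pair (check o m) o := by
  induction n with
  | zero => simp [check]
  | succ n ih =>
    rw [check, ZFSet.mem_insert_iff, ih]
    constructor
    · rintro (rfl | ⟨m, hm, rfl⟩)
      · exact ⟨n, Nat.lt_succ_self n, rfl⟩
      · exact ⟨m, hm.trans (Nat.lt_succ_self n), rfl⟩
    · rintro ⟨m, hm, rfl⟩
      rcases Nat.lt_succ_iff_lt_or_eq.1 hm with h | rfl
      · exact Or.inr ⟨m, h, rfl⟩
      · exact Or.inl rfl

theorem check_injective : Function.Injective (check o) := by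
  have key : ∀ m n : ℕ, m < n → check o m ≠ check o n := by
    intro m n hmn he
    have h1 : ZFSet.pair (check o m) o ∈ check o n := mem_check.2 ⟨m, hmn, rfl⟩
    have h2 := rank_lt_of_pair_mem h1
    rw [he] at h2
    exact lt_irrefl _ h2
  intro m n hmn
  rcases lt_trichotomy m n with h | h | h
  · exact absurd hmn (key m n h)
  · exact h
  · exact absurd hmn.symm (key n m h)

theorem act_check (hP : IsForcing D R o) {h : ZFSet.{u} → ZFSet.{u}} (hh : IsAut D R h) (n : ℕ) :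
    act h (check o n) = check o n := by
  induction n using Nat.strong_induction_on with
  | _ n ih =>
    ext z
    rw [mem_act, mem_check]
    constructor
    · rintro ⟨b, p, hbp, rfl⟩
      obtain ⟨m, hm, he⟩ := mem_check.1 hbp
      obtain ⟨rfl, rfl⟩ := ZFSet.pair_inj.1 he
      exact ⟨m, hm, by rw [ih m hm, hh.one hP]⟩
    · rintro ⟨m, hm, rfl⟩
      exact ⟨check o m, o, mem_check.2 ⟨m, hm, rfl⟩, by rw [ih m hm, hh.one hP]⟩

theorem mem_act_nice (hP : IsForcing D R o) {h : ZFSet.{u} → ZFSet.{u}} (hh : IsAut D R h)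
    {a z : ZFSet.{u}} (ha : ∀ z ∈ a, ∃ n : ℕ, ∃ p ∈ D, z = ZFSet.pair (check o n) p) :
    z ∈ act h a ↔ ∃ n : ℕ, ∃ p ∈ D, ZFSet.pair (check o n) p ∈ a ∧
      z = ZFSet.pair (check o n) (h p) := by
  rw [mem_act]
  constructor
  · rintro ⟨b, p, hbp, rfl⟩
    obtain ⟨n, p', hp', he⟩ := ha _ hbp
    obtain ⟨rfl, rfl⟩ := ZFSet.pair_inj.1 he
    exact ⟨n, p, hp', hbp, by rw [act_check hP hh]⟩
  · rintro ⟨n, p, _, hnp, rfl⟩
    exact ⟨_, _, hnp, by rw [act_check hP hh]⟩

theorem pair_mem_act_nice (hP : IsForcing D R o) {h : ZFSet.{u} → ZFSet.{u}} (hh : IsAut D R h)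
    {a p : ZFSet.{u}} (ha : ∀ z ∈ a, ∃ n : ℕ, ∃ p ∈ D, z = ZFSet.pair (check o n) p)
    (hp : p ∈ D) (n : ℕ) :
    ZFSet.pair (check o n) (h p) ∈ act h a ↔ ZFSet.pair (check o n) p ∈ a := by
  rw [mem_act_nice hP hh ha]
  constructor
  · rintro ⟨m, q, hq, hmq, he⟩
    obtain ⟨h1, h2⟩ := ZFSet.pair_inj.1 he
    have e1 : n = m := check_injective h1
    have e2 : p = q := hh.bij.injOn hp hq h2
    rw [e1, e2]; exact hmq
  · intro hnp
    exact ⟨n, p, hp, hnp, rfl⟩

theorem act_elems (hP : IsForcing D R o) {h : ZFSet.{u} → ZFSet.{u}} (hh : IsAut D R h)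
    {a : ZFSet.{u}} (ha : ∀ z ∈ a, ∃ n : ℕ, ∃ p ∈ D, z = ZFSet.pair (check o n) p) :
    ∀ z ∈ act h a, ∃ n : ℕ, ∃ p ∈ D, z = ZFSet.pair (check o n) p := by
  intro z hz
  obtain ⟨n, p, hp, _, rfl⟩ := (mem_act_nice hP hh ha).1 hz
  exact ⟨n, h p, hh.bij.mapsTo hp, rfl⟩

/-- The pattern of coincidences between two names. -/
def pat (D o a a' : ZFSet.{u}) : Set (ℕ × ℕ) :=
  {z | ∀ p ∈ D, (ZFSet.pair (check o z.1) p ∈ a ↔ ZFSet.pair (check o z.2) p ∈ a')}

theorem pat_act (hP : IsForcing D R o) {h : ZFSet.{u} → ZFSet.{u}} (hh : IsAut D R h)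
    {a a' : ZFSet.{u}} (ha : ∀ z ∈ a, ∃ n : ℕ, ∃ p ∈ D, z = ZFSet.pair (check o n) p)
    (ha' : ∀ z ∈ a', ∃ n : ℕ, ∃ p ∈ D, z = ZFSet.pair (check o n) p) :
    pat D o (act h a) (act h a') = pat D o a a' := by
  ext ⟨k, m⟩
  simp only [pat, Set.mem_ofPred_eq]
  constructor
  · intro H p hp
    have := H (h p) (hh.bij.mapsTo hp)
    rwa [pair_mem_act_nice hP hh ha hp, pair_mem_act_nice hP hh ha' hp] at this
  · intro H q hq
    obtain ⟨p, hp, rfl⟩ := hh.bij.surjOn hq
    have hp' : p ∈ D := hp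
    rw [pair_mem_act_nice hP hh ha hp', pair_mem_act_nice hP hh ha' hp']
    exact H p hp'

/-- The simple name `{(ň, b (f n)) : n ∈ ω}`. -/
noncomputable def simpleName {α : Type v} (o : ZFSet.{u}) (b : α → ZFSet.{u}) (f : ℕ → α) :
    ZFSet.{u} :=
  ZFSet.range fun n : ℕ => ZFSet.pair (check o n) (b (f n))

theorem pair_mem_simpleName {α : Type v} {b : α → ZFSet.{u}} {f : ℕ → α} {n : ℕ} {p : ZFSet.{u}} :
    ZFSet.pair (check o n) p ∈ simpleName o b f ↔ p = b (f n) := by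
  rw [simpleName, ZFSet.mem_range]
  constructor
  · rintro ⟨m, hm⟩
    obtain ⟨h1, h2⟩ := ZFSet.pair_inj.1 hm
    rw [← h2, check_injective h1]
  · rintro rfl; exact ⟨n, rfl⟩

theorem simpleName_elems {α : Type v} {b : α → ZFSet.{u}} (hb : ∀ i, b i ∈ D) {f : ℕ → α} :
    ∀ z ∈ simpleName o b f, ∃ n : ℕ, ∃ p ∈ D, z = ZFSet.pair (check o n) p := by
  intro z hz
  rw [simpleName, ZFSet.mem_range] at hz
  obtain ⟨m, rfl⟩ := hz
  exact ⟨m, _, hb _, rfl⟩

theorem simpleName_nice {α : Type v} {b : α → ZFSet.{u}} (hb : ∀ i, b i ∈ D) {f : ℕ → α} :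
    IsNiceName D R o (simpleName o b f) where
  elems := simpleName_elems hb
  anti n p q hp hq hpq := by
    rw [pair_mem_simpleName] at hp hq
    exact absurd (hp.trans hq.symm) hpq

theorem pat_simpleName {α : Type v} {b : α → ZFSet.{u}} (hb : ∀ i, b i ∈ D)
    (hinj : Function.Injective b) (f g : ℕ → α) :
    pat D o (simpleName o b f) (simpleName o b g) = {z | f z.1 = g z.2} := by
  ext ⟨k, m⟩
  simp only [pat, Set.mem_ofPred_eq, pair_mem_simpleName]
  constructor
  · intro H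
    exact hinj ((H _ (hb (f k))).1 rfl)
  · intro H p _
    rw [H]

/-! ### Existence of countable elementary submodels -/

theorem nat_mem_HSet (hθ : ℵ₀ ≤ θ) (n : ℕ) : (n : Ordinal.{u}).toZFSet ∈ HSet θ := by
  induction n using Nat.strong_induction_on with
  | _ n ih =>
    refine HSet.intro ?_ ?_
    · rw [Ordinal.card_toZFSet, Ordinal.card_nat]
      exact (Cardinal.natCast_lt_aleph0).trans_le hθ
    · intro y hy
      obtain ⟨a, ha, rfl⟩ := Ordinal.mem_toZFSet_iff.1 hy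
      obtain ⟨m, rfl⟩ := Ordinal.lt_omega0.1 (ha.trans (Ordinal.natCast_lt_omega0 n))
      exact ih m (by exact_mod_cast ha)

instance countable_LSet_symbols : Countable LSet.Symbols := by
  have h1 : Countable (Σ l, LSet.Functions l) := by
    have : ∀ l, IsEmpty (LSet.Functions l) := fun l => inferInstanceAs (IsEmpty Empty)
    infer_instance
  have h2 : Countable (Σ l, LSet.Relations l) := by
    have : ∀ l, Countable (LSet.Relations l) := by
      intro l
      have hsurj : Function.Injective (fun r : SetRel l => match l, r with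
        | _, .mem => true | _, .wo => false) := by
        intro r s h
        cases r <;> cases s <;> simp_all
      exact hsurj.countable
    infer_instance
  unfold FirstOrder.Language.Symbols
  infer_instance

theorem exists_SubH (hθ : ℵ₀ ≤ θ) (s : Set ZFSet.{u}) (hs : s.Countable) (hsθ : s ⊆ HSet θ) :
    ∃ M : SubH θ W, s ⊆ M.carrier := by
  set s' : Set (HModel θ W) := {x | x.1 ∈ s} with hs'
  have hc : s'.Countable := by
    have : s' = (Subtype.val : HSet θ → ZFSet.{u}) ⁻¹' s := rfl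
    rw [this]
    exact hs.preimage Subtype.val_injective
  have h4 : ℵ₀ ≤ #(HModel θ W) := by
    have hinj : Function.Injective
        (fun n : ℕ => (⟨(n : Ordinal.{u}).toZFSet, nat_mem_HSet hθ n⟩ : HModel θ W)) := by
      intro m n h
      have := Ordinal.toZFSet_injective (congrArg Subtype.val h)
      exact_mod_cast this
    have : Infinite (HModel θ W) := Infinite.of_injective _ hinj
    exact Cardinal.aleph0_le_mk _
  obtain ⟨S, hS, hS'⟩ := FirstOrder.Language.exists_elementarySubstructure_card_eq LSet s'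
    (ℵ₀ : Cardinal.{u + 1}) le_rfl (by simpa using hc) (by
      have : LSet.card ≤ ℵ₀ := Cardinal.mk_le_aleph0
      simpa using this) (by simpa using h4)
  refine ⟨⟨S, ?_⟩, ?_⟩
  · have : #S = ℵ₀ := by simpa using hS'
    exact Cardinal.mk_le_aleph0_iff.1 this.le
  · intro x hx
    exact ⟨⟨x, hsθ hx⟩, hS hx, rfl⟩

theorem SubH.pair_mem (M : SubH θ W) {x y : ZFSet.{u}} (hx : x ∈ M.carrier) (hy : y ∈ M.carrier)
    (hxy : ZFSet.pair x y ∈ HSet θ) : ZFSet.pair x y ∈ M.carrier := by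
  obtain ⟨z, hz, hz'⟩ := M.exists_mem (R := fun v z => z = ZFSet.pair (v 0) (v 1))
    (DefRel.eqPair _ _ _) ![x, y] (by
      intro i; fin_cases i
      · exact hx
      · exact hy) ⟨_, hxy, rfl⟩
  have : z = ZFSet.pair x y := hz'
  rwa [this] at hz

theorem SubH.value_mem (M : SubH θ W) {x y F : ZFSet.{u}} (hx : x ∈ M.carrier)
    (hF : F ∈ M.carrier) (hxy : ZFSet.pair x y ∈ F)
    (huniq : ∀ z, ZFSet.pair x z ∈ F → z = y) : y ∈ M.carrier := by
  have h1 : ZFSet.pair x y ∈ HSet θ := HSet.mem (M.mem_HSet hF) hxy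
  have h2 : ({x, y} : ZFSet.{u}) ∈ HSet θ := HSet.mem h1 (by simp [ZFSet.pair])
  have h3 : y ∈ HSet θ := HSet.mem h2 (by simp)
  obtain ⟨z, hz, hz'⟩ := M.exists_mem (R := fun v z => ZFSet.pair (v 0) z ∈ v 1)
    (DefRel.pairMem _ _ _) ![x, F] (by
      intro i; fin_cases i
      · exact hx
      · exact hF) ⟨_, h3, hxy⟩
  rwa [huniq z hz'] at hz

end Pool.Agent.TransProp
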