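import Mathlib

/-!
Elementary facts on ordinals below `ω₁`.
-/

universe u v

open Cardinal Ordinal

namespace Pool.Agent.TransProp

theorem countable_Iio {a : Ordinal.{u}} (h : a < Ordinal.omega 1) : (Set.Iio a).Countable := by
  rw [← Cardinal.le_aleph0_iff_set_countable, Cardinal.mk_Iio_ordinal, Cardinal.lift_le_aleph0,
    ← Cardinal.lt_aleph_one_iff] 
  rw [← Cardinal.ord_aleph, Cardinal.lt_ord] at h
  exact h

theorem countable_Iic {a : Ordinal.{u}} (h : a < Ordinal.omega 1) : (Set.Iic a).Countable := by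
  have : Set.Iic a = Set.Iio (Order.succ a) := by
    ext x; simp
  rw [this]
  refine countable_Iio ?_
  exact (Cardinal.isSuccLimit_omega 1).succ_lt h

theorem succ_lt_omega1 {a : Ordinal.{u}} (h : a < Ordinal.omega 1) :
    Order.succ a < Ordinal.omega 1 := (Cardinal.isSuccLimit_omega 1).succ_lt h

theorem exists_bound {S : Set Ordinal.{u}} (hS : S.Countable)
    (h : ∀ x ∈ S, x < Ordinal.omega 1) : ∃ ξ < Ordinal.omega.{u} 1, ∀ x ∈ S, x < ξ := by
  have : Countable S := hS.to_subtype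
  refine ⟨⨆ x : S, Order.succ x.1, Ordinal.iSup_lt_omega_one fun x => succ_lt_omega1 (h x.1 x.2),
    fun x hx => ?_⟩
  have hb : BddAbove (Set.range fun x : S => Order.succ x.1) := Ordinal.bddAbove_of_small
  exact (Order.lt_succ x).trans_le (le_ciSup (f := fun x : S => Order.succ x.1) hb ⟨x, hx⟩)

theorem exists_idx (CH : Cardinal.aleph.{0} 1 = Cardinal.continuum) (X : Type v)
    (hX : #X ≤ Cardinal.continuum) :
    ∃ idx : X → Ordinal.{u}, Function.Injective idx ∧ ∀ x, idx x < Ordinal.omega 1 := by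
  have h1 : Cardinal.lift.{u + 1, v} #X ≤
      Cardinal.lift.{v, u + 1} #(Set.Iio (Ordinal.omega.{u} 1)) := by
    rw [Cardinal.mk_Iio_ordinal, Ordinal.card_omega]
    have h2 : Cardinal.continuum.{v} = Cardinal.aleph 1 := by
      have := congrArg Cardinal.lift.{v, 0} CH
      simpa using this.symm
    have h3 : #X ≤ Cardinal.aleph 1 := hX.trans_eq h2
    have := Cardinal.lift_le.{u + 1, v}.2 h3
    simpa using this
  obtain ⟨e⟩ := Cardinal.lift_mk_le'.1 h1
  exact ⟨fun x => (e x).1, fun x y h => e.injective (Subtype.ext h), fun x => (e x).2⟩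

theorem exists_idx_nat (CH : Cardinal.aleph.{0} 1 = Cardinal.continuum) :
    ∃ idx : Set (ℕ × ℕ) → Ordinal.{u}, Function.Injective idx ∧ ∀ x, idx x < Ordinal.omega 1 :=
  exists_idx CH _ (by simp)

theorem exists_surj_Iio {a : Ordinal.{u}} (h : a < Ordinal.omega 1) (h0 : a ≠ 0) :
    ∃ s : ℕ → Ordinal.{u}, (∀ n, s n < a) ∧ ∀ b < a, ∃ n, s n = b := by
  have hne : (Set.Iio a).Nonempty := ⟨0, pos_iff_ne_zero.2 h0⟩
  obtain ⟨s, hs⟩ := (countable_Iio h).exists_eq_range hne
  refine ⟨s, fun n => ?_, fun b hb => ?_⟩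
  · have : s n ∈ Set.Iio a := by rw [hs]; exact ⟨n, rfl⟩
    exact this
  · have : b ∈ Set.Iio a := hb
    rw [hs] at this
    exact this

theorem exists_not_mem_of_countable {S : Set Ordinal.{u}} (hS : S.Countable) :
    ∃ a < Ordinal.omega.{u} 1, a ∉ S := by
  by_contra H
  push Not at H
  have h1 : (Set.Iio (Ordinal.omega.{u} 1)).Countable := hS.mono fun a ha => H a ha
  rw [← Cardinal.le_aleph0_iff_set_countable, Cardinal.mk_Iio_ordinal,
    Cardinal.lift_le_aleph0, Ordinal.card_omega] at h1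
  exact absurd h1 (not_le.2 (Cardinal.aleph0_lt_aleph_one))

end Pool.Agent.TransProp
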