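import Mathlib
import Pool.Agent.Work.MP_b7a9b7_lc.Names
import Pool.Agent.Work.MP_b7a9b7_lc.Omega1

/-!
The transformation property (already for two models) bounds patterns.
-/

universe u v

open Cardinal Ordinal FirstOrder

namespace Pool.Agent.TransProp

/-- The set of all sets of pairs `(ň, p)`. -/
noncomputable def nameSpace (D o : ZFSet.{u}) : ZFSet.{u} :=
  ZFSet.powerset (ZFSet.prod (ZFSet.range fun n : ℕ => check o n) D)

theorem mem_nameSpace {D o a : ZFSet.{u}} :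
    a ∈ nameSpace D o ↔ ∀ z ∈ a, ∃ n : ℕ, ∃ p ∈ D, z = ZFSet.pair (check o n) p := by
  rw [nameSpace, ZFSet.mem_powerset]
  constructor
  · intro h z hz
    obtain ⟨x, hx, p, hp, rfl⟩ := ZFSet.mem_prod.1 (h hz)
    obtain ⟨n, rfl⟩ := ZFSet.mem_range.1 hx
    exact ⟨n, p, hp, rfl⟩
  · intro h z hz
    obtain ⟨n, p, hp, rfl⟩ := h z hz
    exact ZFSet.mem_prod.2 ⟨_, ZFSet.mem_range.2 ⟨n, rfl⟩, p, hp, rfl⟩

/-- The graph of a function of two variables, restricted to a set. -/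
noncomputable def graph₂ (N : ZFSet.{u}) (F : ZFSet.{u} → ZFSet.{u} → ZFSet.{u}) : ZFSet.{u} :=
  ZFSet.range fun z : Shrink.{u} N × Shrink.{u} N =>
    ZFSet.pair (ZFSet.pair ((equivShrink N).symm z.1).1 ((equivShrink N).symm z.2).1)
      (F ((equivShrink N).symm z.1).1 ((equivShrink N).symm z.2).1)

theorem pair_mem_graph₂ {N : ZFSet.{u}} {F : ZFSet.{u} → ZFSet.{u} → ZFSet.{u}}
    {a b y : ZFSet.{u}} : ZFSet.pair (ZFSet.pair a b) y ∈ graph₂ N F ↔
      a ∈ N ∧ b ∈ N ∧ y = F a b := by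
  rw [graph₂, ZFSet.mem_range]
  constructor
  · rintro ⟨⟨s, t⟩, h⟩
    obtain ⟨h1, h2⟩ := ZFSet.pair_inj.1 h
    obtain ⟨h3, h4⟩ := ZFSet.pair_inj.1 h1
    subst h3 h4
    exact ⟨((equivShrink N).symm s).2, ((equivShrink N).symm t).2, h2.symm⟩
  · rintro ⟨ha, hb, rfl⟩
    exact ⟨⟨equivShrink N ⟨a, ha⟩, equivShrink N ⟨b, hb⟩⟩, by simp⟩

/-- A sequence of maps enumerating the nonzero countable ordinals. -/
theorem exists_surj_family : ∃ s : ZFSet.{u} → ZFSet.{u} → ZFSet.{u},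
    ∀ a b : Ordinal.{u}, a < Ordinal.omega 1 → b < a →
      ∃ n : ℕ, s a.toZFSet (n : Ordinal.{u}).toZFSet = b.toZFSet := by
  have h : ∀ a : Ordinal.{u}, ∃ s : ℕ → Ordinal.{u}, a < Ordinal.omega 1 → a ≠ 0 →
      ∀ b < a, ∃ n, s n = b := by
    intro a
    by_cases h1 : a < Ordinal.omega 1
    · by_cases h2 : a ≠ 0
      · obtain ⟨s, _, hs⟩ := exists_surj_Iio h1 h2
        exact ⟨s, fun _ _ => hs⟩
      · exact ⟨fun _ => 0, fun _ h => absurd h h2⟩
    · exact ⟨fun _ => 0, fun h => absurd h h1⟩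
  choose s hs using h
  have hex : ∀ x : ZFSet.{u}, ∃ a : Ordinal.{u}, x = x → ∀ b : Ordinal.{u}, x = b.toZFSet → a = b := by
    intro x
    by_cases hx : ∃ b : Ordinal.{u}, x = b.toZFSet
    · obtain ⟨b, hb⟩ := hx
      exact ⟨b, fun _ c hc => Ordinal.toZFSet_injective (hb.symm.trans hc)⟩
    · exact ⟨0, fun _ c hc => absurd ⟨c, hc⟩ hx⟩
  choose r hr using hex
  have hexn : ∀ x : ZFSet.{u}, ∃ n : ℕ, ∀ m : ℕ, x = (m : Ordinal.{u}).toZFSet → n = m := by
    intro x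
    by_cases hx : ∃ m : ℕ, x = (m : Ordinal.{u}).toZFSet
    · obtain ⟨m, hm⟩ := hx
      refine ⟨m, fun k hk => ?_⟩
      have := Ordinal.toZFSet_injective (hm.symm.trans hk)
      exact_mod_cast this
    · exact ⟨0, fun c hc => absurd ⟨c, hc⟩ hx⟩
  choose rn hrn using hexn
  refine ⟨fun x y => (s (r x) (rn y)).toZFSet, fun a b ha hb => ?_⟩
  obtain ⟨n, hn⟩ := hs a ha (ne_zero_of_lt hb) b hb
  refine ⟨n, ?_⟩
  have e1 : r a.toZFSet = a := hr _ rfl a rfl
  have e2 : rn (n : Ordinal.{u}).toZFSet = n := hrn _ n rfl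
  simp only [e1, e2, hn]

theorem exists_HSet_of_finset (s : Finset ZFSet.{u}) :
    ∃ θ₀ : Cardinal.{u}, ∀ θ ≥ θ₀, ∀ x ∈ s, x ∈ HSet θ := by
  classical
  induction s using Finset.induction_on with
  | empty => exact ⟨0, by simp⟩
  | insert a s _ ih =>
    obtain ⟨θ₁, h₁⟩ := ih
    obtain ⟨θ₂, h₂⟩ := exists_forall_mem_HSet a
    refine ⟨max θ₁ θ₂, fun θ hθ x hx => ?_⟩
    rcases Finset.mem_insert.1 hx with rfl | hx
    · exact h₂ θ ((le_max_right _ _).trans hθ)
    · exact h₁ θ ((le_max_left _ _).trans hθ) x hx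

/-- The transformation property for two models bounds the patterns of pairs of functions. -/
theorem exists_rank_of_TPAt (idx : Set (ℕ × ℕ) → Ordinal.{u})
    (hidx : ∀ x, idx x < Ordinal.omega 1)
    {D R o : ZFSet.{u}} (hP : IsForcing D R o) {α : Type v} {b : α → ZFSet.{u}}
    (hb : ∀ i, b i ∈ D) (hinj : Function.Injective b) :
    ∃ θ₀ : Cardinal.{u}, ∀ θ ≥ θ₀, ∀ W : HSet θ → HSet θ → Prop, TPAt θ W D R o →
      ∃ Φ : (ℕ → α) → Ordinal.{u}, (∀ f, Φ f < Ordinal.omega 1) ∧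
        ∀ f g, Φ f ≤ Φ g → idx {z | f z.1 = g z.2} < Φ g := by
  classical
  obtain ⟨s, hs⟩ := exists_surj_family.{u}
  set N := nameSpace D o with hN
  set O : ZFSet.{u} := (Ordinal.omega.{u} 1).toZFSet with hO
  set T := graph₂ N (fun a a' => (idx (pat D o a a')).toZFSet) with hT
  set S := graph₂ O s with hS
  obtain ⟨θ₀, hθ₀⟩ := exists_HSet_of_finset.{u} {ZFSet.pair D R, T, S, N}
  refine ⟨max θ₀ ℵ₀, fun θ hθ W hTP => ?_⟩
  have hθa : ℵ₀ ≤ θ := (le_max_right _ _).trans hθ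
  have hH := hθ₀ θ ((le_max_left _ _).trans hθ)
  have hPH : ZFSet.pair D R ∈ HSet θ := hH _ (by simp)
  have hTH : T ∈ HSet θ := hH _ (by simp)
  have hSH : S ∈ HSet θ := hH _ (by simp)
  have hNH : N ∈ HSet θ := hH _ (by simp)
  have hname : ∀ f : ℕ → α, simpleName o b f ∈ N := fun f =>
    mem_nameSpace.2 (simpleName_elems hb)
  -- the models
  have hM : ∀ f : ℕ → α, ∃ M : SubH θ W, ZFSet.pair D R ∈ M.carrier ∧ T ∈ M.carrier ∧
      S ∈ M.carrier ∧ simpleName o b f ∈ M.carrier ∧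
      ∀ n : ℕ, (n : Ordinal.{u}).toZFSet ∈ M.carrier := by
    intro f
    obtain ⟨M, hM⟩ := exists_SubH (W := W) hθa
      (({ZFSet.pair D R, T, S, simpleName o b f} : Set ZFSet.{u}) ∪
        Set.range fun n : ℕ => (n : Ordinal.{u}).toZFSet)
      (Set.Countable.union (by simp) (Set.countable_range _)) (by
        rintro x (hx | ⟨n, rfl⟩)
        · simp only [Set.mem_insert_iff, Set.mem_singleton_iff] at hx
          rcases hx with rfl | rfl | rfl | rfl
          · exact hPH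
          · exact hTH
          · exact hSH
          · exact HSet.mem hNH (hname f)
        · exact nat_mem_HSet hθa n)
    exact ⟨M, hM (by simp), hM (by simp), hM (by simp), hM (by simp), fun n =>
      hM (Or.inr ⟨n, rfl⟩)⟩
  choose M hM1 hM2 hM3 hM4 hM5 using hM
  -- initial segment property
  have hinit : ∀ f (a c : Ordinal.{u}), a < Ordinal.omega 1 → c < a →
      a.toZFSet ∈ (M f).carrier → c.toZFSet ∈ (M f).carrier := by
    intro f a c ha hc haM
    obtain ⟨n, hn⟩ := hs a c ha hc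
    have h1 : ZFSet.pair (ZFSet.pair a.toZFSet (n : Ordinal.{u}).toZFSet) c.toZFSet ∈ S := by
      rw [hS, pair_mem_graph₂]
      refine ⟨Ordinal.toZFSet_mem_toZFSet_iff.2 ha, Ordinal.toZFSet_mem_toZFSet_iff.2 ?_, hn.symm⟩
      exact (Ordinal.natCast_lt_omega0 n).trans Ordinal.omega0_lt_omega_one
    have h2 : ZFSet.pair a.toZFSet (n : Ordinal.{u}).toZFSet ∈ HSet θ :=
      HSet.mem (HSet.mem (HSet.mem hSH h1) (by unfold ZFSet.pair; exact ZFSet.mem_pair.2 (Or.inl rfl)))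
        (ZFSet.mem_singleton.2 rfl)
    refine (M f).value_mem ((M f).pair_mem haM (hM5 f n) h2) (hM3 f) h1 ?_
    intro z hz
    rw [hS, pair_mem_graph₂] at hz
    rw [hz.2.2, hn]
  -- the rank
  have hex : ∀ f, ∃ a < Ordinal.omega.{u} 1, a.toZFSet ∉ (M f).carrier := by
    intro f
    exact exists_not_mem_of_countable (S := {a : Ordinal.{u} | a.toZFSet ∈ (M f).carrier})
      ((M f).countable.preimage Ordinal.toZFSet_injective)
  set Φ : (ℕ → α) → Ordinal.{u} := fun f => sInf {a | a.toZFSet ∉ (M f).carrier} with hΦ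
  have hΦ1 : ∀ f, (Φ f).toZFSet ∉ (M f).carrier := by
    intro f
    obtain ⟨a, _, ha⟩ := hex f
    exact csInf_mem (s := {a : Ordinal.{u} | a.toZFSet ∉ (M f).carrier}) ⟨a, ha⟩
  have hΦ2 : ∀ f, Φ f < Ordinal.omega 1 := by
    intro f
    obtain ⟨a, ha, ha'⟩ := hex f
    exact (csInf_le' (s := {a : Ordinal.{u} | a.toZFSet ∉ (M f).carrier}) ha').trans_lt ha
  have hΦ3 : ∀ f a, a < Φ f → a.toZFSet ∈ (M f).carrier := by
    intro f a ha
    by_contra h
    exact absurd (csInf_le' (s := {a : Ordinal.{u} | a.toZFSet ∉ (M f).carrier}) h)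
      (not_le.2 ha)
  have hΦ4 : ∀ f a, a < Ordinal.omega 1 → a.toZFSet ∈ (M f).carrier → a < Φ f := by
    intro f a ha haM
    by_contra h
    rw [not_lt] at h
    rcases h.eq_or_lt with h | h
    · exact hΦ1 f (h ▸ haM)
    · exact hΦ1 f (hinit f a _ ha h haM)
  refine ⟨Φ, hΦ2, fun f g hfg => ?_⟩
  obtain ⟨h, hh, h1, h2⟩ := hTP 1 ![M f, M g] ![simpleName o b f, simpleName o b g]
    (by intro i; fin_cases i; exacts [hM1 f, hM1 g])
    (by
      intro i
      fin_cases i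
      rintro x ⟨hx1, hx2⟩
      obtain ⟨a, ha, rfl⟩ := Ordinal.mem_toZFSet_iff.1 hx2
      exact ⟨hΦ3 g a ((hΦ4 f a ha hx1).trans_le hfg), hx2⟩)
    (by intro i; fin_cases i; exacts [⟨simpleName_nice hb, hM4 f⟩, ⟨simpleName_nice hb, hM4 g⟩])
  have h1' : act h (simpleName o b f) ∈ (M g).carrier := h1 0
  have h2' : act h (simpleName o b g) = simpleName o b g := h2
  have hact : act h (simpleName o b f) ∈ N :=
    mem_nameSpace.2 (act_elems hP hh (simpleName_elems hb))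
  have hval : pat D o (act h (simpleName o b f)) (simpleName o b g) = {z | f z.1 = g z.2} := by
    rw [← h2', pat_act hP hh (simpleName_elems hb) (simpleName_elems hb),
      pat_simpleName hb hinj]
  have h3 : ZFSet.pair (ZFSet.pair (act h (simpleName o b f)) (simpleName o b g))
      (idx {z | f z.1 = g z.2}).toZFSet ∈ T := by
    rw [hT, pair_mem_graph₂]
    exact ⟨hact, hname g, by rw [hval]⟩
  have h4 : ZFSet.pair (act h (simpleName o b f)) (simpleName o b g) ∈ HSet θ :=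
    HSet.mem (HSet.mem (HSet.mem hTH h3) (by unfold ZFSet.pair; exact ZFSet.mem_pair.2 (Or.inl rfl)))
        (ZFSet.mem_singleton.2 rfl)
  refine hΦ4 g _ (hidx _) ((M g).value_mem ((M g).pair_mem h1' (hM4 g) h4) (hM2 g) h3 ?_)
  intro z hz
  rw [hT, pair_mem_graph₂] at hz
  rw [hz.2.2, hval]

end Pool.Agent.TransProp
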