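import Mathlib
import Pool.Agent.Work.MP_b7a9b7_lc.Neg

/-!
Chang's conjecture for `ℵ_ω` contradicts the bounded pattern principle.
-/

universe u v

open Cardinal Ordinal FirstOrder

namespace Pool.Agent.TransProp

/-- The language with countably many unary function symbols. -/
def LUn : FirstOrder.Language.{0, 0} := ⟨fun n => if n = 1 then ℕ else Empty, fun _ => Empty⟩

/-- The unary function symbols. -/
def unSym (n : ℕ) : LUn.Functions 1 := n

instance countable_LUn_symbols : Countable LUn.Symbols := by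
  have h1 : Countable (Σ l, LUn.Functions l) := by
    have : ∀ l, Countable (LUn.Functions l) := by
      intro l
      by_cases h : l = 1
      · have : LUn.Functions l = ℕ := by simp [LUn, h]
        rw [this]; infer_instance
      · have : LUn.Functions l = Empty := by simp [LUn, h]
        rw [this]; infer_instance
    infer_instance
  have h2 : Countable (Σ l, LUn.Relations l) := by
    have : ∀ l, IsEmpty (LUn.Relations l) := fun l => inferInstanceAs (IsEmpty Empty)
    infer_instance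
  unfold FirstOrder.Language.Symbols
  infer_instance

/-- The structure given by a sequence of unary functions. -/
@[implicit_reducible]
def unStr {X : Type u} (F : ℕ → X → X) : LUn.Structure X where
  funMap := fun {n} s v =>
    if h : n = 1 then F (cast (by simp [LUn, h]) s) (v ⟨0, by omega⟩) else
      Empty.elim (cast (by simp [LUn, h]) s)
  RelMap := fun {_} r => Empty.elim r

/-- Chang's conjecture in algebraic form. -/
theorem Chang.closed {κ₁ κ₀ : Cardinal.{u}} (h : Chang κ₁ κ₀) (X : Type u) (U : Set X)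
    (h1 : #X = κ₁) (h0 : #U = κ₀) (F : ℕ → X → X) :
    ∃ S : Set X, #S = Cardinal.aleph 1 ∧ (S ∩ U).Countable ∧ ∀ n, ∀ x ∈ S, F n x ∈ S := by
  let _ := unStr F
  obtain ⟨S, hS, hS'⟩ := h LUn X U h1 h0
  refine ⟨S, hS, ?_, fun n x hx => ?_⟩
  · rw [← Cardinal.le_aleph0_iff_set_countable]
    exact hS'.le
  · have := S.toSubstructure.fun_mem (unSym n) (fun _ => x) (fun _ => hx)
    exact this

theorem aleph_omega_succ_le_power :
    Cardinal.aleph.{u} (Ordinal.omega0 + 1) ≤ Cardinal.aleph Ordinal.omega0 ^ Cardinal.aleph0 := by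
  rw [← Cardinal.succ_aleph, Order.succ_le_iff]
  have h := @Cardinal.lt_power_cof_ord (Cardinal.aleph.{u} Ordinal.omega0)
    (Cardinal.aleph0_le_aleph _)
  rwa [Cardinal.ord_aleph, Ordinal.cof_omega Ordinal.isSuccLimit_omega0, Ordinal.cof_omega0] at h

/-- A rank function bounding the patterns contradicts Chang's conjecture. -/
theorem no_rank_of_Chang
    (hC : Chang.{u} (Cardinal.aleph (Ordinal.omega0 + 1)) (Cardinal.aleph Ordinal.omega0))
    (idx : Set (ℕ × ℕ) → Ordinal.{u}) (hinj : Function.Injective idx)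
    {α : Type v} {Y : Type u} (hYc : #Y = Cardinal.aleph.{u} Ordinal.omega0) (e : Y → α)
    (he : Function.Injective e)
    (Φ : (ℕ → α) → Ordinal.{u}) (hΦ : ∀ f, Φ f < Ordinal.omega 1)
    (h : ∀ f g, Φ f ≤ Φ g → idx {z | f z.1 = g z.2} < Φ g) : False := by
  classical
  set X : Type u := (Cardinal.aleph.{u} (Ordinal.omega0 + 1)).ord.ToType with hX
  have hXc : #X = Cardinal.aleph (Ordinal.omega0 + 1) := Cardinal.mk_ord_toType _
  -- `Y` embeds in `X`
  have hYX : #Y ≤ #X := by
    rw [hXc, hYc]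
    exact Cardinal.aleph_le_aleph.2 (Order.le_succ Ordinal.omega0)
  obtain ⟨i⟩ : Nonempty (Y ↪ X) := hYX
  set U : Set X := Set.range i with hU
  have hUc : #U = Cardinal.aleph Ordinal.omega0 := by
    rw [hU, Cardinal.mk_range_eq _ i.injective, hYc]
  -- injection of `X` into `ℕ → Y`
  obtain ⟨F⟩ : Nonempty (X ↪ (ℕ → Y)) := by
    have : #X ≤ #(ℕ → Y) := by
      rw [hXc]
      have := aleph_omega_succ_le_power.{u}
      simpa [hYc] using this
    exact this
  -- injection of the countable ordinals into `Y`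
  obtain ⟨j⟩ : Nonempty (Set.Iio (Ordinal.omega.{u} 1) ↪ Y) := by
    rw [← Cardinal.lift_mk_le', Cardinal.mk_Iio_ordinal, Ordinal.card_omega, hYc]
    simp only [Cardinal.lift_lift]
    have h1 : Cardinal.aleph.{u} 1 ≤ Cardinal.aleph Ordinal.omega0 :=
      Cardinal.aleph_le_aleph.2 (by
        have := Ordinal.natCast_lt_omega0 1
        exact_mod_cast this.le)
    have := Cardinal.lift_le.{u + 1}.2 h1
    simpa using this
  -- the functions
  let f : X → ℕ → α := fun x n => e (F x n)
  have hfinj : Function.Injective f := by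
    intro x y hxy
    apply F.injective
    funext n
    exact he (congrFun hxy n)
  obtain ⟨S, hS1, hS2, hS3⟩ := hC.closed X U hXc hUc (fun n x =>
    match n with
    | 0 => i (j ⟨Φ (f x), hΦ _⟩)
    | n + 1 => i (F x n))
  have hSne : S.Nonempty := by
    rw [Set.nonempty_iff_ne_empty]
    rintro rfl
    have : (Cardinal.aleph.{u} 1) = 0 := by rw [← hS1]; simp
    exact absurd this (Cardinal.aleph_pos 1).ne'
  -- the countable set of values
  set Q : Set Y := {y | i y ∈ S} with hQ
  have hQc : Q.Countable := by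
    have : Q = i ⁻¹' (S ∩ U) := by
      ext y; simp [hQ, hU]
    rw [this]
    exact hS2.preimage i.injective
  have hQ1 : ∀ x ∈ S, j ⟨Φ (f x), hΦ _⟩ ∈ Q := fun x hx => hS3 0 x hx
  have hQ2 : ∀ x ∈ S, ∀ n, F x n ∈ Q := fun x hx n => hS3 (n + 1) x hx
  obtain ⟨x₀, hx₀⟩ := hSne
  obtain ⟨ξ, hξ, hξ'⟩ := exists_bound (S := {a : Ordinal.{u} | ∃ x ∈ S, Φ (f x) = a}) (by
    have : {a : Ordinal.{u} | ∃ x ∈ S, Φ (f x) = a} ⊆
        (fun z : Set.Iio (Ordinal.omega.{u} 1) => z.1) '' (j ⁻¹' Q) := by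
      rintro a ⟨x, hx, rfl⟩
      exact ⟨⟨Φ (f x), hΦ _⟩, hQ1 x hx, rfl⟩
    exact ((hQc.preimage j.injective).image _).mono this) (by
    rintro a ⟨x, _, rfl⟩; exact hΦ _)
  obtain ⟨g₀, hg₀⟩ := hQc.exists_eq_range ⟨_, hQ2 x₀ hx₀ 0⟩
  let g : ℕ → α := fun n => e (g₀ n)
  -- the patterns
  let p : X → Set (ℕ × ℕ) := fun x => {z | f x z.1 = g z.2}
  have hpc : (p '' S).Countable := by
    have hsub : p '' S ⊆ (idx ⁻¹' Set.Iio (Φ g)) ∪
        (fun A : Set (ℕ × ℕ) => Prod.swap ⁻¹' A) '' (idx ⁻¹' Set.Iio ξ) := by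
      rintro A ⟨x, hx, rfl⟩
      rcases le_total (Φ (f x)) (Φ g) with hle | hle
      · exact Or.inl (h _ _ hle)
      · refine Or.inr ⟨{z | g z.1 = f x z.2}, ?_, ?_⟩
        · exact (h _ _ hle).trans (hξ' _ ⟨x, hx, rfl⟩)
        · ext ⟨k, m⟩
          exact eq_comm
    refine Set.Countable.mono hsub (Set.Countable.union ?_ (Set.Countable.image ?_ _))
    · exact (countable_Iio (hΦ g)).preimage hinj
    · exact (countable_Iio hξ).preimage hinj
  have hpinj : Set.InjOn p S := by
    intro x hx y hy hxy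
    apply hfinj
    funext k
    have hk : F x k ∈ Set.range g₀ := hg₀ ▸ hQ2 x hx k
    obtain ⟨m, hm⟩ := hk
    have h1 : (k, m) ∈ p x := by
      show e (F x k) = e (g₀ m)
      rw [hm]
    have h2 : (k, m) ∈ p y := hxy ▸ h1
    exact (show f x k = g m from h1).trans (show f y k = g m from h2).symm
  have hSc : S.Countable := (Set.countable_of_injective_of_countable_image hpinj hpc)
  rw [← Cardinal.le_aleph0_iff_set_countable, hS1] at hSc
  exact absurd hSc (not_le.2 Cardinal.aleph0_lt_aleph_one)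

/-- Under `CH` and Chang's conjecture for `ℵ_ω`, the transformation property fails for every
forcing notion with at least `ℵ_ω` conditions. -/
theorem not_TPAt_of_Chang (CH : Cardinal.aleph.{0} 1 = Cardinal.continuum)
    (hC : Chang.{u} (Cardinal.aleph (Ordinal.omega0 + 1)) (Cardinal.aleph Ordinal.omega0))
    {D R o : ZFSet.{u}} (hP : IsForcing D R o)
    (hD : Cardinal.aleph Ordinal.omega0 ≤ D.card) :
    ∃ θ₀ : Cardinal.{u}, ∀ θ ≥ θ₀, ∀ W : HSet θ → HSet θ → Prop, ¬ TPAt θ W D R o := by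
  obtain ⟨idx, hinj, hidx⟩ := exists_idx_nat.{u} CH
  have hemb : Nonempty ((Cardinal.aleph.{u} Ordinal.omega0).ord.ToType ↪ D) := by
    rw [← Cardinal.lift_mk_le', ZFSet.cardinalMk_coe_sort, Cardinal.mk_ord_toType]
    have := Cardinal.lift_le.{u + 1}.2 hD
    simpa using this
  obtain ⟨e⟩ := hemb
  obtain ⟨θ₀, h₀⟩ := exists_rank_of_TPAt idx hidx hP (α := D) (b := fun x => x.1)
    (fun x => x.2) Subtype.val_injective
  refine ⟨θ₀, fun θ hθ W hTP => ?_⟩
  obtain ⟨Φ, hΦ, h⟩ := h₀ θ hθ W hTP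
  exact no_rank_of_Chang hC idx hinj (Cardinal.mk_ord_toType _) e e.injective Φ hΦ h

end Pool.Agent.TransProp
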