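import Mathlib
import Pool.Agent.Work.MP_b7a9b7_lc.Neg

/-!
First-order definitions over `H(θ)` of the notions used in the positive direction.
-/

universe u v

open Cardinal Ordinal

namespace Pool.Agent.TransProp

variable {θ : Cardinal.{u}} {W : HSet θ → HSet θ → Prop}

/-! ### Predicates on sets (all quantifiers bounded or ranging over `H(θ)`) -/

/-- `y = x ∪ {u}`. -/
def InsP (y u x : ZFSet.{u}) : Prop := (∀ z ∈ y, z = u ∨ z ∈ x) ∧ u ∈ y ∧ ∀ z ∈ x, z ∈ y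

theorem insP_iff {y u x : ZFSet.{u}} : InsP y u x ↔ y = insert u x := by
  constructor
  · rintro ⟨h1, h2, h3⟩
    ext z
    rw [ZFSet.mem_insert_iff]
    exact ⟨h1 z, fun h => h.elim (fun h => h ▸ h2) (h3 z)⟩
  · rintro rfl
    exact ⟨fun z hz => ZFSet.mem_insert_iff.1 hz, ZFSet.mem_insert _ _,
      fun z hz => ZFSet.mem_insert_of_mem _ hz⟩

theorem DefRel.insP {n : ℕ} (i j k : Fin n) : DefRel θ W fun v => InsP (v i) (v j) (v k) := by
  unfold InsP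
  refine DefRel.and (DefRel.ball ?_) (DefRel.and (DefRel.mem _ _) (DefRel.ball ?_))
  · exact DefRel.or (DefRel.eq _ _) (DefRel.mem _ _)
  · exact DefRel.mem _ _

theorem DefRel.eqInsert {n : ℕ} (i j k : Fin n) :
    DefRel θ W fun v => v i = insert (v j) (v k) :=
  (DefRel.insP i j k).congr fun _ _ => insP_iff

/-- The set `ω` of natural numbers. -/
noncomputable def omegaZ : ZFSet.{u} := ZFSet.range fun n : ℕ => (n : Ordinal.{u}).toZFSet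

/-- The set of canonical names of natural numbers. -/
noncomputable def omegaC (o : ZFSet.{u}) : ZFSet.{u} := ZFSet.range fun n : ℕ => check o n

theorem mem_omegaZ {x : ZFSet.{u}} : x ∈ omegaZ ↔ ∃ n : ℕ, (n : Ordinal.{u}).toZFSet = x := by
  rw [omegaZ, ZFSet.mem_range]

theorem mem_omegaC {o x : ZFSet.{u}} : x ∈ omegaC o ↔ ∃ n : ℕ, check o n = x := by
  rw [omegaC, ZFSet.mem_range]

/-- `x` contains `∅` and is closed under successor. -/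
def IndP (x : ZFSet.{u}) : Prop := (∃ e ∈ x, e = ∅) ∧ ∀ y ∈ x, ∃ z ∈ x, z = insert y y

/-- `x` contains `∅` and is closed under `y ↦ y ∪ {(y, o)}`. -/
def IndC (o x : ZFSet.{u}) : Prop :=
  (∃ e ∈ x, e = ∅) ∧ ∀ y ∈ x, ∃ z ∈ x, ∃ w ∈ z, w = ZFSet.pair y o ∧ z = insert w y

theorem DefRel.indP {n : ℕ} (i : Fin n) : DefRel θ W fun v => IndP (v i) := by
  unfold IndP
  exact DefRel.and (DefRel.bex (DefRel.isEmpty _)) (DefRel.ball (DefRel.bex (DefRel.eqInsert _ _ _)))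

theorem DefRel.indC {n : ℕ} (i j : Fin n) : DefRel θ W fun v => IndC (v i) (v j) := by
  unfold IndC
  exact DefRel.and (DefRel.bex (DefRel.isEmpty _)) (DefRel.ball (DefRel.bex (DefRel.bex
    (DefRel.and (DefRel.eqPair _ _ _) (DefRel.eqInsert _ _ _)))))

theorem omegaZ_subset {x : ZFSet.{u}} (h : IndP x) : omegaZ ⊆ x := by
  intro z hz
  obtain ⟨n, rfl⟩ := mem_omegaZ.1 hz
  clear hz
  induction n with
  | zero =>
    obtain ⟨e, he, he'⟩ := h.1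
    rw [he'] at he
    simpa using he
  | succ n ih =>
    obtain ⟨z, hz, hz'⟩ := h.2 _ ih
    rw [hz'] at hz
    have : ((n + 1 : ℕ) : Ordinal.{u}) = (n : Ordinal.{u}) + 1 := by push_cast; rfl
    rw [this, Ordinal.toZFSet_add_one]
    exact hz

theorem omegaC_subset {o x : ZFSet.{u}} (h : IndC o x) : omegaC o ⊆ x := by
  intro z hz
  obtain ⟨n, rfl⟩ := mem_omegaC.1 hz
  clear hz
  induction n with
  | zero =>
    obtain ⟨e, he, he'⟩ := h.1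
    rw [he'] at he
    exact he
  | succ n ih =>
    obtain ⟨z, hz, w, _, hw', hz'⟩ := h.2 _ ih
    rw [hz', hw'] at hz
    exact hz

theorem indP_omegaZ : IndP (omegaZ.{u}) := by
  refine ⟨⟨∅, mem_omegaZ.2 ⟨0, by simp⟩, rfl⟩, fun y hy => ?_⟩
  obtain ⟨n, rfl⟩ := mem_omegaZ.1 hy
  refine ⟨_, mem_omegaZ.2 ⟨n + 1, ?_⟩, rfl⟩
  have : ((n + 1 : ℕ) : Ordinal.{u}) = (n : Ordinal.{u}) + 1 := by push_cast; rfl
  rw [this, Ordinal.toZFSet_add_one]

theorem indC_omegaC (o : ZFSet.{u}) : IndC o (omegaC o) := by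
  refine ⟨⟨∅, mem_omegaC.2 ⟨0, by simp [check]⟩, rfl⟩, fun y hy => ?_⟩
  obtain ⟨n, rfl⟩ := mem_omegaC.1 hy
  refine ⟨check o (n + 1), mem_omegaC.2 ⟨n + 1, rfl⟩, ZFSet.pair (check o n) o, ?_, rfl, rfl⟩
  rw [check]; exact ZFSet.mem_insert _ _

/-- Definition of `ω` over `H(θ)`. -/
def IsOmegaH (θ : Cardinal.{u}) (x : ZFSet.{u}) : Prop :=
  IndP x ∧ ∀ y ∈ HSet θ, IndP y → x ⊆ y

theorem isOmegaH_iff (h : omegaZ.{u} ∈ HSet θ) {x : ZFSet.{u}} :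
    IsOmegaH θ x ↔ x = omegaZ := by
  constructor
  · rintro ⟨h1, h2⟩
    exact subset_antisymm (h2 _ h indP_omegaZ) (omegaZ_subset h1)
  · rintro rfl
    exact ⟨indP_omegaZ, fun y _ hy => omegaZ_subset hy⟩

theorem DefRel.isOmegaH {n : ℕ} (i : Fin n) : DefRel θ W fun v => IsOmegaH θ (v i) := by
  unfold IsOmegaH
  exact DefRel.and (DefRel.indP _) (DefRel.allH (DefRel.imp (DefRel.indP _) (DefRel.subset _ _)))

/-- Definition of the set of canonical names over `H(θ)`. -/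
def IsOmegaCH (θ : Cardinal.{u}) (o x : ZFSet.{u}) : Prop :=
  IndC o x ∧ ∀ y ∈ HSet θ, IndC o y → x ⊆ y

theorem isOmegaCH_iff {o : ZFSet.{u}} (h : omegaC o ∈ HSet θ) {x : ZFSet.{u}} :
    IsOmegaCH θ o x ↔ x = omegaC o := by
  constructor
  · rintro ⟨h1, h2⟩
    exact subset_antisymm (h2 _ h (indC_omegaC o)) (omegaC_subset h1)
  · rintro rfl
    exact ⟨indC_omegaC o, fun y _ hy => omegaC_subset hy⟩

theorem DefRel.isOmegaCH {n : ℕ} (i j : Fin n) :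
    DefRel θ W fun v => IsOmegaCH θ (v i) (v j) := by
  unfold IsOmegaCH
  exact DefRel.and (DefRel.indC _ _)
    (DefRel.allH (DefRel.imp (DefRel.indC _ _) (DefRel.subset _ _)))

/-- `ξ` is an ordinal onto which some function in `H(θ)` maps the set `w`. -/
def CtblH (θ : Cardinal.{u}) (w ξ : ZFSet.{u}) : Prop :=
  ((∀ y ∈ ξ, ∀ z ∈ y, z ∈ ξ) ∧ ∀ y ∈ ξ, ∀ z ∈ y, ∀ t ∈ z, t ∈ y) ∧
  ∃ f ∈ HSet θ, (∀ y ∈ ξ, ∃ n ∈ w, ZFSet.pair n y ∈ f) ∧
    ∀ n ∈ w, ∀ y ∈ ξ, ∀ y' ∈ ξ, ZFSet.pair n y ∈ f → ZFSet.pair n y' ∈ f → y = y'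

theorem DefRel.ctblH {n : ℕ} (i j : Fin n) : DefRel θ W fun v => CtblH θ (v i) (v j) := by
  unfold CtblH
  exact DefRel.and (DefRel.and (DefRel.ball (DefRel.ball (DefRel.mem _ _)))
    (DefRel.ball (DefRel.ball (DefRel.ball (DefRel.mem _ _)))))
    (DefRel.exH (DefRel.and (DefRel.ball (DefRel.bex (DefRel.pairMem _ _ _)))
      (DefRel.ball (DefRel.ball (DefRel.ball (DefRel.imp (DefRel.pairMem _ _ _)
        (DefRel.imp (DefRel.pairMem _ _ _) (DefRel.eq _ _))))))))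

theorem lt_omega1_of_countable {a : Ordinal.{u}} (h : (Set.Iio a).Countable) :
    a < Ordinal.omega 1 := by
  rw [← Cardinal.ord_aleph, Cardinal.lt_ord, Cardinal.lt_aleph_one_iff]
  rwa [← Cardinal.le_aleph0_iff_set_countable, Cardinal.mk_Iio_ordinal,
    Cardinal.lift_le_aleph0] at h

theorem ctblH_iff (h : ZFSet.powerset (ZFSet.prod omegaZ (Ordinal.omega.{u} 1).toZFSet) ∈ HSet θ)
    {ξ : ZFSet.{u}} : CtblH θ omegaZ ξ ↔ ξ ∈ (Ordinal.omega.{u} 1).toZFSet := by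
  constructor
  · rintro ⟨⟨h1, h2⟩, f, _, h3, h4⟩
    have hord : ξ.IsOrdinal := by
      rw [ZFSet.isOrdinal_iff_forall_mem_isTransitive]
      exact ⟨fun y hy z hz => h1 y hy z hz, fun y hy z hz t ht => h2 y hy z hz t ht⟩
    have hξ : ξ.rank.toZFSet = ξ := hord.toZFSet_rank_eq
    have hmemξ : ∀ b : Ordinal.{u}, b < ξ.rank → b.toZFSet ∈ ξ := by
      intro b hb
      have h0 := Ordinal.toZFSet_mem_toZFSet_iff.2 hb
      rwa [hξ] at h0
    rw [← hξ, Ordinal.toZFSet_mem_toZFSet_iff]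
    apply lt_omega1_of_countable
    have h5 : ∀ b : Set.Iio ξ.rank, ∃ n : ℕ,
        ZFSet.pair (n : Ordinal.{u}).toZFSet b.1.toZFSet ∈ f := by
      intro b
      have hb : b.1.toZFSet ∈ ξ := hmemξ _ b.2
      obtain ⟨n, hn, hn'⟩ := h3 _ hb
      obtain ⟨m, rfl⟩ := mem_omegaZ.1 hn
      exact ⟨m, hn'⟩
    choose g hg using h5
    have hinj : Function.Injective g := by
      intro b c hbc
      have hb : b.1.toZFSet ∈ ξ := hmemξ _ b.2
      have hc : c.1.toZFSet ∈ ξ := hmemξ _ c.2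
      have := h4 _ (mem_omegaZ.2 ⟨g b, rfl⟩) _ hb _ hc (hg b) (by rw [hbc]; exact hg c)
      exact Subtype.ext (Ordinal.toZFSet_injective this)
    exact Set.countable_iff_exists_injective.2 ⟨g, hinj⟩
  · intro hξ
    obtain ⟨a, ha, rfl⟩ := Ordinal.mem_toZFSet_iff.1 hξ
    have hord := ZFSet.isOrdinal_toZFSet a
    rw [ZFSet.isOrdinal_iff_forall_mem_isTransitive] at hord
    refine ⟨⟨fun y hy z hz => hord.1 y hy hz, fun y hy z hz t ht => hord.2 y hy z hz ht⟩, ?_⟩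
    obtain ⟨g, hg⟩ := Set.countable_iff_exists_injective.1 (countable_Iio ha)
    set f : ZFSet.{u} := ZFSet.sep (fun z => ∃ b : Set.Iio a,
      z = ZFSet.pair ((g b : ℕ) : Ordinal.{u}).toZFSet b.1.toZFSet)
      (ZFSet.prod omegaZ (Ordinal.omega.{u} 1).toZFSet) with hf
    have hmem : ∀ b : Set.Iio a,
        ZFSet.pair ((g b : ℕ) : Ordinal.{u}).toZFSet b.1.toZFSet ∈ f := by
      intro b
      rw [hf, ZFSet.mem_sep, ZFSet.pair_mem_prod]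
      exact ⟨⟨mem_omegaZ.2 ⟨_, rfl⟩, Ordinal.toZFSet_mem_toZFSet_iff.2 (lt_trans b.2 ha)⟩, b, rfl⟩
    refine ⟨f, HSet.mem h (ZFSet.mem_powerset.2 ZFSet.sep_subset), ?_, ?_⟩
    · intro y hy
      obtain ⟨b, hb, rfl⟩ := Ordinal.mem_toZFSet_iff.1 hy
      exact ⟨_, mem_omegaZ.2 ⟨g ⟨b, hb⟩, rfl⟩, hmem ⟨b, hb⟩⟩
    · intro n _ y _ y' _ h1 h2
      rw [hf, ZFSet.mem_sep] at h1 h2
      obtain ⟨_, b, hb⟩ := h1
      obtain ⟨_, c, hc⟩ := h2
      obtain ⟨e1, e2⟩ := ZFSet.pair_inj.1 hb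
      obtain ⟨e3, e4⟩ := ZFSet.pair_inj.1 hc
      have : g b = g c := by
        have := Ordinal.toZFSet_injective (e1.symm.trans e3)
        exact_mod_cast this
      rw [e2, e4, hg this]

/-- Definition of `ω₁` over `H(θ)` from `ω`. -/
def IsOmega1H (θ : Cardinal.{u}) (w x : ZFSet.{u}) : Prop := ∀ ξ ∈ HSet θ, ξ ∈ x ↔ CtblH θ w ξ

theorem DefRel.isOmega1H {n : ℕ} (i j : Fin n) :
    DefRel θ W fun v => IsOmega1H θ (v i) (v j) := by
  unfold IsOmega1H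
  exact DefRel.allH (DefRel.iff (DefRel.mem _ _) (DefRel.ctblH _ _))

theorem isOmega1H_iff (h : ZFSet.powerset (ZFSet.prod omegaZ (Ordinal.omega.{u} 1).toZFSet) ∈ HSet θ)
    (h' : (Ordinal.omega.{u} 1).toZFSet ∈ HSet θ) {x : ZFSet.{u}} (hx : x ∈ HSet θ) :
    IsOmega1H θ omegaZ x ↔ x = (Ordinal.omega.{u} 1).toZFSet := by
  constructor
  · intro H
    ext z
    constructor
    · intro hz
      exact (ctblH_iff h).1 ((H z (HSet.mem hx hz)).1 hz)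
    · intro hz
      exact (H z (HSet.mem h' hz)).2 ((ctblH_iff h).2 hz)
  · rintro rfl ξ _
    exact (ctblH_iff h).symm

/-- Nice names, with all quantifiers bounded. -/
def NiceP (C D R a : ZFSet.{u}) : Prop :=
  (∀ z ∈ a, ∃ x ∈ C, ∃ p ∈ D, z = ZFSet.pair x p) ∧
  ∀ x ∈ C, ∀ p ∈ D, ∀ q ∈ D, ZFSet.pair x p ∈ a → ZFSet.pair x q ∈ a → p ≠ q →
    ∀ r ∈ D, ¬ (ZFSet.pair r p ∈ R ∧ ZFSet.pair r q ∈ R)

theorem DefRel.niceP {n : ℕ} (i j k l : Fin n) :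
    DefRel θ W fun v => NiceP (v i) (v j) (v k) (v l) := by
  unfold NiceP
  exact DefRel.and (DefRel.ball (DefRel.bex (DefRel.bex (DefRel.eqPair _ _ _))))
    (DefRel.ball (DefRel.ball (DefRel.ball (DefRel.imp (DefRel.pairMem _ _ _)
      (DefRel.imp (DefRel.pairMem _ _ _) (DefRel.imp (DefRel.ne _ _) (DefRel.ball
        (DefRel.not (DefRel.and (DefRel.pairMem _ _ _) (DefRel.pairMem _ _ _))))))))))

theorem niceP_iff {D R o a : ZFSet.{u}} : NiceP (omegaC o) D R a ↔ IsNiceName D R o a := by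
  constructor
  · rintro ⟨h1, h2⟩
    have hel : ∀ z ∈ a, ∃ n : ℕ, ∃ p ∈ D, z = ZFSet.pair (check o n) p := by
      intro z hz
      obtain ⟨x, hx, p, hp, rfl⟩ := h1 z hz
      obtain ⟨n, rfl⟩ := mem_omegaC.1 hx
      exact ⟨n, p, hp, rfl⟩
    refine ⟨hel, ?_⟩
    intro n p q hp hq hpq
    obtain ⟨m, p', hp', e⟩ := hel _ hp
    obtain ⟨m', q', hq', e'⟩ := hel _ hq
    obtain ⟨_, rfl⟩ := ZFSet.pair_inj.1 e
    obtain ⟨_, rfl⟩ := ZFSet.pair_inj.1 e'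
    exact h2 _ (mem_omegaC.2 ⟨n, rfl⟩) p hp' q hq' hp hq hpq
  · rintro ⟨h1, h2⟩
    refine ⟨?_, ?_⟩
    · intro z hz
      obtain ⟨n, p, hp, rfl⟩ := h1 z hz
      exact ⟨_, mem_omegaC.2 ⟨n, rfl⟩, p, hp, rfl⟩
    · intro x hx p _ q _ hp' hq' hpq
      obtain ⟨n, rfl⟩ := mem_omegaC.1 hx
      exact h2 n p q hp' hq' hpq

/-- Graphs of automorphisms, with all quantifiers bounded. -/
def AutP (D R g : ZFSet.{u}) : Prop :=
  (∀ p ∈ D, ∃ q ∈ D, ZFSet.pair p q ∈ g) ∧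
  (∀ p ∈ D, ∀ q ∈ D, ∀ q' ∈ D, ZFSet.pair p q ∈ g → ZFSet.pair p q' ∈ g → q = q') ∧
  (∀ q ∈ D, ∃ p ∈ D, ZFSet.pair p q ∈ g) ∧
  (∀ p ∈ D, ∀ p' ∈ D, ∀ q ∈ D, ZFSet.pair p q ∈ g → ZFSet.pair p' q ∈ g → p = p') ∧
  ∀ p ∈ D, ∀ p' ∈ D, ∀ q ∈ D, ∀ q' ∈ D, ZFSet.pair p q ∈ g → ZFSet.pair p' q' ∈ g →
    (ZFSet.pair q q' ∈ R ↔ ZFSet.pair p p' ∈ R)

theorem DefRel.autP {n : ℕ} (i j k : Fin n) : DefRel θ W fun v => AutP (v i) (v j) (v k) := by
  unfold AutP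
  refine DefRel.and (DefRel.ball (DefRel.bex (DefRel.pairMem _ _ _))) (DefRel.and ?_
    (DefRel.and (DefRel.ball (DefRel.bex (DefRel.pairMem _ _ _))) (DefRel.and ?_ ?_)))
  · exact DefRel.ball (DefRel.ball (DefRel.ball (DefRel.imp (DefRel.pairMem _ _ _)
      (DefRel.imp (DefRel.pairMem _ _ _) (DefRel.eq _ _)))))
  · exact DefRel.ball (DefRel.ball (DefRel.ball (DefRel.imp (DefRel.pairMem _ _ _)
      (DefRel.imp (DefRel.pairMem _ _ _) (DefRel.eq _ _)))))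
  · exact DefRel.ball (DefRel.ball (DefRel.ball (DefRel.ball (DefRel.imp (DefRel.pairMem _ _ _)
      (DefRel.imp (DefRel.pairMem _ _ _)
        (DefRel.iff (DefRel.pairMem _ _ _) (DefRel.pairMem _ _ _)))))))

/-- The action on nice names, with all quantifiers bounded. -/
def ActP (C D g a a' : ZFSet.{u}) : Prop :=
  ∀ x ∈ C, ∀ p ∈ D, ∀ q ∈ D, ZFSet.pair p q ∈ g → (ZFSet.pair x p ∈ a ↔ ZFSet.pair x q ∈ a')

theorem DefRel.actP {n : ℕ} (i j k l m : Fin n) :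
    DefRel θ W fun v => ActP (v i) (v j) (v k) (v l) (v m) := by
  unfold ActP
  exact DefRel.ball (DefRel.ball (DefRel.ball (DefRel.imp (DefRel.pairMem _ _ _)
    (DefRel.iff (DefRel.pairMem _ _ _) (DefRel.pairMem _ _ _)))))

theorem exists_aut_of_autP {D R o g : ZFSet.{u}} (hP : IsForcing D R o) (hg : AutP D R g) :
    ∃ h : ZFSet.{u} → ZFSet.{u}, IsAut D R h ∧ ∀ a a', IsNiceName D R o a →
      IsNiceName D R o a' → ActP (omegaC o) D g a a' → act h a = a' := by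
  obtain ⟨h1, h2, h3, h4, h5⟩ := hg
  choose! h hD hh using h1
  have hA : IsAut D R h := by
    refine ⟨⟨fun p hp => hD p hp, ?_, ?_⟩, ?_⟩
    · intro p hp p' hp' e
      exact h4 p hp p' hp' (h p) (hD p hp) (hh p hp) (by rw [e]; exact hh p' hp')
    · intro q hq
      obtain ⟨p, hp, hpq⟩ := h3 q hq
      exact ⟨p, hp, h2 p hp _ (hD p hp) _ hq (hh p hp) hpq⟩
    · intro p hp q hq
      exact h5 p hp q hq _ (hD p hp) _ (hD q hq) (hh p hp) (hh q hq)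
  refine ⟨h, hA, fun a a' ha ha' H => ?_⟩
  ext z
  rw [mem_act_nice hP hA ha.elems]
  constructor
  · rintro ⟨n, p, hp, hnp, rfl⟩
    exact (H _ (mem_omegaC.2 ⟨n, rfl⟩) p hp (h p) (hD p hp) (hh p hp)).1 hnp
  · intro hz
    obtain ⟨n, q, hq, rfl⟩ := ha'.elems z hz
    obtain ⟨p, hp, rfl⟩ := hA.bij.surjOn hq
    have hp' : p ∈ D := hp
    exact ⟨n, p, hp', (H _ (mem_omegaC.2 ⟨n, rfl⟩) p hp' (h p) (hD p hp') (hh p hp')).2 hz, rfl⟩

/-- The graph of an automorphism. -/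
noncomputable def autGraph (D : ZFSet.{u}) (h : ZFSet.{u} → ZFSet.{u}) : ZFSet.{u} :=
  ZFSet.sep (fun z => ∃ p, z = ZFSet.pair p (h p)) (ZFSet.prod D D)

theorem pair_mem_autGraph {D p q : ZFSet.{u}} {h : ZFSet.{u} → ZFSet.{u}} :
    ZFSet.pair p q ∈ autGraph D h ↔ p ∈ D ∧ q ∈ D ∧ q = h p := by
  rw [autGraph, ZFSet.mem_sep, ZFSet.pair_mem_prod]
  constructor
  · rintro ⟨⟨h1, h2⟩, p', e⟩
    obtain ⟨rfl, rfl⟩ := ZFSet.pair_inj.1 e
    exact ⟨h1, h2, rfl⟩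
  · rintro ⟨h1, h2, rfl⟩
    exact ⟨⟨h1, h2⟩, p, rfl⟩

theorem autP_autGraph {D R : ZFSet.{u}} {h : ZFSet.{u} → ZFSet.{u}} (hA : IsAut D R h) :
    AutP D R (autGraph D h) := by
  refine ⟨?_, ?_, ?_, ?_, ?_⟩
  · intro p hp
    have := hA.bij.mapsTo hp
    exact ⟨h p, this, pair_mem_autGraph.2 ⟨hp, this, rfl⟩⟩
  · intro p _ q _ q' _ e1 e2
    rw [(pair_mem_autGraph.1 e1).2.2, (pair_mem_autGraph.1 e2).2.2]
  · intro q hq
    obtain ⟨p, hp, rfl⟩ := hA.bij.surjOn hq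
    exact ⟨p, hp, pair_mem_autGraph.2 ⟨hp, hq, rfl⟩⟩
  · intro p hp p' hp' q _ e1 e2
    exact hA.bij.injOn hp hp' ((pair_mem_autGraph.1 e1).2.2.symm.trans
      (pair_mem_autGraph.1 e2).2.2)
  · intro p hp p' hp' q _ q' _ e1 e2
    rw [(pair_mem_autGraph.1 e1).2.2, (pair_mem_autGraph.1 e2).2.2]
    exact hA.rel p hp p' hp'

theorem actP_autGraph {D R o : ZFSet.{u}} (hP : IsForcing D R o) {h : ZFSet.{u} → ZFSet.{u}}
    (hA : IsAut D R h) {a a' : ZFSet.{u}} (ha : IsNiceName D R o a) (e : act h a = a') :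
    ActP (omegaC o) D (autGraph D h) a a' := by
  intro x hx p hp q _ hpq
  obtain ⟨n, rfl⟩ := mem_omegaC.1 hx
  rw [(pair_mem_autGraph.1 hpq).2.2, ← e, pair_mem_act_nice hP hA ha.elems hp]

end Pool.Agent.TransProp
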