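import Mathlib
import Pool.Agent.Work.MP_b7a9b7_lc.Defs

/-!
The properties of the meager and the null ideal of `2^I` that are used.
-/

universe u v

open Cardinal Ordinal MeasureTheory

namespace Pool.Agent.TransProp

/-- The abstract properties of the two ideals. -/
structure GoodIdeal {ι : Type u} (N : Set (ι → Bool) → Prop) : Prop where
  mono : ∀ {A B : Set (ι → Bool)}, A ⊆ B → N B → N A
  union : ∀ {A B : Set (ι → Bool)}, N A → N B → N (A ∪ B)
  empty : N ∅
  univ : ¬ N Set.univ
  box : ∀ i j : ι, i ≠ j → ¬ N {x | x i = true ∧ x j = false}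
  half : ∀ i : ι, ¬ N {x | x i = true}
  perm : ∀ (π : ι ≃ ι) (A : Set (ι → Bool)), N A → N {x | x ∘ π ∈ A}
  ccc : ∀ S : Set (Set (ι → Bool)), (∀ B ∈ S, IsBaire B ∧ ¬ N B) →
    (∀ B ∈ S, ∀ C ∈ S, B ≠ C → N (B ∩ C)) → S.Countable

variable {ι : Type u}

/-! ### Baire sets -/

theorem isClopen_eval (i : ι) (b : Bool) : IsClopen {x : ι → Bool | x i = b} := by
  have : {x : ι → Bool | x i = b} = (fun x : ι → Bool => x i) ⁻¹' {b} := rfl
  rw [this]
  exact (isClopen_discrete {b}).preimage (continuous_apply i)

/-- A finite condition. -/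
def cyl (s : Finset ι) (y : ι → Bool) : Set (ι → Bool) := {x | ∀ i ∈ s, x i = y i}

theorem cyl_eq_pi (s : Finset ι) (y : ι → Bool) :
    cyl s y = Set.pi (s : Set ι) fun i => {y i} := by
  ext x; simp [cyl, Set.mem_pi]

theorem isOpen_cyl (s : Finset ι) (y : ι → Bool) : IsOpen (cyl s y) := by
  rw [cyl_eq_pi]
  exact isOpen_set_pi s.finite_toSet fun _ _ => isOpen_discrete _

theorem exists_cyl_subset {U : Set (ι → Bool)} (hU : IsOpen U) {y : ι → Bool} (hy : y ∈ U) :
    ∃ s : Finset ι, cyl s y ⊆ U := by
  rw [isOpen_pi_iff] at hU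
  obtain ⟨s, v, hv, hs⟩ := hU y hy
  refine ⟨s, fun x hx => hs ?_⟩
  intro i hi
  have := hx i hi
  rw [this]
  exact (hv i hi).2

theorem measurableSet_cyl (s : Finset ι) (y : ι → Bool) : MeasurableSet (cyl s y) := by
  rw [cyl_eq_pi]
  exact MeasurableSet.pi s.countable_toSet fun _ _ => MeasurableSet.of_discrete

theorem measurableSet_of_isClopen {C : Set (ι → Bool)} (hC : IsClopen C) : MeasurableSet C := by
  have hcomp : IsCompact C := hC.isClosed.isCompact
  choose! s hs using fun (y : ι → Bool) (hy : y ∈ C) => exists_cyl_subset hC.isOpen hy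
  obtain ⟨t, ht, ht'⟩ := hcomp.elim_nhds_subcover (fun y => cyl (s y) y) (fun y _ =>
    (isOpen_cyl (s y) y).mem_nhds (fun _ _ => rfl))
  have : C = ⋃ y ∈ t, cyl (s y) y := by
    refine Set.Subset.antisymm ht' ?_
    intro x hx
    simp only [Set.mem_iUnion] at hx
    obtain ⟨y, hy, hx⟩ := hx
    exact hs y (ht y hy) hx
  rw [this]
  exact t.measurableSet_biUnion fun y _ => measurableSet_cyl _ _

theorem isBaire_iff {B : Set (ι → Bool)} : IsBaire B ↔ MeasurableSet B := by
  constructor
  · intro h
    have hle : MeasurableSpace.generateFrom {C : Set (ι → Bool) | IsClopen C} ≤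
        MeasurableSpace.pi := MeasurableSpace.generateFrom_le fun C hC =>
      measurableSet_of_isClopen hC
    exact hle B h
  · intro h
    have hle : (MeasurableSpace.pi : MeasurableSpace (ι → Bool)) ≤
        MeasurableSpace.generateFrom {C : Set (ι → Bool) | IsClopen C} := by
      refine iSup_le fun i => ?_
      rintro _ ⟨s, _, rfl⟩
      have : (fun x : ι → Bool => x i) ⁻¹' s ∈ {C : Set (ι → Bool) | IsClopen C} :=
        (isClopen_discrete s).preimage (continuous_apply i)
      exact MeasurableSpace.measurableSet_generateFrom this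
    exact hle B h

/-! ### The measure -/

instance : IsProbabilityMeasure coin := by unfold coin; infer_instance

instance : IsProbabilityMeasure (prodMeasure ι) := by unfold prodMeasure; infer_instance

theorem coin_singleton (b : Bool) : coin {b} = 2⁻¹ := by
  unfold coin
  rw [PMF.toMeasure_apply_singleton _ _ (MeasurableSet.of_discrete), PMF.uniformOfFintype_apply]
  simp

theorem prodMeasure_cyl (s : Finset ι) (y : ι → Bool) :
    prodMeasure ι (cyl s y) = 2⁻¹ ^ s.card := by
  rw [cyl_eq_pi, prodMeasure, Measure.infinitePi_pi _ fun _ _ => MeasurableSet.of_discrete]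
  simp [coin_singleton]

theorem prodMeasure_cyl_pos (s : Finset ι) (y : ι → Bool) : 0 < prodMeasure ι (cyl s y) := by
  rw [prodMeasure_cyl]
  exact ENNReal.pow_pos (by simp) _

theorem prodMeasure_pos {U : Set (ι → Bool)} (hU : IsOpen U) (hne : U.Nonempty) :
    0 < prodMeasure ι U := by
  obtain ⟨y, hy⟩ := hne
  obtain ⟨s, hs⟩ := exists_cyl_subset hU hy
  exact (prodMeasure_cyl_pos s y).trans_le (measure_mono hs)

theorem measurePreserving_perm (π : ι ≃ ι) :
    MeasurePreserving (fun x : ι → Bool => x ∘ π) (prodMeasure ι) (prodMeasure ι) := by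
  refine ⟨by fun_prop, ?_⟩
  refine Measure.eq_infinitePi (μ := fun _ : ι => coin) ?_
  intro s t ht
  rw [Measure.map_apply (by fun_prop) (MeasurableSet.pi s.countable_toSet fun i _ => ht i)]
  classical
  have : (fun x : ι → Bool => x ∘ π) ⁻¹' (Set.pi s t) =
      Set.pi ((s.map π.toEmbedding : Finset ι) : Set ι) fun i => t (π.symm i) := by
    ext x
    simp only [Set.mem_preimage, Set.mem_pi, Finset.mem_coe, Finset.mem_map, Equiv.coe_toEmbedding,
      Function.comp_apply]
    constructor
    · rintro H _ ⟨i, hi, rfl⟩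
      have e : π.symm (π i) = i := π.symm_apply_apply i
      rw [e]; exact H i hi
    · intro H i hi
      have := H (π i) ⟨i, hi, rfl⟩
      have e : π.symm (π i) = i := π.symm_apply_apply i
      rwa [e] at this
  rw [this, prodMeasure, Measure.infinitePi_pi _ fun i _ => ht _, Finset.prod_map]
  refine Finset.prod_congr rfl fun i _ => ?_
  have e : π.symm (π.toEmbedding i) = i := π.symm_apply_apply i
  rw [e]

/-! ### The two ideals are good -/

theorem goodIdeal_null : GoodIdeal (IsNull : Set (ι → Bool) → Prop) where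
  mono h hB := measure_mono_null h hB
  union hA hB := measure_union_null hA hB
  empty := measure_empty
  univ h := by
    have h' : prodMeasure ι Set.univ = 0 := h
    simp at h'
  box i j hij h := by
    classical
    have h' : prodMeasure ι {x : ι → Bool | x i = true ∧ x j = false} = 0 := h
    have hopen : IsOpen {x : ι → Bool | x i = true ∧ x j = false} :=
      (isClopen_eval i true).isOpen.inter (isClopen_eval j false).isOpen
    refine (prodMeasure_pos hopen ⟨fun k => decide (k = i), ?_⟩).ne' h'
    simp [hij.symm]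
  half i h := by
    have h' : prodMeasure ι {x : ι → Bool | x i = true} = 0 := h
    exact (prodMeasure_pos (isClopen_eval i true).isOpen ⟨fun _ => true, rfl⟩).ne' h'
  perm π A hA := by
    have h1 : prodMeasure ι A = 0 := hA
    exact (measurePreserving_perm π).quasiMeasurePreserving.preimage_null h1
  ccc S hS hd := by
    have key := Measure.countable_meas_pos_of_disjoint_iUnion₀ (μ := prodMeasure ι)
      (As := fun B : S => B.1)
      (fun B => (isBaire_iff.1 (hS B.1 B.2).1).nullMeasurableSet) (by
        intro B C hBC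
        exact hd B.1 B.2 C.1 C.2 fun h => hBC (Subtype.ext h))
    have : {i : S | 0 < prodMeasure ι i.1} = Set.univ := by
      ext i
      simp only [Set.mem_ofPred_eq, Set.mem_univ, iff_true]
      exact pos_iff_ne_zero.2 (hS i.1 i.2).2
    rw [this, Set.countable_univ_iff] at key
    exact key

theorem goodIdeal_meagre : GoodIdeal (IsMeagre : Set (ι → Bool) → Prop) where
  mono h hB := hB.mono h
  union hA hB := hA.union hB
  empty := IsMeagre.empty
  univ h := not_isMeagre_of_isOpen isOpen_univ Set.univ_nonempty h
  box i j hij h := by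
    classical
    have hopen : IsOpen {x : ι → Bool | x i = true ∧ x j = false} :=
      (isClopen_eval i true).isOpen.inter (isClopen_eval j false).isOpen
    refine not_isMeagre_of_isOpen hopen ⟨fun k => decide (k = i), ?_⟩ h
    simp [hij.symm]
  half i h := not_isMeagre_of_isOpen (isClopen_eval i true).isOpen ⟨fun _ => true, rfl⟩ h
  perm π A hA := by
    exact IsMeagre.preimage_of_isOpenMap (f := fun x : ι → Bool => x ∘ π)
      (by fun_prop) (by
        have : (fun x : ι → Bool => x ∘ π) = (Homeomorph.piCongrLeft (Y := fun _ : ι => Bool) π.symm) := by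
          funext x; ext i
          simp [Homeomorph.piCongrLeft, Equiv.piCongrLeft, Equiv.piCongrLeft']
        rw [this]
        exact Homeomorph.isOpenMap _) hA
  ccc S hS hd := by
    have hU : ∀ B : S, ∃ U : Set (ι → Bool), IsOpen U ∧ B.1 =ᶠ[residual (ι → Bool)] U := by
      intro B
      refine BaireMeasurableSet.residualEq_isOpen ?_
      have hB := (hS B.1 B.2).1
      have hle : MeasurableSpace.generateFrom {C : Set (ι → Bool) | IsClopen C} ≤
          borel (ι → Bool) := MeasurableSpace.generateFrom_le fun C hC =>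
        MeasurableSpace.measurableSet_generateFrom hC.isOpen
      let _ : MeasurableSpace (ι → Bool) := borel (ι → Bool)
      have : BorelSpace (ι → Bool) := ⟨rfl⟩
      exact MeasurableSet.baireMeasurableSet (hle B.1 hB)
    choose U hU1 hU2 using hU
    have hN : ∀ A B : Set (ι → Bool), A =ᶠ[residual (ι → Bool)] B → IsMeagre (A \ B) := by
      intro A B h
      show (A \ B)ᶜ ∈ residual (ι → Bool)
      filter_upwards [h] with x hx
      intro hx'
      exact hx'.2 (hx.mp hx'.1)
    have hne : ∀ B : S, (U B).Nonempty := by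
      intro B
      rw [Set.nonempty_iff_ne_empty]
      intro h0
      refine (hS B.1 B.2).2 ?_
      have := hN _ _ (hU2 B)
      rwa [h0, Set.sdiff_empty] at this
    have hdisj : ∀ B C : S, B ≠ C → Disjoint (U B) (U C) := by
      intro B C hBC
      rw [Set.disjoint_iff_inter_eq_empty]
      by_contra hne'
      have hop := (hU1 B).inter (hU1 C)
      refine not_isMeagre_of_isOpen hop (Set.nonempty_iff_ne_empty.2 hne') ?_
      have h1 := hN _ _ (hU2 B).symm
      have h2 := hN _ _ (hU2 C).symm
      have h3 := hd B.1 B.2 C.1 C.2 fun h => hBC (Subtype.ext h)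
      refine ((h1.union h2).union h3).mono ?_
      rintro x ⟨hx1, hx2⟩
      by_cases hxB : x ∈ B.1
      · by_cases hxC : x ∈ C.1
        · exact Or.inr ⟨hxB, hxC⟩
        · exact Or.inl (Or.inr ⟨hx2, hxC⟩)
      · exact Or.inl (Or.inl ⟨hx1, hxB⟩)
    have hUm : ∀ B : S, ∃ s : Finset ι, ∃ y, cyl s y ⊆ U B := by
      intro B
      obtain ⟨y, hy⟩ := hne B
      obtain ⟨s, hs⟩ := exists_cyl_subset (hU1 B) hy
      exact ⟨s, y, hs⟩
    choose s y hs using hUm
    have key := Measure.countable_meas_pos_of_disjoint_iUnion (μ := prodMeasure ι)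
      (As := fun B : S => cyl (s B) (y B)) (fun B => measurableSet_cyl _ _) (by
        intro B C hBC
        exact (hdisj B C hBC).mono (hs B) (hs C))
    have : {i : S | 0 < prodMeasure ι (cyl (s i) (y i))} = Set.univ := by
      ext i
      simp only [Set.mem_ofPred_eq, Set.mem_univ, iff_true]
      exact prodMeasure_cyl_pos _ _
    rw [this, Set.countable_univ_iff] at key
    exact key

end Pool.Agent.TransProp
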