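import Mathlib
import Pool.Agent.Work.MP_b7a9b7_lc.Ideal
import Pool.Agent.Work.MP_b7a9b7_lc.FO

/-!
The quotient algebras as forcing notions.
-/

universe u v

open Cardinal Ordinal

namespace Pool.Agent.TransProp

variable {κ : Cardinal.{u}}

theorem mem_codeFun {x : Idx κ → Bool} {z : ZFSet.{u}} : z ∈ codeFun x ↔
    ∃ i : Idx κ, ZFSet.pair (Ordinal.ToType.toOrd i).1.toZFSet
      (if x i = true then {∅} else ∅) = z := by
  rw [codeFun, ZFSet.mem_range]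

theorem codeFun_injective : Function.Injective (codeFun (κ := κ)) := by
  intro x y h
  funext i
  have h1 : ZFSet.pair (Ordinal.ToType.toOrd i).1.toZFSet
      (if x i = true then ({∅} : ZFSet.{u}) else ∅) ∈ codeFun y := by
    rw [← h, mem_codeFun]; exact ⟨i, rfl⟩
  obtain ⟨j, hj⟩ := mem_codeFun.1 h1
  obtain ⟨h2, h3⟩ := ZFSet.pair_inj.1 hj
  have hji : j = i := by
    have := Ordinal.toZFSet_injective h2
    exact (Ordinal.ToType.mk (o := κ.ord)).symm.injective (Subtype.ext this)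
  subst hji
  have hne : ({∅} : ZFSet.{u}) ≠ ∅ := by
    intro h0
    have : (∅ : ZFSet.{u}) ∈ ({∅} : ZFSet.{u}) := by simp
    rw [h0] at this
    exact ZFSet.notMem_empty _ this
  cases hx : x j <;> cases hy : y j <;> simp [hx, hy] at h3 ⊢
  · exact hne h3
  · exact hne h3.symm

theorem mem_codeSet {B : Set (Idx κ → Bool)} {z : ZFSet.{u}} :
    z ∈ codeSet B ↔ ∃ x ∈ B, codeFun x = z := by
  rw [codeSet, ZFSet.mem_range]
  constructor
  · rintro ⟨⟨x, hx⟩, rfl⟩; exact ⟨x, hx, rfl⟩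
  · rintro ⟨x, hx, rfl⟩; exact ⟨⟨x, hx⟩, rfl⟩

theorem codeSet_injective : Function.Injective (codeSet (κ := κ)) := by
  intro A B h
  ext x
  have h1 : ∀ C : Set (Idx κ → Bool), x ∈ C ↔ codeFun x ∈ codeSet C := by
    intro C
    rw [mem_codeSet]
    constructor
    · intro hx; exact ⟨x, hx, rfl⟩
    · rintro ⟨y, hy, hxy⟩
      rwa [← codeFun_injective hxy]
  rw [h1 A, h1 B, h]

variable {N : Set (Idx κ → Bool) → Prop}

theorem mem_cls {B : Set (Idx κ → Bool)} {z : ZFSet.{u}} :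
    z ∈ cls N B ↔ ∃ B', IsBaire B' ∧ N (symmDiff B B') ∧ codeSet B' = z := by
  rw [cls, ZFSet.mem_range]
  constructor
  · rintro ⟨⟨B', h1, h2⟩, rfl⟩; exact ⟨B', h1, h2, rfl⟩
  · rintro ⟨B', h1, h2, rfl⟩; exact ⟨⟨B', h1, h2⟩, rfl⟩

theorem symmDiff_trans_subset {α : Type v} (A B C : Set α) :
    symmDiff A C ⊆ symmDiff A B ∪ symmDiff B C := by
  exact symmDiff_triangle A B C

theorem cls_eq_iff (hN : GoodIdeal N) {A B : Set (Idx κ → Bool)} (hB : IsBaire B) :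
    cls N A = cls N B ↔ N (symmDiff A B) := by
  constructor
  · intro h
    have h1 : codeSet B ∈ cls N B := mem_cls.2 ⟨B, hB, by
      rw [symmDiff_self]; exact hN.empty, rfl⟩
    rw [← h] at h1
    obtain ⟨B', _, h3, h4⟩ := mem_cls.1 h1
    rwa [codeSet_injective h4] at h3
  · intro h
    ext z
    rw [mem_cls, mem_cls]
    constructor
    · rintro ⟨C, h1, h2, rfl⟩
      refine ⟨C, h1, hN.mono (symmDiff_trans_subset B A C) (hN.union ?_ h2), rfl⟩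
      rwa [symmDiff_comm]
    · rintro ⟨C, h1, h2, rfl⟩
      exact ⟨C, h1, hN.mono (symmDiff_trans_subset A B C) (hN.union h h2), rfl⟩

theorem mem_quotD {z : ZFSet.{u}} :
    z ∈ quotD N ↔ ∃ B, IsBaire B ∧ ¬ N B ∧ cls N B = z := by
  rw [quotD, ZFSet.mem_range]
  constructor
  · rintro ⟨⟨B', h1, h2⟩, rfl⟩; exact ⟨B', h1, h2, rfl⟩
  · rintro ⟨B', h1, h2, rfl⟩; exact ⟨⟨B', h1, h2⟩, rfl⟩

theorem mem_quotR {z : ZFSet.{u}} :
    z ∈ quotR N ↔ ∃ A B, IsBaire A ∧ ¬ N A ∧ IsBaire B ∧ ¬ N B ∧ N (A \ B) ∧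
      ZFSet.pair (cls N A) (cls N B) = z := by
  rw [quotR, ZFSet.mem_range]
  constructor
  · rintro ⟨⟨⟨A, B⟩, h1, h2, h3, h4, h5⟩, rfl⟩; exact ⟨A, B, h1, h2, h3, h4, h5, rfl⟩
  · rintro ⟨A, B, h1, h2, h3, h4, h5, rfl⟩; exact ⟨⟨⟨A, B⟩, h1, h2, h3, h4, h5⟩, rfl⟩

theorem pair_mem_quotR (hN : GoodIdeal N) {A B : Set (Idx κ → Bool)} (hA : IsBaire A)
    (hA' : ¬ N A) (hB : IsBaire B) (hB' : ¬ N B) :
    ZFSet.pair (cls N A) (cls N B) ∈ quotR N ↔ N (A \ B) := by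
  rw [mem_quotR]
  constructor
  · rintro ⟨A', B', h1, h2, h3, h4, h5, h6⟩
    obtain ⟨h7, h8⟩ := ZFSet.pair_inj.1 h6
    rw [cls_eq_iff hN hA] at h7
    rw [cls_eq_iff hN hB] at h8
    refine hN.mono ?_ (hN.union (hN.union h7 h8) h5)
    rintro x ⟨hxA, hxB⟩
    by_cases hxA' : x ∈ A'
    · by_cases hxB' : x ∈ B'
      · exact Or.inl (Or.inr (Or.inl ⟨hxB', hxB⟩))
      · exact Or.inr ⟨hxA', hxB'⟩
    · exact Or.inl (Or.inl (Or.inr ⟨hxA, hxA'⟩))
  · intro h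
    exact ⟨A, B, hA, hA', hB, hB', h, rfl⟩

theorem isBaire_univ {ι : Type u} : IsBaire (Set.univ : Set (ι → Bool)) :=
  isBaire_iff.2 MeasurableSet.univ

theorem isForcing_quot (hN : GoodIdeal N) : IsForcing (quotD N) (quotR N) (quotO N) where
  rel_sub z hz := by
    obtain ⟨A, B, h1, h2, h3, h4, _, rfl⟩ := mem_quotR.1 hz
    exact ⟨_, mem_quotD.2 ⟨A, h1, h2, rfl⟩, _, mem_quotD.2 ⟨B, h3, h4, rfl⟩, rfl⟩
  refl p hp := by
    obtain ⟨A, h1, h2, rfl⟩ := mem_quotD.1 hp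
    rw [pair_mem_quotR hN h1 h2 h1 h2, Set.sdiff_self]
    exact hN.empty
  antisymm p hp q hq h h' := by
    obtain ⟨A, h1, h2, rfl⟩ := mem_quotD.1 hp
    obtain ⟨B, h3, h4, rfl⟩ := mem_quotD.1 hq
    rw [pair_mem_quotR hN h1 h2 h3 h4] at h
    rw [pair_mem_quotR hN h3 h4 h1 h2] at h'
    rw [cls_eq_iff hN h3]
    exact hN.union h h'
  trans p hp q hq r hr h h' := by
    obtain ⟨A, h1, h2, rfl⟩ := mem_quotD.1 hp
    obtain ⟨B, h3, h4, rfl⟩ := mem_quotD.1 hq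
    obtain ⟨C, h5, h6, rfl⟩ := mem_quotD.1 hr
    rw [pair_mem_quotR hN h1 h2 h3 h4] at h
    rw [pair_mem_quotR hN h3 h4 h5 h6] at h'
    rw [pair_mem_quotR hN h1 h2 h5 h6]
    refine hN.mono ?_ (hN.union h h')
    rintro x ⟨hxA, hxC⟩
    by_cases hxB : x ∈ B
    · exact Or.inr ⟨hxB, hxC⟩
    · exact Or.inl ⟨hxA, hxB⟩
  one_mem := mem_quotD.2 ⟨Set.univ, isBaire_univ, hN.univ, rfl⟩
  le_one p hp := by
    obtain ⟨A, h1, h2, rfl⟩ := mem_quotD.1 hp
    rw [quotO, pair_mem_quotR hN h1 h2 isBaire_univ hN.univ]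
    simpa using hN.empty

theorem isBaire_half {ι : Type u} (i : ι) : IsBaire {x : ι → Bool | x i = true} :=
  isBaire_iff.2 (measurableSet_of_isClopen (isClopen_eval i true))

theorem gen_injective (hN : GoodIdeal N) :
    Function.Injective fun i : Idx κ => cls N {x : Idx κ → Bool | x i = true} := by
  intro i j h
  by_contra hij
  have h1 := (cls_eq_iff hN (isBaire_half j)).1 h
  refine hN.box i j hij (hN.mono ?_ h1)
  rintro x ⟨hx1, hx2⟩
  exact Or.inl ⟨hx1, by simp [hx2]⟩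

theorem gen_mem (hN : GoodIdeal N) (i : Idx κ) :
    cls N {x : Idx κ → Bool | x i = true} ∈ quotD N :=
  mem_quotD.2 ⟨_, isBaire_half i, hN.half i, rfl⟩

theorem card_quotD (hN : GoodIdeal N) : κ ≤ (quotD N).card := by
  have h1 : Nonempty (Idx κ ↪ quotD N) :=
    ⟨⟨fun i => ⟨_, gen_mem hN i⟩, fun i j h => gen_injective hN (congrArg Subtype.val h)⟩⟩
  rw [← Cardinal.lift_mk_le', ZFSet.cardinalMk_coe_sort, Cardinal.mk_ord_toType] at h1
  have h2 : Cardinal.lift.{u + 1} κ ≤ Cardinal.lift.{u + 1} (quotD N).card := by simpa using h1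
  exact Cardinal.lift_le.1 h2

end Pool.Agent.TransProp
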