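import Mathlib
import Pool.Agent.Work.MP_b7a9b7_lc.Quot
import Pool.Agent.Work.MP_b7a9b7_lc.Neg
import Pool.Agent.Work.MP_b7a9b7_lc.Formulas

/-!
Presentations of nice names of the quotient algebras, and automorphisms induced by permutations.
-/

universe u v

open Cardinal Ordinal

namespace Pool.Agent.TransProp

/-- Measurable subsets of `2^ω`. -/
abbrev MS : Type := {S : Set (ℕ → Bool) // MeasurableSet S}

/-- The set of `x ∈ 2^I` with `x ∘ f ∈ S`. -/
def pull {ι : Type u} (f : ℕ → ι) (S : MS) : Set (ι → Bool) := {x | x ∘ f ∈ S.1}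

theorem measurable_comp {ι : Type u} {α : Type v} (f : α → ι) :
    Measurable fun x : ι → Bool => x ∘ f := by
  rw [measurable_pi_iff]
  intro a
  exact measurable_pi_apply (f a)

theorem measurableSet_pull {ι : Type u} (f : ℕ → ι) (S : MS) : MeasurableSet (pull f S) :=
  measurable_comp f S.2

/-- Combine countably many supports. -/
theorem pull_pair {ι : Type u} (f : ℕ → ℕ → ι) (k : ℕ) (S : MS) :
    ∃ S' : MS, pull (fun n => f n.unpair.1 n.unpair.2) S' = pull (f k) S := by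
  refine ⟨⟨{y | (fun j => y (Nat.pair k j)) ∈ S.1}, ?_⟩, ?_⟩
  · exact measurable_comp (fun j : ℕ => Nat.pair k j) S.2
  · ext x
    simp only [pull, Set.mem_ofPred_eq, Function.comp_def, Nat.unpair_pair]

theorem exists_pull {ι : Type u} [Nonempty ι] {B : Set (ι → Bool)} (hB : MeasurableSet B) :
    ∃ (f : ℕ → ι) (S : MS), pull f S = B := by
  have hgen : (MeasurableSpace.pi : MeasurableSpace (ι → Bool)) = MeasurableSpace.generateFrom
      {B | ∃ (i : ι) (A : Set Bool), MeasurableSet A ∧ Function.eval i ⁻¹' A = B} :=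
    MeasurableSpace.pi_eq_generateFrom_projections
  rw [hgen] at hB
  induction hB with
  | basic B hB =>
    obtain ⟨i, A, hA, rfl⟩ := hB
    exact ⟨fun _ => i, ⟨{y | y 0 ∈ A}, measurable_pi_apply 0 hA⟩, rfl⟩
  | empty => exact ⟨fun _ => Classical.arbitrary ι, ⟨∅, MeasurableSet.empty⟩, rfl⟩
  | compl B _ ih =>
    obtain ⟨f, S, rfl⟩ := ih
    exact ⟨f, ⟨S.1ᶜ, S.2.compl⟩, rfl⟩
  | iUnion B _ ih =>
    choose f S hS using ih
    choose S' hS' using fun k => pull_pair f k (S k)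
    refine ⟨fun n => f n.unpair.1 n.unpair.2, ⟨⋃ k, (S' k).1, MeasurableSet.iUnion fun k =>
      (S' k).2⟩, ?_⟩
    ext x
    simp only [pull, Set.mem_ofPred_eq, Set.mem_iUnion]
    have : ∀ k, x ∘ (fun n : ℕ => f n.unpair.1 n.unpair.2) ∈ (S' k).1 ↔ x ∈ B k := by
      intro k
      rw [← hS k, ← hS' k]
      rfl
    simp only [this]

/-- Codes for nice names. -/
abbrev QC : Type := ℕ → ℕ → Option MS

variable {κ : Cardinal.{u}}

/-- The nice name decoded from a support and a code. -/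
noncomputable def dec (N : Set (Idx κ → Bool) → Prop) (f : ℕ → Idx κ) (q : QC) : ZFSet.{u} :=
  ZFSet.sep (fun z => ∃ (n k : ℕ) (S : MS), q n k = some S ∧
    z = ZFSet.pair (check (quotO N) n) (cls N (pull f S)))
    (ZFSet.prod (omegaC (quotO N)) (quotD N))

theorem pair_mem_dec {N : Set (Idx κ → Bool) → Prop} {f : ℕ → Idx κ} {q : QC} {n : ℕ}
    {p : ZFSet.{u}} : ZFSet.pair (check (quotO N) n) p ∈ dec N f q ↔
      p ∈ quotD N ∧ ∃ (k : ℕ) (S : MS), q n k = some S ∧ p = cls N (pull f S) := by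
  rw [dec, ZFSet.mem_sep, ZFSet.pair_mem_prod]
  constructor
  · rintro ⟨⟨_, h1⟩, m, k, S, h2, h3⟩
    obtain ⟨e1, rfl⟩ := ZFSet.pair_inj.1 h3
    rw [check_injective e1]
    exact ⟨h1, k, S, h2, rfl⟩
  · rintro ⟨h1, k, S, h2, rfl⟩
    exact ⟨⟨mem_omegaC.2 ⟨n, rfl⟩, h1⟩, n, k, S, h2, rfl⟩

theorem dec_elems {N : Set (Idx κ → Bool) → Prop} {f : ℕ → Idx κ} {q : QC} :
    ∀ z ∈ dec N f q, ∃ n : ℕ, ∃ p ∈ quotD N, z = ZFSet.pair (check (quotO N) n) p := by
  intro z hz
  rw [dec, ZFSet.mem_sep] at hz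
  obtain ⟨x, hx, p, hp, rfl⟩ := ZFSet.mem_prod.1 hz.1
  obtain ⟨n, rfl⟩ := mem_omegaC.1 hx
  exact ⟨n, p, hp, rfl⟩

theorem eq_of_pairs {D o a a' : ZFSet.{u}}
    (ha : ∀ z ∈ a, ∃ n : ℕ, ∃ p ∈ D, z = ZFSet.pair (check o n) p)
    (ha' : ∀ z ∈ a', ∃ n : ℕ, ∃ p ∈ D, z = ZFSet.pair (check o n) p)
    (h : ∀ n : ℕ, ∀ p ∈ D, ZFSet.pair (check o n) p ∈ a ↔ ZFSet.pair (check o n) p ∈ a') :
    a = a' := by
  ext z
  constructor
  · intro hz
    obtain ⟨n, p, hp, rfl⟩ := ha z hz
    exact (h n p hp).1 hz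
  · intro hz
    obtain ⟨n, p, hp, rfl⟩ := ha' z hz
    exact (h n p hp).2 hz

/-- Antichains of the quotient algebras are countable. -/
theorem countable_antichain {N : Set (Idx κ → Bool) → Prop} (hN : GoodIdeal N)
    {P : Set ZFSet.{u}} (hP : ∀ p ∈ P, p ∈ quotD N)
    (hanti : ∀ p ∈ P, ∀ q ∈ P, p ≠ q → Incompatible (quotD N) (quotR N) p q) : P.Countable := by
  have hrep : ∀ p : P, ∃ B, IsBaire B ∧ ¬ N B ∧ cls N B = p.1 := fun p => mem_quotD.1 (hP _ p.2)
  choose B hB1 hB2 hB3 using hrep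
  have hS : (Set.range B).Countable := by
    refine hN.ccc _ ?_ ?_
    · rintro _ ⟨p, rfl⟩; exact ⟨hB1 p, hB2 p⟩
    · rintro _ ⟨p, rfl⟩ _ ⟨q, rfl⟩ hpq
      have hne : p.1 ≠ q.1 := fun h => hpq (by rw [Subtype.ext h])
      by_contra hcon
      have hBC : IsBaire (B p ∩ B q) :=
        isBaire_iff.2 ((isBaire_iff.1 (hB1 p)).inter (isBaire_iff.1 (hB1 q)))
      refine hanti _ p.2 _ q.2 hne (cls N (B p ∩ B q)) (mem_quotD.2 ⟨_, hBC, hcon, rfl⟩) ⟨?_, ?_⟩
      · rw [← hB3 p, pair_mem_quotR hN hBC hcon (hB1 p) (hB2 p)]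
        refine hN.mono ?_ hN.empty
        rintro x ⟨⟨h1, _⟩, h2⟩; exact (h2 h1).elim
      · rw [← hB3 q, pair_mem_quotR hN hBC hcon (hB1 q) (hB2 q)]
        refine hN.mono ?_ hN.empty
        rintro x ⟨⟨_, h1⟩, h2⟩; exact (h2 h1).elim
  refine (hS.image (cls N)).mono ?_
  intro p hp
  exact ⟨B ⟨p, hp⟩, ⟨_, rfl⟩, hB3 ⟨p, hp⟩⟩

/-- Every nice name has a presentation. -/
theorem exists_dec {N : Set (Idx κ → Bool) → Prop} (hN : GoodIdeal N) [Nonempty (Idx κ)]
    {a : ZFSet.{u}} (ha : IsNiceName (quotD N) (quotR N) (quotO N) a) :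
    ∃ (f : ℕ → Idx κ) (q : QC), dec N f q = a := by
  classical
  -- enumerate the antichains
  have h1 : ∀ n : ℕ, ∃ u : ℕ → Option (Set (Idx κ → Bool)),
      (∀ k B, u k = some B → MeasurableSet B ∧ cls N B ∈ quotD N ∧
        ZFSet.pair (check (quotO N) n) (cls N B) ∈ a) ∧
      ∀ p ∈ quotD N, ZFSet.pair (check (quotO N) n) p ∈ a → ∃ k B, u k = some B ∧ cls N B = p := by
    intro n
    set P : Set ZFSet.{u} := {p | p ∈ quotD N ∧ ZFSet.pair (check (quotO N) n) p ∈ a} with hPdef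
    have hPc : P.Countable := countable_antichain hN (fun p hp => hp.1)
      fun p hp q hq hpq => ha.anti n p q hp.2 hq.2 hpq
    rcases P.eq_empty_or_nonempty with he | hne
    · refine ⟨fun _ => none, by simp, fun p hp hp' => ?_⟩
      have : p ∈ P := ⟨hp, hp'⟩
      rw [he] at this
      exact this.elim
    · obtain ⟨g, hg⟩ := hPc.exists_eq_range hne
      have hgm : ∀ k, g k ∈ P := fun k => by rw [hg]; exact ⟨k, rfl⟩
      have hrep : ∀ k, ∃ B, IsBaire B ∧ ¬ N B ∧ cls N B = g k := fun k =>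
        mem_quotD.1 (hgm k).1
      choose B hB1 hB2 hB3 using hrep
      refine ⟨fun k => some (B k), ?_, ?_⟩
      · intro k B' hB'
        obtain rfl := Option.some.inj hB'
        rw [hB3 k]
        exact ⟨isBaire_iff.1 (hB1 k), (hgm k).1, (hgm k).2⟩
      · intro p hp hp'
        have : p ∈ P := ⟨hp, hp'⟩
        rw [hg] at this
        obtain ⟨k, rfl⟩ := this
        exact ⟨k, B k, rfl, hB3 k⟩
  choose u hu1 hu2 using h1
  -- supports
  have h2 : ∀ j : ℕ, ∃ f : ℕ → Idx κ, ∀ B, u j.unpair.1 j.unpair.2 = some B →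
      ∃ S : MS, pull f S = B := by
    intro j
    rcases hj : u j.unpair.1 j.unpair.2 with _ | B
    · exact ⟨fun _ => Classical.arbitrary _, by simp⟩
    · obtain ⟨f, S, hS⟩ := exists_pull (hu1 _ _ B hj).1
      refine ⟨f, fun B' hB' => ?_⟩
      obtain rfl := Option.some.inj hB'
      exact ⟨S, hS⟩
  choose f hf using h2
  set F : ℕ → Idx κ := fun n => f n.unpair.1 n.unpair.2 with hF
  have h3 : ∀ n k B, u n k = some B → ∃ S : MS, pull F S = B := by
    intro n k B hB
    obtain ⟨S, hS⟩ := hf (Nat.pair n k) B (by rw [Nat.unpair_pair]; exact hB)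
    obtain ⟨S', hS'⟩ := pull_pair f (Nat.pair n k) S
    exact ⟨S', hS'.trans hS⟩
  have h4 : ∀ n k, ∃ r : Option MS, (∀ S, r = some S → u n k = some (pull F S)) ∧
      ∀ B, u n k = some B → ∃ S, r = some S ∧ pull F S = B := by
    intro n k
    rcases hB : u n k with _ | B
    · exact ⟨none, by simp, by simp⟩
    · obtain ⟨S, hS⟩ := h3 n k B hB
      refine ⟨some S, ?_, ?_⟩
      · intro S' hS'
        obtain rfl := Option.some.inj hS'
        rw [hS]
      · intro B' hB'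
        obtain rfl := Option.some.inj hB'
        exact ⟨S, rfl, hS⟩
  choose q hq1 hq2 using h4
  refine ⟨F, q, eq_of_pairs dec_elems ha.elems fun n p hp => ?_⟩
  rw [pair_mem_dec]
  constructor
  · rintro ⟨_, k, S, hS, rfl⟩
    exact (hu1 n k _ (hq1 n k S hS)).2.2
  · intro hpa
    obtain ⟨k, B, hB, rfl⟩ := hu2 n p hp hpa
    obtain ⟨S, hS, hS'⟩ := hq2 n k B hB
    exact ⟨hp, k, S, hS, by rw [hS']⟩

/-! ### Automorphisms induced by permutations -/

/-- The image of a set under a permutation of the coordinates. -/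
def permSet {ι : Type u} (π : ι ≃ ι) (B : Set (ι → Bool)) : Set (ι → Bool) := {x | x ∘ π ∈ B}

theorem permSet_baire {ι : Type u} (π : ι ≃ ι) {B : Set (ι → Bool)} (hB : IsBaire B) :
    IsBaire (permSet π B) := isBaire_iff.2 (measurable_comp π (isBaire_iff.1 hB))

theorem permSet_symm {ι : Type u} (π : ι ≃ ι) (B : Set (ι → Bool)) :
    permSet π.symm (permSet π B) = B := by
  ext x
  simp only [permSet, Set.mem_ofPred_eq]
  have : (x ∘ π.symm) ∘ π = x := by funext i; simp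
  rw [this]

theorem permSet_symm' {ι : Type u} (π : ι ≃ ι) (B : Set (ι → Bool)) :
    permSet π (permSet π.symm B) = B := by
  have := permSet_symm π.symm B
  simpa using this

theorem permSet_N {ι : Type u} {N : Set (ι → Bool) → Prop} (hN : GoodIdeal N) (π : ι ≃ ι)
    {B : Set (ι → Bool)} : N (permSet π B) ↔ N B := by
  constructor
  · intro h
    have := hN.perm π.symm _ h
    have e : {x | x ∘ π.symm ∈ permSet π B} = B := permSet_symm π B
    rwa [e] at this
  · intro h; exact hN.perm π B h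

/-- The map on conditions induced by a permutation of the coordinates. -/
noncomputable def permMap (N : Set (Idx κ → Bool) → Prop) (π : Idx κ ≃ Idx κ)
    (z : ZFSet.{u}) : ZFSet.{u} :=
  open Classical in
  if h : ∃ B, IsBaire B ∧ ¬ N B ∧ cls N B = z then cls N (permSet π h.choose) else z

theorem permMap_cls {N : Set (Idx κ → Bool) → Prop} (hN : GoodIdeal N) (π : Idx κ ≃ Idx κ)
    {B : Set (Idx κ → Bool)} (hB : IsBaire B) (hB' : ¬ N B) :
    permMap N π (cls N B) = cls N (permSet π B) := by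
  have h : ∃ B', IsBaire B' ∧ ¬ N B' ∧ cls N B' = cls N B := ⟨B, hB, hB', rfl⟩
  rw [permMap, dif_pos h, cls_eq_iff hN (permSet_baire π hB)]
  have h1 := (cls_eq_iff hN hB).1 h.choose_spec.2.2
  exact (permSet_N hN π).2 h1

theorem permMap_isAut {N : Set (Idx κ → Bool) → Prop} (hN : GoodIdeal N) (π : Idx κ ≃ Idx κ) :
    IsAut (quotD N) (quotR N) (permMap N π) where
  bij := by
    have hmaps : ∀ π : Idx κ ≃ Idx κ, ∀ z ∈ quotD N, permMap N π z ∈ quotD N := by
      intro π z hz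
      obtain ⟨B, h1, h2, rfl⟩ := mem_quotD.1 hz
      rw [permMap_cls hN π h1 h2]
      exact mem_quotD.2 ⟨_, permSet_baire π h1, fun h => h2 ((permSet_N hN π).1 h), rfl⟩
    have hinv : ∀ π : Idx κ ≃ Idx κ, ∀ z ∈ quotD N, permMap N π (permMap N π.symm z) = z := by
      intro π z hz
      obtain ⟨B, h1, h2, rfl⟩ := mem_quotD.1 hz
      rw [permMap_cls hN π.symm h1 h2, permMap_cls hN π (permSet_baire _ h1)
        (fun h => h2 ((permSet_N hN π.symm).1 h)), permSet_symm']
    refine ⟨hmaps π, ?_, ?_⟩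
    · intro z hz w hw h
      have h1 := hinv π.symm z hz
      have h2 := hinv π.symm w hw
      rw [Equiv.symm_symm] at h1 h2
      rw [← h1, ← h2, h]
    · intro z hz
      exact ⟨permMap N π.symm z, hmaps π.symm z hz, hinv π z hz⟩
  rel p hp q hq := by
    obtain ⟨A, h1, h2, rfl⟩ := mem_quotD.1 hp
    obtain ⟨B, h3, h4, rfl⟩ := mem_quotD.1 hq
    rw [permMap_cls hN π h1 h2, permMap_cls hN π h3 h4,
      pair_mem_quotR hN (permSet_baire π h1) (fun h => h2 ((permSet_N hN π).1 h))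
        (permSet_baire π h3) (fun h => h4 ((permSet_N hN π).1 h)),
      pair_mem_quotR hN h1 h2 h3 h4]
    exact permSet_N hN π (B := A \ B)

theorem permSet_pull {ι : Type u} (π : ι ≃ ι) (f : ℕ → ι) (S : MS) :
    permSet π (pull f S) = pull (π ∘ f) S := rfl

theorem cls_mem_quotD {N : Set (Idx κ → Bool) → Prop} (hN : GoodIdeal N)
    {B : Set (Idx κ → Bool)} (hB : IsBaire B) : cls N B ∈ quotD N ↔ ¬ N B := by
  constructor
  · intro h hNB
    obtain ⟨B', h1, h2, h3⟩ := mem_quotD.1 h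
    rw [cls_eq_iff hN hB] at h3
    refine h2 (hN.mono ?_ (hN.union h3 hNB))
    intro x hx
    by_cases hxB : x ∈ B
    · exact Or.inr hxB
    · exact Or.inl (Or.inl ⟨hx, hxB⟩)
  · intro h
    exact mem_quotD.2 ⟨B, hB, h, rfl⟩

theorem act_dec {N : Set (Idx κ → Bool) → Prop} (hN : GoodIdeal N) (π : Idx κ ≃ Idx κ)
    (f : ℕ → Idx κ) (q : QC) : act (permMap N π) (dec N f q) = dec N (π ∘ f) q := by
  have hA := permMap_isAut hN π
  have hF := isForcing_quot hN
  refine eq_of_pairs (act_elems hF hA dec_elems) dec_elems fun n z hz => ?_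
  obtain ⟨p, hp, rfl⟩ := hA.bij.surjOn hz
  have hp' : p ∈ quotD N := hp
  rw [pair_mem_act_nice hF hA dec_elems hp', pair_mem_dec, pair_mem_dec]
  constructor
  · rintro ⟨_, k, S, hS, rfl⟩
    have hB : IsBaire (pull f S) := isBaire_iff.2 (measurableSet_pull f S)
    have hB' := (cls_mem_quotD hN hB).1 hp'
    exact ⟨hz, k, S, hS, by rw [permMap_cls hN π hB hB', permSet_pull]⟩
  · rintro ⟨_, k, S, hS, he⟩
    refine ⟨hp', k, S, hS, ?_⟩
    have hB : IsBaire (pull f S) := isBaire_iff.2 (measurableSet_pull f S)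
    have hz' : permMap N π p ∈ quotD N := hz
    rw [he, ← permSet_pull, cls_mem_quotD hN (permSet_baire π hB), permSet_N hN] at hz'
    have h1 : permMap N π p = permMap N π (cls N (pull f S)) := by
      rw [he, permMap_cls hN π hB hz', permSet_pull]
    exact hA.bij.injOn hp' ((cls_mem_quotD hN hB).2 hz') h1

end Pool.Agent.TransProp
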