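import Mathlib
import Pool.Agent.Work.MP_b7a9b7_lc.Formulas

/-!
The abstract positive theorem: a coding of orbits of finite sequences of nice names by countable
ordinals, with countably many codes at each level of a rank function, gives the transformation
property.
-/

universe u v

open Cardinal Ordinal

namespace Pool.Agent.TransProp

variable {θ : Cardinal.{u}} {W : HSet θ → HSet θ → Prop}

/-- The natural number `n` as a set. -/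
noncomputable abbrev nZ (n : ℕ) : ZFSet.{u} := (n : Ordinal.{u}).toZFSet

/-- The set `ω₁`. -/
noncomputable abbrev omega1Z : ZFSet.{u} := (Ordinal.omega.{u} 1).toZFSet

/-- A finite sequence as a set. -/
noncomputable def seqZ {n : ℕ} (a : Fin n → ZFSet.{u}) : ZFSet.{u} :=
  ZFSet.range fun i : Fin n => ZFSet.pair (nZ (i : ℕ)) (a i)

theorem nZ_injective : Function.Injective (nZ.{u}) := by
  intro m n h
  have := Ordinal.toZFSet_injective h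
  exact_mod_cast this

theorem mem_nZ {n : ℕ} {x : ZFSet.{u}} : x ∈ nZ n ↔ ∃ m < n, nZ m = x := by
  rw [Ordinal.mem_toZFSet_iff]
  constructor
  · rintro ⟨a, ha, rfl⟩
    obtain ⟨m, rfl⟩ := Ordinal.lt_omega0.1 (ha.trans (Ordinal.natCast_lt_omega0 n))
    exact ⟨m, by exact_mod_cast ha, rfl⟩
  · rintro ⟨m, hm, rfl⟩
    exact ⟨m, by exact_mod_cast hm, rfl⟩

theorem mem_seqZ {n : ℕ} {a : Fin n → ZFSet.{u}} {z : ZFSet.{u}} :
    z ∈ seqZ a ↔ ∃ i : Fin n, ZFSet.pair (nZ (i : ℕ)) (a i) = z := by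
  rw [seqZ, ZFSet.mem_range]

theorem pair_mem_seqZ {n : ℕ} {a : Fin n → ZFSet.{u}} {i : Fin n} {y : ZFSet.{u}} :
    ZFSet.pair (nZ (i : ℕ)) y ∈ seqZ a ↔ y = a i := by
  rw [mem_seqZ]
  constructor
  · rintro ⟨j, hj⟩
    obtain ⟨h1, h2⟩ := ZFSet.pair_inj.1 hj
    have : j = i := Fin.ext (nZ_injective h1)
    rw [← h2, this]
  · rintro rfl; exact ⟨i, rfl⟩

theorem pair_nat_mem_seqZ {n : ℕ} {a : Fin n → ZFSet.{u}} {i : ℕ} :
    (∃ y, ZFSet.pair (nZ i) y ∈ seqZ a) ↔ i < n := by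
  constructor
  · rintro ⟨y, hy⟩
    obtain ⟨j, hj⟩ := mem_seqZ.1 hy
    rw [← nZ_injective (ZFSet.pair_inj.1 hj).1]
    exact j.2
  · intro hi
    exact ⟨a ⟨i, hi⟩, mem_seqZ.2 ⟨⟨i, hi⟩, rfl⟩⟩

theorem seqZ_inj {n n' : ℕ} {a : Fin n → ZFSet.{u}} {a' : Fin n' → ZFSet.{u}}
    (h : seqZ a = seqZ a') : ∃ e : n = n', ∀ i : Fin n, a i = a' (Fin.cast e i) := by
  have e : n = n' := by
    have : ∀ i, i < n ↔ i < n' := fun i => by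
      rw [← pair_nat_mem_seqZ (a := a), h, pair_nat_mem_seqZ]
    apply le_antisymm
    · by_contra hlt
      exact lt_irrefl _ ((this n').1 (not_le.1 hlt))
    · by_contra hlt
      exact lt_irrefl _ ((this n).2 (not_le.1 hlt))
  subst e
  refine ⟨rfl, fun i => ?_⟩
  have : ZFSet.pair (nZ (i : ℕ)) (a i) ∈ seqZ a' := h ▸ pair_mem_seqZ.2 rfl
  exact pair_mem_seqZ.1 this

/-- `s` is a sequence of nice names with domain `m`. -/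
def SeqP (θ : Cardinal.{u}) (C D R s m : ZFSet.{u}) : Prop :=
  (∀ z ∈ s, ∃ i ∈ m, ∃ a ∈ HSet θ, z = ZFSet.pair i a) ∧
  (∀ i ∈ m, ∃ a ∈ HSet θ, ZFSet.pair i a ∈ s ∧ NiceP C D R a) ∧
  ∀ i ∈ m, ∀ a ∈ HSet θ, ∀ a' ∈ HSet θ, ZFSet.pair i a ∈ s → ZFSet.pair i a' ∈ s → a = a'

theorem DefRel.seqP {n : ℕ} (i j k l m : Fin n) :
    DefRel θ W fun v => SeqP θ (v i) (v j) (v k) (v l) (v m) := by
  unfold SeqP
  exact DefRel.and (DefRel.ball (DefRel.bex (DefRel.exH (DefRel.eqPair _ _ _))))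
    (DefRel.and (DefRel.ball (DefRel.exH (DefRel.and (DefRel.pairMem _ _ _)
      (DefRel.niceP _ _ _ _))))
    (DefRel.ball (DefRel.allH (DefRel.allH (DefRel.imp (DefRel.pairMem _ _ _)
      (DefRel.imp (DefRel.pairMem _ _ _) (DefRel.eq _ _)))))))

theorem seqP_seqZ {D R o : ZFSet.{u}} {n : ℕ} {a : Fin n → ZFSet.{u}}
    (ha : ∀ i, IsNiceName D R o (a i)) (haH : ∀ i, a i ∈ HSet θ) :
    SeqP θ (omegaC o) D R (seqZ a) (nZ n) := by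
  refine ⟨?_, ?_, ?_⟩
  · intro z hz
    obtain ⟨i, rfl⟩ := mem_seqZ.1 hz
    exact ⟨_, mem_nZ.2 ⟨i, i.2, rfl⟩, a i, haH i, rfl⟩
  · intro i hi
    obtain ⟨j, hj, rfl⟩ := mem_nZ.1 hi
    exact ⟨a ⟨j, hj⟩, haH _, pair_mem_seqZ (i := ⟨j, hj⟩).2 rfl, niceP_iff.2 (ha _)⟩
  · intro i hi y _ y' _ h1 h2
    obtain ⟨j, hj, rfl⟩ := mem_nZ.1 hi
    rw [(pair_mem_seqZ (i := ⟨j, hj⟩)).1 h1, (pair_mem_seqZ (i := ⟨j, hj⟩)).1 h2]

theorem exists_seqZ {D R o : ZFSet.{u}} {n : ℕ} {s : ZFSet.{u}}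
    (h : SeqP θ (omegaC o) D R s (nZ n)) :
    ∃ a : Fin n → ZFSet.{u}, (∀ i, IsNiceName D R o (a i)) ∧ (∀ i, a i ∈ HSet θ) ∧
      s = seqZ a := by
  obtain ⟨h1, h2, h3⟩ := h
  have h2' : ∀ i : Fin n, ∃ a ∈ HSet θ, ZFSet.pair (nZ (i : ℕ)) a ∈ s ∧
      NiceP (omegaC o) D R a := fun i => h2 _ (mem_nZ.2 ⟨i, i.2, rfl⟩)
  choose a ha1 ha2 ha3 using h2'
  refine ⟨a, fun i => niceP_iff.1 (ha3 i), ha1, ?_⟩
  ext z
  rw [mem_seqZ]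
  constructor
  · intro hz
    obtain ⟨i, hi, y, hy, rfl⟩ := h1 z hz
    obtain ⟨j, hj, rfl⟩ := mem_nZ.1 hi
    refine ⟨⟨j, hj⟩, ?_⟩
    rw [h3 _ hi _ (ha1 ⟨j, hj⟩) _ hy (ha2 ⟨j, hj⟩) hz]
  · rintro ⟨i, rfl⟩
    exact ha2 i

/-- The property of the coding used in the proof, over `H(θ)`. -/
def GoodH (θ : Cardinal.{u}) (C D R w O t : ZFSet.{u}) : Prop :=
  ∃ tP ∈ HSet θ, ∃ tE ∈ HSet θ, ∃ tc ∈ HSet θ, ∃ t' ∈ HSet θ,
    (t' = ZFSet.pair tE tc ∧ t = ZFSet.pair tP t') ∧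
    (∀ a ∈ HSet θ, NiceP C D R a → ∃ ξ ∈ O, ZFSet.pair a ξ ∈ tP) ∧
    (∀ x ∈ HSet θ, ∀ y ∈ HSet θ, ∀ y' ∈ HSet θ,
      ZFSet.pair x y ∈ tE → ZFSet.pair x y' ∈ tE → y = y') ∧
    (∀ m ∈ w, ∀ s ∈ HSet θ, SeqP θ C D R s m → ∀ ξ ∈ O,
      (∀ i ∈ m, ∀ a ∈ HSet θ, ZFSet.pair i a ∈ s → ∃ ξ' ∈ O, ξ' ⊆ ξ ∧ ZFSet.pair a ξ' ∈ tP) →
      ∃ k ∈ w, ∃ γ ∈ O, ∃ x ∈ HSet θ, x = ZFSet.pair ξ k ∧ ZFSet.pair x γ ∈ tE ∧
        ZFSet.pair s γ ∈ tc) ∧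
    ∀ m ∈ w, ∀ s ∈ HSet θ, ∀ s' ∈ HSet θ, ∀ γ ∈ HSet θ, SeqP θ C D R s m → SeqP θ C D R s' m →
      ZFSet.pair s γ ∈ tc → ZFSet.pair s' γ ∈ tc → ∃ g ∈ HSet θ, AutP D R g ∧
        ∀ i ∈ m, ∀ a ∈ HSet θ, ∀ a' ∈ HSet θ, ZFSet.pair i a ∈ s → ZFSet.pair i a' ∈ s' →
          ActP C D g a a'

theorem DefRel.goodH {n : ℕ} (i j k l m p : Fin n) :
    DefRel θ W fun v => GoodH θ (v i) (v j) (v k) (v l) (v m) (v p) := by
  unfold GoodH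
  refine DefRel.exH (DefRel.exH (DefRel.exH (DefRel.exH (DefRel.and
    (DefRel.and (DefRel.eqPair _ _ _) (DefRel.eqPair _ _ _)) (DefRel.and ?_ (DefRel.and ?_
    (DefRel.and ?_ ?_)))))))
  · exact DefRel.allH (DefRel.imp (DefRel.niceP _ _ _ _) (DefRel.bex (DefRel.pairMem _ _ _)))
  · exact DefRel.allH (DefRel.allH (DefRel.allH (DefRel.imp (DefRel.pairMem _ _ _)
      (DefRel.imp (DefRel.pairMem _ _ _) (DefRel.eq _ _)))))
  · exact DefRel.ball (DefRel.allH (DefRel.imp (DefRel.seqP _ _ _ _ _) (DefRel.ball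
      (DefRel.imp (DefRel.ball (DefRel.allH (DefRel.imp (DefRel.pairMem _ _ _)
        (DefRel.bex (DefRel.and (DefRel.subset _ _) (DefRel.pairMem _ _ _))))))
      (DefRel.bex (DefRel.bex (DefRel.exH (DefRel.and (DefRel.eqPair _ _ _)
        (DefRel.and (DefRel.pairMem _ _ _) (DefRel.pairMem _ _ _))))))))))
  · exact DefRel.ball (DefRel.allH (DefRel.allH (DefRel.allH (DefRel.imp (DefRel.seqP _ _ _ _ _)
      (DefRel.imp (DefRel.seqP _ _ _ _ _) (DefRel.imp (DefRel.pairMem _ _ _)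
      (DefRel.imp (DefRel.pairMem _ _ _) (DefRel.exH (DefRel.and (DefRel.autP _ _ _)
        (DefRel.ball (DefRel.allH (DefRel.allH (DefRel.imp (DefRel.pairMem _ _ _)
          (DefRel.imp (DefRel.pairMem _ _ _) (DefRel.actP _ _ _ _ _)))))))))))))))

end Pool.Agent.TransProp
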