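import Mathlib
import Pool.Agent.Work.MP_b7a9b7_lc.Pos

/-!
The abstract positive theorem, continued.
-/

universe u v

open Cardinal Ordinal

namespace Pool.Agent.TransProp

variable {θ : Cardinal.{u}} {W : HSet θ → HSet θ → Prop}

/-- The data of a coding of the orbits of finite sequences of nice names. -/
structure Coding (D R o : ZFSet.{u}) where
  /-- rank function on names -/
  Φ : ZFSet.{u} → Ordinal.{u}
  /-- code of a finite sequence of names -/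
  c : (n : ℕ) → (Fin n → ZFSet.{u}) → Ordinal.{u}
  Φ_lt : ∀ a, Φ a < Ordinal.omega 1
  c_lt : ∀ n a, c n a < Ordinal.omega 1
  orb : ∀ (n : ℕ) (a a' : Fin n → ZFSet.{u}), (∀ i, IsNiceName D R o (a i)) →
    (∀ i, IsNiceName D R o (a' i)) → c n a = c n a' →
    ∃ h : ZFSet.{u} → ZFSet.{u}, IsAut D R h ∧ ∀ i, act h (a i) = a' i
  ctbl : ∀ (n : ℕ), ∀ ξ < Ordinal.omega.{u} 1,
    {γ | ∃ a : Fin n → ZFSet.{u}, (∀ i, IsNiceName D R o (a i) ∧ Φ (a i) ≤ ξ) ∧ γ = c n a}.Countable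

theorem IsNiceName.mem_nameSpace {D R o a : ZFSet.{u}} (h : IsNiceName D R o a) :
    a ∈ nameSpace D o := Pool.Agent.TransProp.mem_nameSpace.2 h.elems

theorem seqZ_mem {D R o : ZFSet.{u}} {n : ℕ} {a : Fin n → ZFSet.{u}}
    (ha : ∀ i, IsNiceName D R o (a i)) :
    seqZ a ∈ ZFSet.powerset (ZFSet.prod omegaZ (nameSpace D o)) := by
  rw [ZFSet.mem_powerset]
  intro z hz
  obtain ⟨i, rfl⟩ := mem_seqZ.1 hz
  exact ZFSet.pair_mem_prod.2 ⟨mem_omegaZ.2 ⟨_, rfl⟩, (ha i).mem_nameSpace⟩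

theorem exists_enum {D R o : ZFSet.{u}} (K : Coding D R o) :
    ∃ e : Ordinal.{u} → ℕ → Ordinal.{u}, (∀ ξ k, e ξ k < Ordinal.omega 1) ∧
      ∀ (n : ℕ) (a : Fin n → ZFSet.{u}), ∀ ξ < Ordinal.omega.{u} 1,
        (∀ i, IsNiceName D R o (a i) ∧ K.Φ (a i) ≤ ξ) → ∃ k, e ξ k = K.c n a := by
  have h : ∀ ξ : Ordinal.{u}, ∃ e : ℕ → Ordinal.{u}, (∀ k, e k < Ordinal.omega 1) ∧
      (ξ < Ordinal.omega 1 → ∀ (n : ℕ) (a : Fin n → ZFSet.{u}),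
        (∀ i, IsNiceName D R o (a i) ∧ K.Φ (a i) ≤ ξ) → ∃ k, e k = K.c n a) := by
    intro ξ
    by_cases hξ : ξ < Ordinal.omega 1
    · set S : Set Ordinal.{u} := ⋃ n : ℕ, {γ | ∃ a : Fin n → ZFSet.{u},
        (∀ i, IsNiceName D R o (a i) ∧ K.Φ (a i) ≤ ξ) ∧ γ = K.c n a} with hS
      have hSc : S.Countable := Set.countable_iUnion fun n => K.ctbl n ξ hξ
      have hSne : S.Nonempty := ⟨K.c 0 Fin.elim0, Set.mem_iUnion.2 ⟨0, Fin.elim0,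
        fun i => Fin.elim0 i, rfl⟩⟩
      obtain ⟨e, he⟩ := hSc.exists_eq_range hSne
      refine ⟨e, fun k => ?_, fun _ n a ha => ?_⟩
      · have : e k ∈ S := by rw [he]; exact ⟨k, rfl⟩
        obtain ⟨n, a, _, h⟩ := Set.mem_iUnion.1 this
        rw [h]; exact K.c_lt _ _
      · have : K.c n a ∈ S := Set.mem_iUnion.2 ⟨n, a, ha, rfl⟩
        rw [he] at this
        exact this
    · have hpos : (0 : Ordinal.{u}) < Ordinal.omega 1 :=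
        lt_of_le_of_lt zero_le Ordinal.omega0_lt_omega_one
      exact ⟨fun _ => 0, fun _ => hpos, fun h => absurd h hξ⟩
  choose e he1 he2 using h
  exact ⟨e, he1, fun n a ξ hξ ha => he2 ξ hξ n a ha⟩

/-- The real coding satisfies the formula. -/
theorem exists_goodH {D R o : ZFSet.{u}} (hP : IsForcing D R o) (K : Coding D R o) :
    ∃ t : ZFSet.{u}, ∃ θ₀ : Cardinal.{u}, ∀ θ ≥ θ₀, t ∈ HSet θ ∧
      GoodH θ (omegaC o) D R omegaZ omega1Z t := by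
  classical
  obtain ⟨e, he1, he2⟩ := exists_enum K
  set N := nameSpace D o with hN
  set tP : ZFSet.{u} := ZFSet.sep (fun z => ∃ a, z = ZFSet.pair a (K.Φ a).toZFSet)
    (ZFSet.prod N omega1Z) with htP
  set tE : ZFSet.{u} := ZFSet.sep (fun z => ∃ (ξ : Ordinal.{u}) (k : ℕ),
      z = ZFSet.pair (ZFSet.pair ξ.toZFSet (nZ k)) (e ξ k).toZFSet)
    (ZFSet.prod (ZFSet.prod omega1Z omegaZ) omega1Z) with htE
  set tc : ZFSet.{u} := ZFSet.sep (fun z => ∃ (n : ℕ) (a : Fin n → ZFSet.{u}),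
      (∀ i, IsNiceName D R o (a i)) ∧ z = ZFSet.pair (seqZ a) (K.c n a).toZFSet)
    (ZFSet.prod (ZFSet.powerset (ZFSet.prod omegaZ N)) omega1Z) with htc
  have hΦZ : ∀ a, (K.Φ a).toZFSet ∈ omega1Z.{u} := fun a =>
    Ordinal.toZFSet_mem_toZFSet_iff.2 (K.Φ_lt a)
  have hcZ : ∀ n a, (K.c n a).toZFSet ∈ omega1Z.{u} := fun n a =>
    Ordinal.toZFSet_mem_toZFSet_iff.2 (K.c_lt n a)
  have heZ : ∀ ξ k, (e ξ k).toZFSet ∈ omega1Z.{u} := fun ξ k =>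
    Ordinal.toZFSet_mem_toZFSet_iff.2 (he1 ξ k)
  have mem_tP : ∀ a ξ, ZFSet.pair a ξ ∈ tP ↔ a ∈ N ∧ ξ = (K.Φ a).toZFSet := by
    intro a ξ
    rw [htP, ZFSet.mem_sep, ZFSet.pair_mem_prod]
    constructor
    · rintro ⟨⟨h1, h2⟩, a', e'⟩
      obtain ⟨rfl, rfl⟩ := ZFSet.pair_inj.1 e'
      exact ⟨h1, rfl⟩
    · rintro ⟨h1, rfl⟩
      exact ⟨⟨h1, hΦZ a⟩, a, rfl⟩
  have mem_tE : ∀ x y, ZFSet.pair x y ∈ tE ↔ ∃ ξ < Ordinal.omega.{u} 1, ∃ k : ℕ,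
      x = ZFSet.pair ξ.toZFSet (nZ k) ∧ y = (e ξ k).toZFSet := by
    intro x y
    rw [htE, ZFSet.mem_sep, ZFSet.pair_mem_prod]
    constructor
    · rintro ⟨⟨h1, h2⟩, ξ, k, e'⟩
      obtain ⟨rfl, rfl⟩ := ZFSet.pair_inj.1 e'
      rw [ZFSet.pair_mem_prod] at h1
      exact ⟨ξ, Ordinal.toZFSet_mem_toZFSet_iff.1 h1.1, k, rfl, rfl⟩
    · rintro ⟨ξ, hξ, k, rfl, rfl⟩
      exact ⟨⟨ZFSet.pair_mem_prod.2 ⟨Ordinal.toZFSet_mem_toZFSet_iff.2 hξ,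
        mem_omegaZ.2 ⟨k, rfl⟩⟩, heZ ξ k⟩, ξ, k, rfl⟩
  have mem_tc : ∀ {n : ℕ} {a : Fin n → ZFSet.{u}} {γ : ZFSet.{u}},
      (∀ i, IsNiceName D R o (a i)) → (ZFSet.pair (seqZ a) γ ∈ tc ↔ γ = (K.c n a).toZFSet) := by
    intro n a γ ha
    rw [htc, ZFSet.mem_sep, ZFSet.pair_mem_prod]
    constructor
    · rintro ⟨_, n', a', ha', e'⟩
      obtain ⟨h1, rfl⟩ := ZFSet.pair_inj.1 e'
      obtain ⟨rfl, h2⟩ := seqZ_inj h1
      have : a = a' := funext h2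
      rw [this]
    · rintro rfl
      exact ⟨⟨seqZ_mem ha, hcZ n a⟩, n, a, ha, rfl⟩
  refine ⟨ZFSet.pair tP (ZFSet.pair tE tc), ?_⟩
  obtain ⟨θ₀, hθ₀⟩ := exists_HSet_of_finset.{u} {ZFSet.pair tP (ZFSet.pair tE tc), N,
    ZFSet.powerset (ZFSet.prod omegaZ N), ZFSet.powerset (ZFSet.prod D D),
    ZFSet.prod omega1Z omegaZ}
  refine ⟨θ₀, fun θ hθ => ?_⟩
  have hH := hθ₀ θ hθ
  have hT : ZFSet.pair tP (ZFSet.pair tE tc) ∈ HSet θ := hH _ (by simp)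
  have hNH : N ∈ HSet θ := hH _ (by simp)
  have hSH : ZFSet.powerset (ZFSet.prod omegaZ N) ∈ HSet θ := hH _ (by simp)
  have hDH : ZFSet.powerset (ZFSet.prod D D) ∈ HSet θ := hH _ (by simp)
  have hOH : ZFSet.prod omega1Z omegaZ ∈ HSet θ := hH _ (by simp)
  have pair_left : ∀ {x y : ZFSet.{u}}, ZFSet.pair x y ∈ HSet θ → x ∈ HSet θ ∧ y ∈ HSet θ := by
    intro x y h
    have h1 : ({x, y} : ZFSet.{u}) ∈ HSet θ := HSet.mem h (by simp [ZFSet.pair])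
    exact ⟨HSet.mem h1 (by simp), HSet.mem h1 (by simp)⟩
  refine ⟨hT, tP, (pair_left hT).1, tE, (pair_left (pair_left hT).2).1, tc,
    (pair_left (pair_left hT).2).2, ZFSet.pair tE tc, (pair_left hT).2, ⟨rfl, rfl⟩,
    ?_, ?_, ?_, ?_⟩
  · intro a _ ha
    exact ⟨_, hΦZ a, (mem_tP _ _).2 ⟨(niceP_iff.1 ha).mem_nameSpace, rfl⟩⟩
  · intro x _ y _ y' _ h1 h2
    obtain ⟨ξ, _, k, e1, rfl⟩ := (mem_tE _ _).1 h1
    obtain ⟨ξ', _, k', e2, rfl⟩ := (mem_tE _ _).1 h2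
    rw [e1] at e2
    obtain ⟨e3, e4⟩ := ZFSet.pair_inj.1 e2
    rw [Ordinal.toZFSet_injective e3, nZ_injective e4]
  · intro m hm s hs hsP ξ hξ hmax
    obtain ⟨n, rfl⟩ := mem_omegaZ.1 hm
    obtain ⟨a, ha, haH, rfl⟩ := exists_seqZ hsP
    obtain ⟨x, hx, rfl⟩ := Ordinal.mem_toZFSet_iff.1 hξ
    have hle : ∀ i, IsNiceName D R o (a i) ∧ K.Φ (a i) ≤ x := by
      intro i
      refine ⟨ha i, ?_⟩
      obtain ⟨ξ', _, h2, h3⟩ := hmax (nZ i) (mem_nZ.2 ⟨i, i.2, rfl⟩) (a i) (haH i)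
        (pair_mem_seqZ.2 rfl)
      rw [((mem_tP _ _).1 h3).2, Ordinal.toZFSet_subset_toZFSet_iff] at h2
      exact h2
    obtain ⟨k, hk⟩ := he2 n a x hx hle
    refine ⟨nZ k, mem_omegaZ.2 ⟨k, rfl⟩, (K.c n a).toZFSet, hcZ n a, ZFSet.pair x.toZFSet (nZ k),
      HSet.mem hOH (ZFSet.pair_mem_prod.2 ⟨hξ, mem_omegaZ.2 ⟨k, rfl⟩⟩), rfl, ?_, ?_⟩
    · exact (mem_tE _ _).2 ⟨x, hx, k, rfl, by rw [hk]⟩
    · exact (mem_tc ha).2 rfl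
  · intro m hm s hs s' hs' γ _ hsP hsP' h1 h2
    obtain ⟨n, rfl⟩ := mem_omegaZ.1 hm
    obtain ⟨a, ha, haH, rfl⟩ := exists_seqZ hsP
    obtain ⟨a', ha', haH', rfl⟩ := exists_seqZ hsP'
    have h3 : K.c n a = K.c n a' := by
      have := ((mem_tc ha).1 h1).symm.trans ((mem_tc ha').1 h2)
      exact Ordinal.toZFSet_injective this
    obtain ⟨h, hA, hh⟩ := K.orb n a a' ha ha' h3
    refine ⟨autGraph D h, HSet.mem hDH (ZFSet.mem_powerset.2 ZFSet.sep_subset),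
      autP_autGraph hA, ?_⟩
    intro i hi y _ y' _ h4 h5
    obtain ⟨j, hj, rfl⟩ := mem_nZ.1 hi
    rw [(pair_mem_seqZ (i := ⟨j, hj⟩)).1 h4, (pair_mem_seqZ (i := ⟨j, hj⟩)).1 h5]
    exact actP_autGraph hP hA (ha _) (hh _)

end Pool.Agent.TransProp
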