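import Mathlib
import Pool.Agent.Work.MP_b7a9b7_lc.Pos2

/-!
The abstract positive theorem, conclusion.
-/

universe u v

open Cardinal Ordinal

namespace Pool.Agent.TransProp

variable {θ : Cardinal.{u}} {W : HSet θ → HSet θ → Prop}

theorem HSet.pair_left {x y : ZFSet.{u}} (h : ZFSet.pair x y ∈ HSet θ) : x ∈ HSet θ :=
  HSet.mem (HSet.mem h (by simp [ZFSet.pair] : ({x, y} : ZFSet.{u}) ∈ ZFSet.pair x y)) (by simp)

theorem HSet.pair_right {x y : ZFSet.{u}} (h : ZFSet.pair x y ∈ HSet θ) : y ∈ HSet θ :=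
  HSet.mem (HSet.mem h (by simp [ZFSet.pair] : ({x, y} : ZFSet.{u}) ∈ ZFSet.pair x y)) (by simp)

theorem SubH.pair_parts (M : SubH θ W) {x y : ZFSet.{u}} (h : ZFSet.pair x y ∈ M.carrier) :
    x ∈ M.carrier ∧ y ∈ M.carrier := by
  have hH := M.mem_HSet h
  constructor
  · obtain ⟨z, hz, w, _, hw⟩ := M.exists_mem
      (R := fun v z => ∃ w ∈ HSet θ, v 0 = ZFSet.pair z w)
      (DefRel.exH (DefRel.eqPair _ _ _)) ![ZFSet.pair x y] (by
        intro i; fin_cases i; exact h) ⟨x, HSet.pair_left hH, y, HSet.pair_right hH, rfl⟩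
    have hw' : ZFSet.pair x y = ZFSet.pair z w := hw
    rwa [(ZFSet.pair_inj.1 hw').1]
  · obtain ⟨z, hz, w, _, hw⟩ := M.exists_mem
      (R := fun v z => ∃ w ∈ HSet θ, v 0 = ZFSet.pair w z)
      (DefRel.exH (DefRel.eqPair _ _ _)) ![ZFSet.pair x y] (by
        intro i; fin_cases i; exact h) ⟨y, HSet.pair_right hH, x, HSet.pair_left hH, rfl⟩
    have hw' : ZFSet.pair x y = ZFSet.pair w z := hw
    rwa [(ZFSet.pair_inj.1 hw').2]

theorem SubH.nZ_mem (M : SubH θ W) (hω : omegaZ.{u} ∈ HSet θ) (n : ℕ) : nZ n ∈ M.carrier := by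
  induction n with
  | zero =>
    obtain ⟨z, hz, hz'⟩ := M.exists_mem (n := 0) (R := fun _ z => z = ∅)
      (DefRel.isEmpty _) (fun i => Fin.elim0 i) (fun i => Fin.elim0 i)
      ⟨∅, HSet.mem hω (mem_omegaZ.2 ⟨0, by simp⟩), rfl⟩
    have e : nZ.{u} 0 = ∅ := by simp [nZ]
    rw [e]; rwa [hz'] at hz
  | succ n ih =>
    have e : nZ.{u} (n + 1) = insert (nZ n) (nZ n) := by
      have : ((n + 1 : ℕ) : Ordinal.{u}) = (n : Ordinal.{u}) + 1 := by push_cast; rfl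
      rw [nZ, this, Ordinal.toZFSet_add_one]
    obtain ⟨z, hz, hz'⟩ := M.exists_mem (R := fun v z => z = insert (v 0) (v 0))
      (DefRel.eqInsert _ _ _) ![nZ n] (by intro i; fin_cases i; exact ih)
      ⟨insert (nZ n) (nZ n), e ▸ HSet.mem hω (mem_omegaZ.2 ⟨n + 1, rfl⟩), rfl⟩
    have hz'' : z = insert (nZ n) (nZ n) := hz'
    rw [e]; rwa [hz''] at hz

theorem height_mono {n : ℕ} {M : Fin (n + 1) → SubH θ W}
    (h : ∀ i : Fin n, (M i.castSucc).height ⊆ (M i.succ).height) (i : Fin (n + 1)) :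
    (M i).height ⊆ (M (Fin.last n)).height := by
  have key : Monotone fun i => (M i).height := Fin.monotone_iff_le_succ.2 h
  exact key (Fin.le_last i)

set_option maxHeartbeats 4000000 in
theorem TPAt_of_coding {D R o : ZFSet.{u}} (hP : IsForcing D R o) (K : Coding D R o) :
    ∃ θ₀ : Cardinal.{u}, ∀ θ ≥ θ₀, ∀ W : HSet θ → HSet θ → Prop, IsWellOrder (HSet θ) W →
      TPAt θ W D R o := by
  classical
  obtain ⟨t₀, θ₁, ht₀⟩ := exists_goodH hP K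
  obtain ⟨θ₂, hθ₂⟩ := exists_HSet_of_finset.{u} {ZFSet.pair D R, nameSpace D o,
    ZFSet.powerset (ZFSet.prod omegaZ (nameSpace D o)), ZFSet.powerset (ZFSet.prod D D),
    ZFSet.prod omega1Z omegaZ, omegaZ, omegaC o, omega1Z,
    ZFSet.powerset (ZFSet.prod omegaZ (Ordinal.omega.{u} 1).toZFSet)}
  refine ⟨max θ₁ θ₂, fun θ hθ W hW => ?_⟩
  obtain ⟨ht₀H, ht₀g⟩ := ht₀ θ ((le_max_left _ _).trans hθ)
  have hH := hθ₂ θ ((le_max_right _ _).trans hθ)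
  have hPH : ZFSet.pair D R ∈ HSet θ := hH _ (by simp)
  have hNH : nameSpace D o ∈ HSet θ := hH _ (by simp)
  have hSH : ZFSet.powerset (ZFSet.prod omegaZ (nameSpace D o)) ∈ HSet θ := hH _ (by simp)
  have hDH : ZFSet.powerset (ZFSet.prod D D) ∈ HSet θ := hH _ (by simp)
  have hOH : ZFSet.prod omega1Z omegaZ ∈ HSet θ := hH _ (by simp)
  have hωH : omegaZ.{u} ∈ HSet θ := hH _ (by simp)
  have hCH : omegaC o ∈ HSet θ := hH _ (by simp)
  have h1H : omega1Z.{u} ∈ HSet θ := hH _ (by simp)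
  have hfH : ZFSet.powerset (ZFSet.prod omegaZ (Ordinal.omega.{u} 1).toZFSet) ∈ HSet θ :=
    hH _ (by simp)
  -- the least good coding
  obtain ⟨t, htH, ⟨tP, htP, tE, htE, tc, htc, t', ht', ⟨e1, e2⟩, g1, g2, g3, g4⟩, htM⟩ :=
    SubH.exists_least (W := W) (R := fun v x => GoodH θ (v 0) (v 1) (v 2) (v 3) (v 4) x)
    (DefRel.goodH _ _ _ _ _ _) ![omegaC o, D, R, omegaZ, omega1Z] ⟨t₀, ht₀H, ht₀g⟩
  replace g1 : ∀ a ∈ HSet θ, NiceP (omegaC o) D R a → ∃ ξ ∈ omega1Z, ZFSet.pair a ξ ∈ tP := g1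
  replace g3 : ∀ m ∈ omegaZ, ∀ s ∈ HSet θ, SeqP θ (omegaC o) D R s m → ∀ ξ ∈ omega1Z,
      (∀ i ∈ m, ∀ a ∈ HSet θ, ZFSet.pair i a ∈ s → ∃ ξ' ∈ omega1Z, ξ' ⊆ ξ ∧
        ZFSet.pair a ξ' ∈ tP) →
      ∃ k ∈ omegaZ, ∃ γ ∈ omega1Z, ∃ x ∈ HSet θ, x = ZFSet.pair ξ k ∧ ZFSet.pair x γ ∈ tE ∧
        ZFSet.pair s γ ∈ tc := g3
  replace g4 : ∀ m ∈ omegaZ, ∀ s ∈ HSet θ, ∀ s' ∈ HSet θ, ∀ γ ∈ HSet θ,
      SeqP θ (omegaC o) D R s m → SeqP θ (omegaC o) D R s' m →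
      ZFSet.pair s γ ∈ tc → ZFSet.pair s' γ ∈ tc → ∃ g ∈ HSet θ, AutP D R g ∧
        ∀ i ∈ m, ∀ a ∈ HSet θ, ∀ a' ∈ HSet θ, ZFSet.pair i a ∈ s → ZFSet.pair i a' ∈ s' →
          ActP (omegaC o) D g a a' := g4
  intro n M a hPM hht ha
  -- membership of the basic objects in the models
  have hDM : ∀ i, D ∈ (M i).carrier := fun i => ((M i).pair_parts (hPM i)).1
  have hRM : ∀ i, R ∈ (M i).carrier := fun i => ((M i).pair_parts (hPM i)).2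
  have hoH : o ∈ HSet θ := HSet.mem (HSet.pair_left hPH) hP.one_mem
  have hoM : ∀ i, o ∈ (M i).carrier := by
    intro i
    obtain ⟨z, hz, hz1, hz2⟩ := (M i).exists_mem
      (R := fun v z => z ∈ v 0 ∧ ∀ p ∈ v 0, ZFSet.pair p z ∈ v 1)
      (DefRel.and (DefRel.mem _ _) (DefRel.ball (DefRel.pairMem _ _ _))) ![D, R] (by
        intro j; fin_cases j; exacts [hDM i, hRM i]) ⟨o, hoH, hP.one_mem, hP.le_one⟩
    have : z = o := hP.antisymm z hz1 o hP.one_mem (hP.le_one z hz1) (hz2 o hP.one_mem)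
    rwa [this] at hz
  have hωM : ∀ i, omegaZ ∈ (M i).carrier := by
    intro i
    obtain ⟨z, hz, hz'⟩ := (M i).exists_mem (n := 0) (R := fun _ z => IsOmegaH θ z)
      (DefRel.isOmegaH _) (fun i => Fin.elim0 i) (fun i => Fin.elim0 i)
      ⟨omegaZ, hωH, (isOmegaH_iff hωH).2 rfl⟩
    rwa [(isOmegaH_iff hωH).1 hz'] at hz
  have hCM : ∀ i, omegaC o ∈ (M i).carrier := by
    intro i
    obtain ⟨z, hz, hz'⟩ := (M i).exists_mem (R := fun v z => IsOmegaCH θ (v 0) z)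
      (DefRel.isOmegaCH _ _) ![o] (by intro j; fin_cases j; exact hoM i)
      ⟨omegaC o, hCH, (isOmegaCH_iff hCH).2 rfl⟩
    rwa [(isOmegaCH_iff hCH).1 hz'] at hz
  have h1M : ∀ i, omega1Z ∈ (M i).carrier := by
    intro i
    obtain ⟨z, hz, hz'⟩ := (M i).exists_mem (R := fun v z => IsOmega1H θ (v 0) z)
      (DefRel.isOmega1H _ _) ![omegaZ] (by intro j; fin_cases j; exact hωM i)
      ⟨omega1Z, h1H, (isOmega1H_iff hfH h1H h1H).2 rfl⟩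
    rwa [(isOmega1H_iff hfH h1H ((M i).mem_HSet hz)).1 hz'] at hz
  have htM' : ∀ i, t ∈ (M i).carrier := fun i => htM (M i) (by
    intro j
    fin_cases j
    exacts [hCM i, hDM i, hRM i, hωM i, h1M i])
  have htPM : ∀ i, tP ∈ (M i).carrier := fun i => ((M i).pair_parts (e2 ▸ htM' i)).1
  have ht'M : ∀ i, ZFSet.pair tE tc ∈ (M i).carrier := fun i =>
    e1 ▸ ((M i).pair_parts (e2 ▸ htM' i)).2
  have htEM : ∀ i, tE ∈ (M i).carrier := fun i => ((M i).pair_parts (ht'M i)).1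
  have htcM : ∀ i, tc ∈ (M i).carrier := fun i => ((M i).pair_parts (ht'M i)).2
  have haH : ∀ i, a i ∈ HSet θ := fun i => (M i).mem_HSet (ha i).2
  -- the ranks
  have hrank : ∀ i, ∃ α < Ordinal.omega.{u} 1, α.toZFSet ∈ (M (Fin.last n)).carrier ∧
      ZFSet.pair (a i) α.toZFSet ∈ tP := by
    intro i
    obtain ⟨ξ₀, hξ₀, hξ₀'⟩ := g1 (a i) (haH i) (niceP_iff.2 (ha i).1)
    obtain ⟨ξ, hξ, hξ1, hξ2⟩ := (M i).exists_mem
      (R := fun v z => z ∈ v 2 ∧ ZFSet.pair (v 0) z ∈ v 1)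
      (DefRel.and (DefRel.mem _ _) (DefRel.pairMem _ _ _)) ![a i, tP, omega1Z] (by
        intro j; fin_cases j; exacts [(ha i).2, htPM i, h1M i])
      ⟨ξ₀, HSet.mem h1H hξ₀, hξ₀, hξ₀'⟩
    obtain ⟨α, hα, rfl⟩ := Ordinal.mem_toZFSet_iff.1 hξ1
    exact ⟨α, hα, (height_mono hht i ⟨hξ, hξ1⟩).1, hξ2⟩
  choose α hα1 hα2 hα3 using hrank
  obtain ⟨j, _, hj⟩ := Finset.exists_max_image (Finset.univ : Finset (Fin (n + 1))) α
    ⟨0, Finset.mem_univ _⟩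
  set L := Fin.last n with hL
  -- the code
  have hseqH : seqZ a ∈ HSet θ := HSet.mem hSH (seqZ_mem fun i => (ha i).1)
  have hseqP : SeqP θ (omegaC o) D R (seqZ a) (nZ (n + 1)) :=
    seqP_seqZ (fun i => (ha i).1) haH
  obtain ⟨k, hk, γ, hγ, x, hxH, rfl, hxE, hxc⟩ := g3 (nZ (n + 1)) (mem_omegaZ.2 ⟨_, rfl⟩)
    (seqZ a) hseqH hseqP (α j).toZFSet (Ordinal.toZFSet_mem_toZFSet_iff.2 (hα1 j)) (by
      intro i hi y _ hy
      obtain ⟨m, hm, rfl⟩ := mem_nZ.1 hi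
      have e := (pair_mem_seqZ (i := ⟨m, hm⟩)).1 hy
      exact ⟨(α ⟨m, hm⟩).toZFSet, Ordinal.toZFSet_mem_toZFSet_iff.2 (hα1 _),
        Ordinal.toZFSet_subset_toZFSet_iff.2 (hj _ (Finset.mem_univ _)), e ▸ hα3 _⟩)
  obtain ⟨k', rfl⟩ := mem_omegaZ.1 hk
  have hkM : nZ k' ∈ (M L).carrier := (M L).nZ_mem hωH k'
  have hγM : γ ∈ (M L).carrier := by
    refine (M L).value_mem ((M L).pair_mem (hα2 j) hkM hxH) (htEM L) hxE ?_
    intro z hz
    exact g2 _ hxH _ (HSet.pair_right (HSet.mem htE hz)) _ (HSet.mem h1H hγ) hz hxE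
  have hγH : γ ∈ HSet θ := HSet.mem h1H hγ
  -- find the transformed sequence in the last model
  obtain ⟨s', hs'M, hs1, hs2, hs3⟩ := (M L).exists_mem
    (R := fun v s => ZFSet.pair s (v 0) ∈ v 1 ∧ SeqP θ (v 2) (v 3) (v 4) s (v 5) ∧
      ZFSet.pair (v 6) (v 7) ∈ s)
    (DefRel.and (DefRel.pairMem _ _ _) (DefRel.and (DefRel.seqP _ _ _ _ _)
      (DefRel.pairMem _ _ _)))
    ![γ, tc, omegaC o, D, R, nZ (n + 1), nZ n, a L] (by
      intro j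
      fin_cases j
      exacts [hγM, htcM L, hCM L, hDM L, hRM L, (M L).nZ_mem hωH _, (M L).nZ_mem hωH _,
        (ha L).2])
    ⟨seqZ a, hseqH, hxc, hseqP, pair_mem_seqZ (i := L).2 rfl⟩
  replace hs1 : ZFSet.pair s' γ ∈ tc := hs1
  replace hs2 : SeqP θ (omegaC o) D R s' (nZ (n + 1)) := hs2
  replace hs3 : ZFSet.pair (nZ n) (a L) ∈ s' := hs3
  obtain ⟨a', ha', ha'H, rfl⟩ := exists_seqZ hs2
  have hL' : a L = a' L := (pair_mem_seqZ (i := L)).1 hs3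
  obtain ⟨g, _, hg, hact⟩ := g4 (nZ (n + 1)) (mem_omegaZ.2 ⟨_, rfl⟩) (seqZ a) hseqH (seqZ a')
    ((M L).mem_HSet hs'M) γ hγH hseqP hs2 hxc hs1
  obtain ⟨h, hA, hh⟩ := exists_aut_of_autP hP hg
  have hfin : ∀ i, act h (a i) = a' i := fun i =>
    hh _ _ (ha i).1 (ha' i) (hact (nZ i) (mem_nZ.2 ⟨i, i.2, rfl⟩) (a i) (haH i) (a' i) (ha'H i)
      (pair_mem_seqZ.2 rfl) (pair_mem_seqZ.2 rfl))
  refine ⟨h, hA, fun i => ?_, ?_⟩
  · rw [hfin i]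
    exact (M L).value_mem ((M L).nZ_mem hωH i) hs'M (pair_mem_seqZ.2 rfl)
      fun z hz => pair_mem_seqZ.1 hz
  · rw [hfin, hL']

end Pool.Agent.TransProp
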