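import Mathlib
import Pool.Agent.Work.MP_b7a9b7_lc.Defs
import Pool.Agent.Work.MP_b7a9b7_lc.Omega1

/-!
The trace principle and pattern ranks.
-/

universe u v

open Cardinal Ordinal

namespace Pool.Agent.TransProp

/-- The coincidence pattern of two functions. -/
def eqp {α : Type v} (f g : ℕ → α) : Set (ℕ × ℕ) := {z | f z.1 = g z.2}

theorem eqp_swap {α : Type v} (f g : ℕ → α) : eqp f g = Prod.swap ⁻¹' eqp g f := by
  ext ⟨k, m⟩
  exact eq_comm

/-- A rank function bounding patterns has countably many patterns at each level. -/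
theorem countable_patterns {α : Type v} {idx : Set (ℕ × ℕ) → Ordinal.{u}}
    (hinj : Function.Injective idx) {Φ : (ℕ → α) → Ordinal.{u}}
    (h : ∀ f g, Φ f ≤ Φ g → idx (eqp f g) < Φ g) {ξ η : Ordinal.{u}}
    (hξ : ξ < Ordinal.omega 1) (hη : η < Ordinal.omega 1) :
    {p | ∃ f g, Φ f ≤ ξ ∧ Φ g ≤ η ∧ p = eqp f g}.Countable := by
  have hsub : {p | ∃ f g, Φ f ≤ ξ ∧ Φ g ≤ η ∧ p = eqp f g} ⊆ (idx ⁻¹' Set.Iio η) ∪
      (fun A : Set (ℕ × ℕ) => Prod.swap ⁻¹' A) '' (idx ⁻¹' Set.Iio ξ) := by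
    rintro p ⟨f, g, hf, hg, rfl⟩
    rcases le_total (Φ f) (Φ g) with hle | hle
    · exact Or.inl ((h _ _ hle).trans_le hg)
    · exact Or.inr ⟨eqp g f, (h _ _ hle).trans_le hf, (eqp_swap f g).symm⟩
  refine Set.Countable.mono hsub (Set.Countable.union ?_ (Set.Countable.image ?_ _))
  · exact (countable_Iio hη).preimage hinj
  · exact (countable_Iio hξ).preimage hinj

/-- A rank function bounding patterns gives the trace principle. -/
theorem TracePrinciple.of_rank {α : Type u} {idx : Set (ℕ × ℕ) → Ordinal.{u}}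
    (hinj : Function.Injective idx) {Φ : (ℕ → α) → Ordinal.{u}}
    (hΦ : ∀ f, Φ f < Ordinal.omega 1)
    (h : ∀ f g, Φ f ≤ Φ g → idx (eqp f g) < Φ g) : TracePrinciple α := by
  refine ⟨fun ξ => {B | B = ∅ ∨ ∃ f, Φ f ≤ ξ ∧ B = Set.range f}, ?_, ?_, ?_⟩
  · rintro ξ η hle B (hB | ⟨f, hf, hB⟩)
    · exact Or.inl hB
    · exact Or.inr ⟨f, hf.trans hle, hB⟩
  · intro B hB
    rcases B.eq_empty_or_nonempty with rfl | hne
    · exact ⟨0, lt_of_le_of_lt zero_le Ordinal.omega0_lt_omega_one, Or.inl rfl⟩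
    · obtain ⟨f, hf⟩ := hB.exists_eq_range hne
      exact ⟨Φ f, hΦ f, Or.inr ⟨f, le_rfl, hf⟩⟩
  · intro ξ hξ A hA
    rcases A.eq_empty_or_nonempty with rfl | hne
    · refine (Set.countable_singleton (∅ : Set α)).mono ?_
      rintro C ⟨B, _, rfl⟩
      simp
    · obtain ⟨g, hg⟩ := hA.exists_eq_range hne
      have hc := countable_patterns hinj h hξ (hΦ g)
      refine ((Set.countable_singleton (∅ : Set α)).union
        (hc.image fun p => {a | ∃ k m, (k, m) ∈ p ∧ a = g m})).mono ?_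
      rintro C ⟨B, (rfl | ⟨f, hf, rfl⟩), rfl⟩
      · exact Or.inl (by simp)
      · refine Or.inr ⟨eqp f g, ⟨f, g, hf, le_rfl, rfl⟩, ?_⟩
        ext a
        constructor
        · rintro ⟨k, m, hkm, rfl⟩
          refine ⟨⟨k, hkm⟩, ?_⟩
          rw [hg]; exact ⟨m, rfl⟩
        · rintro ⟨⟨k, hk⟩, ha⟩
          rw [hg] at ha
          obtain ⟨m, hm⟩ := ha
          exact ⟨k, m, hk.trans hm.symm, hm.symm⟩

/-- The trace principle gives a rank function bounding patterns. -/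
theorem TracePrinciple.exists_rank {ι : Type u} [Infinite ι] (hK : TracePrinciple ι)
    {idx : Set (ℕ × ℕ) → Ordinal.{u}} (hidx : ∀ x, idx x < Ordinal.omega 1) :
    ∃ Φ : (ℕ → ι) → Ordinal.{u}, (∀ f, Φ f < Ordinal.omega 1) ∧
      ∀ f g, Φ f ≤ Φ g → idx (eqp f g) < Φ g := by
  obtain ⟨F, hmono, hcov, htr⟩ := hK
  obtain ⟨e⟩ : Nonempty (ℕ × ι ↪ ι) := by
    have : #(ℕ × ι) ≤ #ι := by
      rw [Cardinal.mk_prod]
      simp
    exact this
  set Γ : (ℕ → ι) → Set ι := fun f => Set.range fun k => e (k, f k) with hΓ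
  have hr : ∀ f, ∃ ξ < Ordinal.omega.{u} 1, Γ f ∈ F ξ := fun f =>
    hcov _ (Set.countable_range _)
  choose r hr1 hr2 using hr
  have hmem : ∀ (f g : ℕ → ι) (k m : ℕ), e (k, g m) ∈ Γ f ↔ f k = g m := by
    intro f g k m
    constructor
    · rintro ⟨k', hk'⟩
      have := e.injective hk'
      simp only [Prod.mk.injEq] at this
      rw [← this.1]; exact this.2
    · intro h; exact ⟨k, by simp only [h]⟩
  -- bound on patterns
  have hb : ∀ (ξ : Ordinal.{u}) (g : ℕ → ι), ∃ b < Ordinal.omega.{u} 1, ξ < Ordinal.omega 1 →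
      ∀ f, r f ≤ ξ → idx (eqp f g) < b := by
    intro ξ g
    by_cases hξ : ξ < Ordinal.omega 1
    · have hA : (Set.range fun z : ℕ × ℕ => e (z.1, g z.2)).Countable := Set.countable_range _
      have hc := (htr ξ hξ _ hA).image fun C => idx {z : ℕ × ℕ | e (z.1, g z.2) ∈ C}
      obtain ⟨b, hb, hb'⟩ := exists_bound hc (by rintro _ ⟨C, _, rfl⟩; exact hidx _)
      refine ⟨b, hb, fun _ f hf => hb' _ ⟨_, ⟨Γ f, hmono _ _ hf (hr2 f), rfl⟩, ?_⟩⟩
      show idx _ = idx _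
      congr 1
      ext ⟨k, m⟩
      simp only [Set.mem_ofPred_eq, Set.mem_inter_iff, hmem, eqp]
      constructor
      · rintro ⟨h1, _⟩; exact h1
      · intro h1; exact ⟨h1, ⟨(k, m), rfl⟩⟩
    · exact ⟨0, lt_of_le_of_lt zero_le Ordinal.omega0_lt_omega_one, fun h => absurd h hξ⟩
  choose b hb1 hb2 using hb
  -- closure
  let η : (ℕ → ι) → ℕ → Ordinal.{u} := fun g k =>
    Nat.rec (Order.succ (r g)) (fun _ x => max (Order.succ x) (b x g)) k
  have hη0 : ∀ g, η g 0 = Order.succ (r g) := fun _ => rfl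
  have hηs : ∀ g k, η g (k + 1) = max (Order.succ (η g k)) (b (η g k) g) := fun _ _ => rfl
  have hη1 : ∀ g k, η g k < Ordinal.omega 1 := by
    intro g k
    induction k with
    | zero => rw [hη0]; exact succ_lt_omega1 (hr1 g)
    | succ k ih => rw [hηs]; exact max_lt (succ_lt_omega1 ih) (hb1 _ _)
  have hbdd : ∀ g, BddAbove (Set.range (η g)) := fun g => Ordinal.bddAbove_of_small
  refine ⟨fun g => ⨆ k, η g k, fun g => Ordinal.iSup_lt_omega_one (hη1 g), fun f g hfg => ?_⟩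
  have hrf : r f < ⨆ k, η g k := by
    have h1 : r f < η f 0 := by rw [hη0]; exact Order.lt_succ _
    exact (h1.trans_le (le_ciSup (hbdd f) 0)).trans_le hfg
  obtain ⟨k, hk⟩ := exists_lt_of_lt_ciSup hrf
  have h2 : idx (eqp f g) < b (η g k) g := hb2 _ _ (hη1 g k) f hk.le
  have h3 : b (η g k) g ≤ η g (k + 1) := by rw [hηs]; exact le_max_right _ _
  exact (h2.trans_le h3).trans_le (le_ciSup (hbdd g) (k + 1))

end Pool.Agent.TransProp
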