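import Mathlib
import Pool.Agent.Work.MP_b7a9b7_lc.Conc
import Pool.Agent.Work.MP_b7a9b7_lc.Trace
import Pool.Agent.Work.MP_b7a9b7_lc.Pos3

/-!
The coding for the quotient algebras and the main equivalence.
-/

universe u v

open Cardinal Ordinal

namespace Pool.Agent.TransProp

/-! ### Extension of countable partial injections -/

theorem exists_perm {ι : Type u} (hι : ℵ₀ < #ι) {X : Type v} [Countable X] (f f' : X → ι)
    (h : ∀ x y, f x = f y ↔ f' x = f' y) : ∃ π : ι ≃ ι, ∀ x, π (f x) = f' x := by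
  classical
  have hinf : Infinite ι := Cardinal.infinite_iff.2 hι.le
  set A := Set.range f with hA
  set A' := Set.range f' with hA'
  have hAc : A.Countable := Set.countable_range f
  have hAc' : A'.Countable := Set.countable_range f'
  -- the bijection between the ranges
  have h1 : ∀ a : A, ∃ x, f x = a.1 := fun a => a.2
  choose r hr using h1
  have h2 : ∀ a : A', ∃ x, f' x = a.1 := fun a => a.2
  choose r' hr' using h2
  let e1 : A ≃ A' :=
    { toFun := fun a => ⟨f' (r a), ⟨_, rfl⟩⟩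
      invFun := fun a => ⟨f (r' a), ⟨_, rfl⟩⟩
      left_inv := by
        intro a
        apply Subtype.ext
        show f (r' ⟨f' (r a), _⟩) = a.1
        rw [← hr a]
        exact (h _ _).2 (hr' ⟨f' (r a), ⟨_, rfl⟩⟩)
      right_inv := by
        intro a
        apply Subtype.ext
        show f' (r ⟨f (r' a), _⟩) = a.1
        rw [← hr' a]
        exact (h _ _).1 (hr ⟨f (r' a), ⟨_, rfl⟩⟩) }
  have h3 : #(↑Aᶜ : Type u) = #(↑A'ᶜ : Type u) := by
    rw [Cardinal.mk_compl_of_infinite A ((Cardinal.le_aleph0_iff_set_countable.2 hAc).trans_lt hι),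
      Cardinal.mk_compl_of_infinite A' ((Cardinal.le_aleph0_iff_set_countable.2 hAc').trans_lt hι)]
  obtain ⟨e2⟩ := Cardinal.eq.1 h3
  refine ⟨(Equiv.Set.sumCompl A).symm.trans ((Equiv.sumCongr e1 e2).trans
    (Equiv.Set.sumCompl A')), fun x => ?_⟩
  have hx : f x ∈ A := ⟨x, rfl⟩
  simp only [Equiv.trans_apply, Equiv.Set.sumCompl_symm_apply_of_mem hx, Equiv.sumCongr_apply,
    Sum.map_inl, Equiv.Set.sumCompl_apply_inl]
  show f' (r ⟨f x, hx⟩) = f' x
  exact (h _ _).1 (hr ⟨f x, hx⟩)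

/-! ### Cardinalities -/

theorem mk_MS : #MS ≤ Cardinal.continuum := by
  have h := @MeasurableSpace.cardinal_measurableSet_le_continuum (ℕ → Bool)
    (MeasurableSpace.countableGeneratingSet (ℕ → Bool))
    ((MeasurableSpace.countable_countableGeneratingSet.le_aleph0).trans
      Cardinal.aleph0_le_continuum)
  rw [MeasurableSpace.generateFrom_countableGeneratingSet] at h
  exact h

theorem mk_nat_fun {X : Type v} (hX : #X ≤ Cardinal.continuum) :
    #(ℕ → X) ≤ Cardinal.continuum := by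
  have : #(ℕ → X) = #X ^ ℵ₀ := by simp
  rw [this, ← Cardinal.continuum_power_aleph0]
  exact Cardinal.power_le_power_right hX

theorem mk_QC : #QC ≤ Cardinal.continuum := by
  refine mk_nat_fun (mk_nat_fun ?_)
  rw [Cardinal.mk_option]
  exact Cardinal.add_le_of_le Cardinal.aleph0_le_continuum mk_MS
    (Cardinal.one_le_aleph0.trans Cardinal.aleph0_le_continuum)

theorem mk_fin_fun {X : Type v} (hX : #X ≤ Cardinal.continuum) (n : ℕ) :
    #(Fin n → X) ≤ Cardinal.continuum := by
  rcases isEmpty_or_nonempty X with hE | hne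
  · have : #(Fin n → X) ≤ 1 := by
      rw [Cardinal.le_one_iff_subsingleton]
      exact ⟨fun f g => funext fun i => (hE.false (f i)).elim⟩
    exact this.trans (Cardinal.one_le_aleph0.trans Cardinal.aleph0_le_continuum)
  · refine le_trans ?_ (mk_nat_fun hX)
    let x₀ : X := Classical.arbitrary X
    refine Cardinal.mk_le_of_injective (f := fun (a : Fin n → X) (k : ℕ) =>
      if h : k < n then a ⟨k, h⟩ else x₀) ?_
    intro a b hab
    funext i
    have := congrFun hab (i : ℕ)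
    simpa using this

theorem mk_prod_le {X : Type v} {Y : Type v} (hX : #X ≤ Cardinal.continuum)
    (hY : #Y ≤ Cardinal.continuum) : #(X × Y) ≤ Cardinal.continuum := by
  rw [Cardinal.mk_prod, Cardinal.lift_id, Cardinal.lift_id]
  calc #X * #Y ≤ Cardinal.continuum * Cardinal.continuum := mul_le_mul' hX hY
    _ = Cardinal.continuum := Cardinal.continuum_mul_self

variable {κ : Cardinal.{u}}

/-! ### The coding for uncountable `κ` -/

/-- The data of a finite sequence of presentations. -/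
abbrev DT (n : ℕ) : Type := (Fin n → QC) × (Fin n → Fin n → Set (ℕ × ℕ))

theorem mk_DT (n : ℕ) : #(DT n) ≤ Cardinal.continuum :=
  mk_prod_le (mk_fin_fun mk_QC n) (mk_fin_fun (mk_fin_fun (by simp) n) n)

theorem exists_coding_uncountable (CH : Cardinal.aleph.{0} 1 = Cardinal.continuum)
    (hκ : ℵ₀ < κ) {N : Set (Idx κ → Bool) → Prop} (hN : GoodIdeal N)
    (hK : TracePrinciple (Idx κ)) : Nonempty (Coding (quotD N) (quotR N) (quotO N)) := by
  classical
  have hικ : #(Idx κ) = κ := Cardinal.mk_ord_toType κ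
  have hinf : Infinite (Idx κ) := Cardinal.infinite_iff.2 (by rw [hικ]; exact hκ.le)
  obtain ⟨idx, hinj, hidx⟩ := exists_idx_nat.{u} CH
  obtain ⟨ρ, hρ, hρ'⟩ := hK.exists_rank hidx
  obtain ⟨iq, hiq, hiq'⟩ := exists_idx.{u} CH QC mk_QC
  choose ic hic hic' using fun n => exists_idx.{u} CH (DT n) (mk_DT n)
  -- presentations
  have hpres : ∀ a : ZFSet.{u}, ∃ (f : ℕ → Idx κ) (q : QC),
      IsNiceName (quotD N) (quotR N) (quotO N) a → dec N f q = a := by
    intro a
    by_cases ha : IsNiceName (quotD N) (quotR N) (quotO N) a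
    · obtain ⟨f, q, h⟩ := exists_dec hN ha
      exact ⟨f, q, fun _ => h⟩
    · exact ⟨fun _ => Classical.arbitrary _, fun _ _ => none, fun h => absurd h ha⟩
  choose f q hfq using hpres
  let data : (n : ℕ) → (Fin n → ZFSet.{u}) → DT n := fun n a =>
    (fun i => q (a i), fun i j => eqp (f (a i)) (f (a j)))
  refine ⟨⟨fun a => max (ρ (f a)) (iq (q a)), fun n a => ic n (data n a), fun a =>
    max_lt (hρ _) (hiq' _), fun n a => hic' n _, ?_, ?_⟩⟩
  · intro n a a' ha ha' hc
    have hd : data n a = data n a' := hic n hc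
    have hq : ∀ i, q (a i) = q (a' i) := fun i => congrFun (congrArg Prod.fst hd) i
    have he : ∀ i j, eqp (f (a i)) (f (a j)) = eqp (f (a' i)) (f (a' j)) := fun i j =>
      congrFun (congrFun (congrArg Prod.snd hd) i) j
    obtain ⟨π, hπ⟩ := exists_perm (ι := Idx κ) (by rw [hικ]; exact hκ)
      (X := Fin n × ℕ) (fun x => f (a x.1) x.2) (fun x => f (a' x.1) x.2) (by
        rintro ⟨i, k⟩ ⟨j, m⟩
        have h1 := he i j
        have h2 : ((k, m) ∈ eqp (f (a i)) (f (a j))) ↔ ((k, m) ∈ eqp (f (a' i)) (f (a' j))) := by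
          rw [h1]
        exact h2)
    refine ⟨permMap N π, permMap_isAut hN π, fun i => ?_⟩
    have h1 : π ∘ f (a i) = f (a' i) := by
      funext k
      exact hπ (i, k)
    rw [← hfq (a i) (ha i), act_dec hN, h1, hq i]
    exact hfq (a' i) (ha' i)
  · intro n ξ hξ
    have hp := countable_patterns hinj hρ' hξ hξ
    have hq : (iq ⁻¹' Set.Iic ξ).Countable := (countable_Iic hξ).preimage hiq
    have h1 := Set.countable_pi (fun _ : Fin n => hq)
    have h2 := Set.countable_pi (fun _ : Fin n => Set.countable_pi (fun _ : Fin n => hp))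
    refine ((h1.prod h2).image (ic n)).mono ?_
    rintro γ ⟨a, ha, rfl⟩
    refine ⟨data n a, ⟨fun i => ?_, fun i j => ?_⟩, rfl⟩
    · exact (le_max_right _ _).trans (ha i).2
    · exact ⟨f (a i), f (a j), (le_max_left _ _).trans (ha i).2, (le_max_left _ _).trans (ha j).2,
        rfl⟩

/-! ### The coding for small `κ` -/

theorem exists_coding_small (CH : Cardinal.aleph.{0} 1 = Cardinal.continuum)
    (hκ0 : ℵ₀ ≤ κ) (hκ : κ ≤ Cardinal.continuum) {N : Set (Idx κ → Bool) → Prop}
    (hN : GoodIdeal N) : Nonempty (Coding (quotD N) (quotR N) (quotO N)) := by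
  classical
  have hικ : #(Idx κ) = κ := Cardinal.mk_ord_toType κ
  have hinf : Infinite (Idx κ) := Cardinal.infinite_iff.2 (by rw [hικ]; exact hκ0)
  have hpres : ∀ a : ZFSet.{u}, ∃ fq : (ℕ → Idx κ) × QC,
      IsNiceName (quotD N) (quotR N) (quotO N) a → dec N fq.1 fq.2 = a := by
    intro a
    by_cases ha : IsNiceName (quotD N) (quotR N) (quotO N) a
    · obtain ⟨f, q, h⟩ := exists_dec hN ha
      exact ⟨⟨f, q⟩, fun _ => h⟩
    · exact ⟨⟨fun _ => Classical.arbitrary _, fun _ _ => none⟩, fun h => absurd h ha⟩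
  choose fq hfq using hpres
  have hc : #(ULift.{0} (ℕ → Idx κ) × ULift.{u} QC) ≤ Cardinal.continuum := by
    refine mk_prod_le ?_ ?_
    · rw [Cardinal.mk_uLift, Cardinal.lift_id']
      exact mk_nat_fun (by rw [hικ]; exact hκ)
    · rw [Cardinal.mk_uLift]
      have := Cardinal.lift_le.{u}.2 mk_QC
      simpa using this
  obtain ⟨iq, hiq, hiq'⟩ := exists_idx.{u} CH _ hc
  let d : ZFSet.{u} → ULift.{0} (ℕ → Idx κ) × ULift.{u} QC := fun a =>
    (⟨(fq a).1⟩, ⟨(fq a).2⟩)
  have hd : ∀ a a', IsNiceName (quotD N) (quotR N) (quotO N) a →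
      IsNiceName (quotD N) (quotR N) (quotO N) a' → d a = d a' → a = a' := by
    intro a a' ha ha' h
    have h1 : (fq a).1 = (fq a').1 := congrArg (fun z => z.1.down) h
    have h2 : (fq a).2 = (fq a').2 := congrArg (fun z => z.2.down) h
    rw [← hfq a ha, ← hfq a' ha', h1, h2]
  choose ic hic hic' using fun n => exists_idx.{u} CH _ (mk_fin_fun hc n)
  refine ⟨⟨fun a => iq (d a), fun n a => ic n (fun i => d (a i)), fun a => hiq' _,
    fun n a => hic' n _, ?_, ?_⟩⟩
  · intro n a a' ha ha' hc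
    have h1 := hic n hc
    have h2 : ∀ i, a i = a' i := fun i => hd _ _ (ha i) (ha' i) (congrFun h1 i)
    refine ⟨permMap N (Equiv.refl _), permMap_isAut hN _, fun i => ?_⟩
    rw [← h2 i, ← hfq (a i) (ha i), act_dec hN]
    rfl
  · intro n ξ hξ
    have hq : (iq ⁻¹' Set.Iic ξ).Countable := (countable_Iic hξ).preimage hiq
    refine ((Set.countable_pi (fun _ : Fin n => hq)).image (ic n)).mono ?_
    rintro γ ⟨a, ha, rfl⟩
    exact ⟨fun i => d (a i), fun i => (ha i).2, rfl⟩

/-- The trace principle implies the transformation property. -/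
theorem TPAt_of_trace (CH : Cardinal.aleph.{0} 1 = Cardinal.continuum) (hκ : ℵ₀ ≤ κ)
    {N : Set (Idx κ → Bool) → Prop} (hN : GoodIdeal N) (hK : TracePrinciple (Idx κ)) :
    ∃ θ₀ : Cardinal.{u}, ∀ θ ≥ θ₀, ∀ W : HSet θ → HSet θ → Prop, IsWellOrder (HSet θ) W →
      TPAt θ W (quotD N) (quotR N) (quotO N) := by
  have h : Nonempty (Coding (quotD N) (quotR N) (quotO N)) := by
    rcases hκ.eq_or_lt with h | h
    · exact exists_coding_small CH hκ (h ▸ Cardinal.aleph0_le_continuum) hN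
    · exact exists_coding_uncountable CH h hN hK
  obtain ⟨K⟩ := h
  exact TPAt_of_coding (isForcing_quot hN) K

/-- The transformation property for a single `θ` above a bound implies the trace principle. -/
theorem trace_of_TPAt (CH : Cardinal.aleph.{0} 1 = Cardinal.continuum)
    {N : Set (Idx κ → Bool) → Prop} (hN : GoodIdeal N) :
    ∃ θ₀ : Cardinal.{u}, ∀ θ ≥ θ₀, ∀ W : HSet θ → HSet θ → Prop,
      TPAt θ W (quotD N) (quotR N) (quotO N) → TracePrinciple (Idx κ) := by
  obtain ⟨idx, hinj, hidx⟩ := exists_idx_nat.{u} CH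
  obtain ⟨θ₀, h₀⟩ := exists_rank_of_TPAt idx hidx (isForcing_quot hN) (α := Idx κ)
    (b := fun i => cls N {x : Idx κ → Bool | x i = true}) (gen_mem hN) (gen_injective hN)
  refine ⟨θ₀, fun θ hθ W hTP => ?_⟩
  obtain ⟨Φ, hΦ, h⟩ := h₀ θ hθ W hTP
  exact TracePrinciple.of_rank hinj hΦ h

/-- Main equivalence. -/
theorem main_equiv (CH : Cardinal.aleph.{0} 1 = Cardinal.continuum) (hκ : ℵ₀ ≤ κ) :
    ∃ θ₀ : Cardinal.{u}, ∀ θ ≥ θ₀, ∀ W : HSet θ → HSet θ → Prop, IsWellOrder (HSet θ) W →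
      (CohenTPAt κ θ W ↔ TracePrinciple (Idx κ)) ∧
      (RandomTPAt κ θ W ↔ TracePrinciple (Idx κ)) := by
  obtain ⟨θ₁, h₁⟩ := trace_of_TPAt (κ := κ) CH goodIdeal_meagre
  obtain ⟨θ₂, h₂⟩ := trace_of_TPAt (κ := κ) CH goodIdeal_null
  by_cases hK : TracePrinciple (Idx κ)
  · obtain ⟨θ₃, h₃⟩ := TPAt_of_trace (κ := κ) CH hκ goodIdeal_meagre hK
    obtain ⟨θ₄, h₄⟩ := TPAt_of_trace (κ := κ) CH hκ goodIdeal_null hK
    refine ⟨max θ₃ θ₄, fun θ hθ W hW => ⟨⟨fun _ => hK, fun _ => ?_⟩, ⟨fun _ => hK, fun _ => ?_⟩⟩⟩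
    · exact h₃ θ ((le_max_left _ _).trans hθ) W hW
    · exact h₄ θ ((le_max_right _ _).trans hθ) W hW
  · refine ⟨max θ₁ θ₂, fun θ hθ W hW => ⟨⟨fun h => ?_, fun h => absurd h hK⟩,
      ⟨fun h => ?_, fun h => absurd h hK⟩⟩⟩
    · exact h₁ θ ((le_max_left _ _).trans hθ) W h
    · exact h₂ θ ((le_max_right _ _).trans hθ) W h

end Pool.Agent.TransProp
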