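import Mathlib
import Pool.Agent.Work.MP_b7a9b7_lc.Final

/-!
Permanence of the trace principle: subsets, small sets, and cardinals of uncountable cofinality.
-/

universe u v

open Cardinal Ordinal

namespace Pool.Agent.TransProp

theorem TracePrinciple.mono {α β : Type u} (h : TracePrinciple β) (e : α ↪ β) :
    TracePrinciple α := by
  obtain ⟨F, hmono, hcov, htr⟩ := h
  refine ⟨fun ξ => {B | e '' B ∈ F ξ}, fun ξ η hle B hB => hmono ξ η hle hB, ?_, ?_⟩
  · intro B hB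
    exact hcov _ (hB.image e)
  · intro ξ hξ A hA
    refine ((htr ξ hξ (e '' A) (hA.image e)).image fun C => e ⁻¹' C).mono ?_
    rintro C ⟨B, hB, rfl⟩
    refine ⟨e '' B ∩ e '' A, ⟨_, hB, rfl⟩, ?_⟩
    show e ⁻¹' (e '' B ∩ e '' A) = B ∩ A
    rw [Set.preimage_inter, Set.preimage_image_eq _ e.injective,
      Set.preimage_image_eq _ e.injective]

theorem TracePrinciple.of_patterns {α : Type u} {Φ : (ℕ → α) → Ordinal.{u}}
    (hΦ : ∀ f, Φ f < Ordinal.omega 1)
    (hc : ∀ ξ < Ordinal.omega.{u} 1,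
      {p | ∃ f g, Φ f ≤ ξ ∧ Φ g ≤ ξ ∧ p = eqp f g}.Countable) : TracePrinciple α := by
  refine ⟨fun ξ => {B | B = ∅ ∨ ∃ f, Φ f ≤ ξ ∧ B = Set.range f}, ?_, ?_, ?_⟩
  · rintro ξ η hle B (hB | ⟨f, hf, hB⟩)
    · exact Or.inl hB
    · exact Or.inr ⟨f, hf.trans hle, hB⟩
  · intro B hB
    rcases B.eq_empty_or_nonempty with rfl | hne
    · exact ⟨0, lt_of_le_of_lt zero_le Ordinal.omega0_lt_omega_one, Or.inl rfl⟩
    · obtain ⟨f, hf⟩ := hB.exists_eq_range hne
      exact ⟨Φ f, hΦ f, Or.inr ⟨f, le_rfl, hf⟩⟩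
  · intro ξ hξ A hA
    rcases A.eq_empty_or_nonempty with rfl | hne
    · refine (Set.countable_singleton (∅ : Set α)).mono ?_
      rintro C ⟨B, _, rfl⟩
      simp
    · obtain ⟨g, hg⟩ := hA.exists_eq_range hne
      refine ((Set.countable_singleton (∅ : Set α)).union
        ((hc (max ξ (Φ g)) (max_lt hξ (hΦ g))).image
          fun p => {a | ∃ k m, (k, m) ∈ p ∧ a = g m})).mono ?_
      rintro C ⟨B, (rfl | ⟨f, hf, rfl⟩), rfl⟩
      · exact Or.inl (by simp)
      · refine Or.inr ⟨eqp f g, ⟨f, g, hf.trans (le_max_left _ _), le_max_right _ _, rfl⟩, ?_⟩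
        ext a
        constructor
        · rintro ⟨k, m, hkm, rfl⟩
          refine ⟨⟨k, hkm⟩, ?_⟩
          rw [hg]; exact ⟨m, rfl⟩
        · rintro ⟨⟨k, hk⟩, ha⟩
          rw [hg] at ha
          obtain ⟨m, hm⟩ := ha
          exact ⟨k, m, hk.trans hm.symm, hm.symm⟩

theorem TracePrinciple.of_small (CH : Cardinal.aleph.{0} 1 = Cardinal.continuum) {α : Type u}
    (hα : #α ≤ Cardinal.continuum) : TracePrinciple α := by
  obtain ⟨i, hi, hi'⟩ := exists_idx.{u} CH (ℕ → α) (mk_nat_fun hα)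
  refine TracePrinciple.of_patterns (Φ := i) hi' fun ξ hξ => ?_
  have hc : (i ⁻¹' Set.Iic ξ).Countable := (countable_Iic hξ).preimage hi
  refine ((hc.prod hc).image fun z => eqp z.1 z.2).mono ?_
  rintro p ⟨f, g, hf, hg, rfl⟩
  exact ⟨(f, g), ⟨hf, hg⟩, rfl⟩

/-- The trace principle passes to well-orders in which countable sets are bounded, from the proper
initial segments. -/
theorem TracePrinciple.of_initial (CH : Cardinal.aleph.{0} 1 = Cardinal.continuum) {ι : Type u}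
    [LinearOrder ι] [WellFoundedLT ι]
    (hbdd : ∀ B : Set ι, B.Countable → ∃ x, ∀ b ∈ B, b < x)
    (T : ι → Type u) (hT : ∀ b, Infinite (T b)) (j : ∀ b, Set.Iio b ↪ T b)
    (hK : ∀ b, TracePrinciple (T b)) : TracePrinciple ι := by
  classical
  obtain ⟨idx, hinj, hidx⟩ := exists_idx_nat.{u} CH
  have h1 : ∀ b, ∃ Φ : (ℕ → T b) → Ordinal.{u}, (∀ f, Φ f < Ordinal.omega 1) ∧
      ∀ f g, Φ f ≤ Φ g → idx (eqp f g) < Φ g := fun b =>
    have := hT b
    (hK b).exists_rank hidx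
  choose Φ hΦ hΦ' using h1
  -- strict upper bounds
  have h2 : ∀ B : Set ι, ∃ x, B.Countable → (∀ b ∈ B, b < x) ∧ ∀ y, (∀ b ∈ B, b < y) → x ≤ y := by
    intro B
    by_cases hB : B.Countable
    · obtain ⟨x₀, hx₀⟩ := hbdd B hB
      have wf : WellFounded ((· < ·) : ι → ι → Prop) := IsWellFounded.wf
      refine ⟨wf.min {x | ∀ b ∈ B, b < x} ⟨x₀, hx₀⟩, fun _ => ⟨?_, ?_⟩⟩
      · exact wf.min_mem {x | ∀ b ∈ B, b < x} ⟨x₀, hx₀⟩
      · intro y hy
        exact not_lt.1 (wf.not_lt_min {x | ∀ b ∈ B, b < x} hy)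
    · obtain ⟨x₀, _⟩ := hbdd ∅ Set.countable_empty
      exact ⟨x₀, fun h => absurd h hB⟩
  choose S hS using h2
  -- the closure
  let s : (ℕ → ι) → ι → ι := fun f b => S (Set.range f ∩ Set.Iio b)
  let Mf : (ℕ → ι) → ℕ → Set ι := fun f n =>
    Nat.rec (Set.range f ∪ {S (Set.range f)}) (fun _ X => X ∪ s f '' X) n
  have hM0 : ∀ f, Mf f 0 = Set.range f ∪ {S (Set.range f)} := fun _ => rfl
  have hMs : ∀ f n, Mf f (n + 1) = Mf f n ∪ s f '' Mf f n := fun _ _ => rfl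
  have hMc : ∀ f n, (Mf f n).Countable := by
    intro f n
    induction n with
    | zero => rw [hM0]; exact (Set.countable_range f).union (Set.countable_singleton _)
    | succ n ih => rw [hMs]; exact ih.union (ih.image _)
  let M : (ℕ → ι) → Set ι := fun f => ⋃ n, Mf f n
  have hMc' : ∀ f, (M f).Countable := fun f => Set.countable_iUnion (hMc f)
  have hMran : ∀ f k, f k ∈ M f := fun f k =>
    Set.mem_iUnion.2 ⟨0, by rw [hM0]; exact Or.inl ⟨k, rfl⟩⟩
  have hMtop : ∀ f, S (Set.range f) ∈ M f := fun f =>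
    Set.mem_iUnion.2 ⟨0, by rw [hM0]; exact Or.inr rfl⟩
  have hMcl : ∀ f b, b ∈ M f → s f b ∈ M f := by
    intro f b hb
    obtain ⟨n, hn⟩ := Set.mem_iUnion.1 hb
    exact Set.mem_iUnion.2 ⟨n + 1, by rw [hMs]; exact Or.inr ⟨b, hn, rfl⟩⟩
  have hγ : ∀ f g : ℕ → ι, S (Set.range f ∩ Set.range g) ∈ M f := by
    intro f g
    set γ := S (Set.range f ∩ Set.range g) with hγdef
    have hc : (Set.range f ∩ Set.range g).Countable :=
      (Set.countable_range f).mono Set.inter_subset_left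
    obtain ⟨hγ1, hγ2⟩ := hS _ hc
    by_cases hex : ∃ b ∈ M f, γ ≤ b
    · have wf : WellFounded ((· < ·) : ι → ι → Prop) := IsWellFounded.wf
      obtain ⟨b₀, hb₀, hb₀'⟩ := hex
      set b := wf.min {b | b ∈ M f ∧ γ ≤ b} ⟨b₀, hb₀, hb₀'⟩ with hbdef
      have hb : b ∈ M f ∧ γ ≤ b := wf.min_mem {b | b ∈ M f ∧ γ ≤ b} ⟨b₀, hb₀, hb₀'⟩
      have hbmin : ∀ c ∈ M f, γ ≤ c → b ≤ c := fun c hc hc' =>
        not_lt.1 (wf.not_lt_min {b | b ∈ M f ∧ γ ≤ b} ⟨hc, hc'⟩)
      have hc' : (Set.range f ∩ Set.Iio b).Countable :=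
        (Set.countable_range f).mono Set.inter_subset_left
      obtain ⟨h3, h4⟩ := hS _ hc'
      have e : s f b = γ := by
        apply le_antisymm
        · refine h4 γ ?_
          rintro _ ⟨⟨k, rfl⟩, hk⟩
          by_contra hcon
          exact absurd (hbmin _ (hMran f k) (not_lt.1 hcon)) (not_le.2 hk)
        · refine hγ2 _ ?_
          rintro x ⟨hx1, hx2⟩
          exact h3 x ⟨hx1, (hγ1 x ⟨hx1, hx2⟩).trans_le hb.2⟩
      rw [← e]
      exact hMcl f b hb.1
    · push Not at hex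
      obtain ⟨h3, h4⟩ := hS _ (Set.countable_range f)
      have e : S (Set.range f) = γ := by
        apply le_antisymm
        · refine h4 γ ?_
          rintro _ ⟨k, rfl⟩
          exact hex _ (hMran f k)
        · refine hγ2 _ ?_
          rintro x ⟨hx1, _⟩
          exact h3 x hx1
      rw [← e]
      exact hMtop f
  -- restrictions
  let r : (b : ι) → (ℕ → ι) → ℕ → T b := fun b f k =>
    if h : f k < b then j b ⟨f k, h⟩ else
      have := hT b
      Classical.arbitrary (T b)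
  let Dm : ι → (ℕ → ι) → Set (ℕ × ℕ) := fun b f => {z | f z.1 < b}
  have hδ : ∀ f : ℕ → ι, ∃ δ < Ordinal.omega.{u} 1,
      ∀ b ∈ M f, Φ b (r b f) < δ ∧ idx (Dm b f) < δ := by
    intro f
    obtain ⟨δ, hδ1, hδ2⟩ := exists_bound
      (S := (fun b => Φ b (r b f)) '' M f ∪ (fun b => idx (Dm b f)) '' M f)
      (((hMc' f).image _).union ((hMc' f).image _)) (by
        rintro x (⟨b, _, rfl⟩ | ⟨b, _, rfl⟩)
        · exact hΦ _ _
        · exact hidx _)
    exact ⟨δ, hδ1, fun b hb => ⟨hδ2 _ (Or.inl ⟨b, hb, rfl⟩), hδ2 _ (Or.inr ⟨b, hb, rfl⟩)⟩⟩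
  choose δ hδ1 hδ2 using hδ
  refine TracePrinciple.of_patterns (Φ := δ) hδ1 fun ξ hξ => ?_
  have hc1 : (idx ⁻¹' Set.Iio ξ).Countable := (countable_Iio hξ).preimage hinj
  have hc2 : ((idx ⁻¹' Set.Iio ξ) ∪
      (fun A : Set (ℕ × ℕ) => Prod.swap ⁻¹' A) '' (idx ⁻¹' Set.Iio ξ)).Countable :=
    hc1.union (hc1.image _)
  refine ((hc2.prod (hc1.prod hc1)).image fun z : Set (ℕ × ℕ) × Set (ℕ × ℕ) × Set (ℕ × ℕ) =>
    z.1 ∩ (z.2.1 ∩ Prod.swap ⁻¹' z.2.2)).mono ?_
  rintro p ⟨f, g, hf, hg, rfl⟩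
  set γ := S (Set.range f ∩ Set.range g) with hγdef
  have hγf : γ ∈ M f := hγ f g
  have hγg : γ ∈ M g := by
    have := hγ g f
    rwa [Set.inter_comm] at this
  have hc : (Set.range f ∩ Set.range g).Countable :=
    (Set.countable_range f).mono Set.inter_subset_left
  obtain ⟨hγ1, _⟩ := hS _ hc
  obtain ⟨a1, a2⟩ := hδ2 f γ hγf
  obtain ⟨b1, b2⟩ := hδ2 g γ hγg
  refine ⟨(eqp (r γ f) (r γ g), Dm γ f, Dm γ g), ⟨?_, a2.trans_le hf, b2.trans_le hg⟩, ?_⟩
  · rcases le_total (Φ γ (r γ f)) (Φ γ (r γ g)) with hle | hle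
    · exact Or.inl (((hΦ' γ _ _ hle).trans b1).trans_le hg)
    · exact Or.inr ⟨eqp (r γ g) (r γ f), ((hΦ' γ _ _ hle).trans a1).trans_le hf,
        (eqp_swap _ _).symm⟩
  · show eqp (r γ f) (r γ g) ∩ (Dm γ f ∩ Prod.swap ⁻¹' Dm γ g) = eqp f g
    ext ⟨k, m⟩
    simp only [Set.mem_inter_iff, Set.mem_preimage, Prod.swap_prod_mk, eqp, Dm,
      Set.mem_ofPred_eq, r]
    constructor
    · rintro ⟨h3, h4, h5⟩
      rw [dif_pos h4, dif_pos h5] at h3
      exact congrArg Subtype.val ((j γ).injective h3)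
    · intro h3
      have h4 : f k < γ := hγ1 _ ⟨⟨k, rfl⟩, ⟨m, h3.symm⟩⟩
      have h5 : g m < γ := h3 ▸ h4
      refine ⟨?_, h4, h5⟩
      rw [dif_pos h4, dif_pos h5]
      congr 1
      exact Subtype.ext h3

/-- The trace principle at a cardinal of uncountable cofinality follows from smaller cardinals. -/
theorem TracePrinciple.of_cof (CH : Cardinal.aleph.{0} 1 = Cardinal.continuum) {κ : Cardinal.{u}}
    (hcof : ℵ₀ < κ.ord.cof)
    (h : ∀ μ < κ, ℵ₀ ≤ μ → TracePrinciple μ.ord.ToType) : TracePrinciple κ.ord.ToType := by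
  have hκ' : ℵ₀ < κ := hcof.trans_le (by
    have := Ordinal.cof_le_card κ.ord
    rwa [Cardinal.card_ord] at this)
  have hlt : ∀ b : κ.ord.ToType, max #(Set.Iio b) ℵ₀ < κ := fun b =>
    max_lt (by
      have := Cardinal.mk_Iio_lt b (by simp)
      rwa [Cardinal.mk_ord_toType] at this) hκ'
  refine TracePrinciple.of_initial CH ?_ (fun b => (max #(Set.Iio b) ℵ₀).ord.ToType) ?_ ?_ ?_
  · intro B hB
    by_contra hcon
    push Not at hcon
    have h1 : IsCofinal B := fun a => by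
      obtain ⟨b, hb, hab⟩ := hcon a
      exact ⟨b, hb, hab⟩
    have h2 := Order.cof_le h1
    rw [Ordinal.cof_toType] at h2
    exact absurd (h2.trans (Cardinal.le_aleph0_iff_set_countable.2 hB)) (not_le.2 hcof)
  · intro b
    rw [Cardinal.infinite_iff, Cardinal.mk_ord_toType]
    exact le_max_right _ _
  · intro b
    have : #(Set.Iio b) ≤ #(max #(Set.Iio b) ℵ₀).ord.ToType := by
      rw [Cardinal.mk_ord_toType]; exact le_max_left _ _
    exact Classical.choice this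
  · intro b
    exact h _ (hlt b) (le_max_right _ _)

/-! ### The threshold -/

theorem exists_regular_ge (c : Cardinal.{u}) : ∃ θ ≥ c, θ.IsRegular :=
  ⟨Order.succ (max c ℵ₀), (le_max_left _ _).trans (Order.le_succ _),
    Cardinal.isRegular_succ (le_max_right _ _)⟩

theorem cohenTP_iff (CH : Cardinal.aleph.{0} 1 = Cardinal.continuum) {κ : Cardinal.{u}}
    (hκ : ℵ₀ ≤ κ) : CohenTP κ ↔ TracePrinciple κ.ord.ToType := by
  obtain ⟨θ₁, h₁⟩ := main_equiv (κ := κ) CH hκ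
  constructor
  · rintro ⟨θ₂, h₂⟩
    obtain ⟨θ, hθ, hreg⟩ := exists_regular_ge (max θ₁ θ₂)
    exact ((h₁ θ ((le_max_left _ _).trans hθ) WellOrderingRel inferInstance).1).1
      (h₂ θ ((le_max_right _ _).trans hθ) hreg _ inferInstance)
  · intro hK
    exact ⟨θ₁, fun θ hθ _ W hW => ((h₁ θ hθ W hW).1).2 hK⟩

theorem randomTP_iff (CH : Cardinal.aleph.{0} 1 = Cardinal.continuum) {κ : Cardinal.{u}}
    (hκ : ℵ₀ ≤ κ) : RandomTP κ ↔ TracePrinciple κ.ord.ToType := by
  obtain ⟨θ₁, h₁⟩ := main_equiv (κ := κ) CH hκ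
  constructor
  · rintro ⟨θ₂, h₂⟩
    obtain ⟨θ, hθ, hreg⟩ := exists_regular_ge (max θ₁ θ₂)
    exact ((h₁ θ ((le_max_left _ _).trans hθ) WellOrderingRel inferInstance).2).1
      (h₂ θ ((le_max_right _ _).trans hθ) hreg _ inferInstance)
  · intro hK
    exact ⟨θ₁, fun θ hθ _ W hW => ((h₁ θ hθ W hW).2).2 hK⟩

theorem trace_aleph0 (CH : Cardinal.aleph.{0} 1 = Cardinal.continuum) :
    TracePrinciple (ℵ₀ : Cardinal.{u}).ord.ToType :=
  TracePrinciple.of_small CH (by rw [Cardinal.mk_ord_toType]; exact Cardinal.aleph0_le_continuum)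

/-- The failure of the trace principle starts at a cardinal of countable cofinality. -/
theorem trace_threshold (CH : Cardinal.aleph.{0} 1 = Cardinal.continuum) :
    (∀ κ : Cardinal.{u}, ℵ₀ ≤ κ → TracePrinciple κ.ord.ToType) ∨
    ∃ μ : Cardinal.{u}, Cardinal.aleph Ordinal.omega0 ≤ μ ∧ μ.ord.cof = ℵ₀ ∧
      ∀ κ : Cardinal.{u}, ℵ₀ ≤ κ → (TracePrinciple κ.ord.ToType ↔ κ < μ) := by
  by_cases hall : ∀ κ : Cardinal.{u}, ℵ₀ ≤ κ → TracePrinciple κ.ord.ToType
  · exact Or.inl hall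
  · right
    push Not at hall
    obtain ⟨κ₀, hκ₀, hκ₀'⟩ := hall
    set S : Set Cardinal.{u} := {κ | ℵ₀ ≤ κ ∧ ¬ TracePrinciple κ.ord.ToType} with hS
    have hne : S.Nonempty := ⟨κ₀, hκ₀, hκ₀'⟩
    set μ := sInf S with hμ
    have hμS : μ ∈ S := csInf_mem hne
    have hmin : ∀ κ, ℵ₀ ≤ κ → κ < μ → TracePrinciple κ.ord.ToType := by
      intro κ hκ hκμ
      by_contra hcon
      exact absurd (csInf_le' (s := S) ⟨hκ, hcon⟩) (not_le.2 hκμ)
    have hcof : μ.ord.cof = ℵ₀ := by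
      apply le_antisymm
      · by_contra hcon
        exact hμS.2 (TracePrinciple.of_cof CH (not_le.1 hcon)
          fun κ h1 h2 => hmin κ h2 h1)
      · rw [Ordinal.aleph0_le_cof_iff, Ordinal.one_lt_cof_iff]
        exact Cardinal.isSuccLimit_ord hμS.1
    refine ⟨μ, ?_, hcof, fun κ hκ => ⟨fun h => ?_, hmin κ hκ⟩⟩
    · by_contra hcon
      rw [not_le] at hcon
      obtain ⟨n, hn⟩ : ∃ n : ℕ, μ = Cardinal.aleph n := by
        have h1 : μ ∈ Set.range Cardinal.aleph := by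
          rw [Cardinal.range_aleph]
          exact hμS.1
        obtain ⟨o, ho⟩ := h1
        rw [← ho, Cardinal.aleph_lt_aleph] at hcon
        obtain ⟨n, rfl⟩ := Ordinal.lt_omega0.1 hcon
        exact ⟨n, ho.symm⟩
      cases n with
      | zero =>
        refine hμS.2 ?_
        rw [hn]
        have : Cardinal.aleph ((0 : ℕ) : Ordinal.{u}) = ℵ₀ := by simp
        rw [this]
        exact trace_aleph0 CH
      | succ n =>
        have hreg : μ.IsRegular := by
          rw [hn]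
          have : ((n + 1 : ℕ) : Ordinal.{u}) = (n : Ordinal.{u}) + 1 := by push_cast; rfl
          rw [this]
          exact Cardinal.isRegular_aleph_add_one _
        have h1 : μ = ℵ₀ := by rw [← hreg.cof_ord, hcof]
        refine hμS.2 ?_
        rw [h1]
        exact trace_aleph0 CH
    · by_contra hcon
      rw [not_lt] at hcon
      refine hμS.2 (h.mono ?_)
      have : #μ.ord.ToType ≤ #κ.ord.ToType := by
        rw [Cardinal.mk_ord_toType, Cardinal.mk_ord_toType]; exact hcon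
      exact Classical.choice this

end Pool.Agent.TransProp
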